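import Pool.Agent.H56Z.Pert
import Pool.Agent.N334.W.Main

/-!
# The archimedean bound at a rational vector close to the zeta values
-/

open Polynomial Pool.Agent.H337R2 Pool.Agent.N334.W Filter Topology

namespace Pool.Agent.H56Z

noncomputable section

/-- the weights of the perturbation are smaller than `R(t)` -/
def Close (b h n : ℕ) (u : ℕ → ℚ) : Prop := ∀ t < 2 * n, ∀ k ≤ b, |pw b h n u t k| ≤ N334.W.Rt h n t

/-- all the weights -/
def omu (b h n : ℕ) (u : ℕ → ℚ) (t k : ℕ) : ℝ := ((om b h n (t : ℚ) k : ℚ) : ℝ) + pw b h n u t k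

lemma omu_le (b h n : ℕ) (u : ℕ → ℚ) (K : ℝ) (hn : 1 ≤ n) (hu : Close b h n u)
    (hom : ∀ t k : ℕ, k ≤ b → |((om b h n (t : ℚ) k : ℚ) : ℝ)| ≤ K * N334.W.Rt h n t * (2 * (t : ℝ) + 4 * n) ^ k)
    (t k : ℕ) (hk : k ≤ b) : |omu b h n u t k| ≤ (K + 1) * N334.W.Rt h n t * (2 * (t : ℝ) + 4 * n) ^ k := by
  have h1 := hom t k hk
  have hn1 : (1 : ℝ) ≤ n := by exact_mod_cast hn
  have ht : (0 : ℝ) ≤ t := Nat.cast_nonneg t
  have hR := Rt_nonneg h n t
  have h2 : |pw b h n u t k| ≤ N334.W.Rt h n t * (2 * (t : ℝ) + 4 * n) ^ k := by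
    have h3 : (1 : ℝ) ≤ (2 * (t : ℝ) + 4 * n) ^ k := one_le_pow₀ (by linarith)
    by_cases h4 : t < 2 * n
    · exact (hu t h4 k hk).trans (le_mul_of_one_le_right hR h3)
    · unfold pw
      rw [if_neg h4, abs_zero]
      positivity
  unfold omu
  refine (abs_add_le _ _).trans ?_
  linarith

lemma tendsto_u (b h n m : ℕ) (hb : Even b) (hb2 : 2 ≤ b) (hh : Even h)
    (hn : 1 ≤ n) (u : ℕ → ℚ) (hm : 4 * m ≤ h * (2 * n + 1)) (hm2 : 2 * m ≤ (b + 1) * (2 * n)) :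
    Tendsto (fun T : ℕ => (MT (b + 1) (4 * n) m T (omu b h n u)).det) atTop (𝓝 ((DET b h n u m : ℚ) : ℝ)) := by
  have h1 : ((DET b h n u m : ℚ) : ℝ) =
      (Matrix.of fun i j : Fin m => ((NL b h n u (X ^ (i.1 + j.1)) : ℚ) : ℝ)).det := by
    unfold DET
    have := (Rat.castHom ℝ).map_det (Matrix.of fun i j : Fin m => NL b h n u (X ^ (i.1 + j.1)))
    rw [← Rat.coe_castHom (α := ℝ), this]
    congr 1
  rw [h1]
  have h2 : Tendsto (fun T : ℕ => MT (b + 1) (4 * n) m T (omu b h n u)) atTop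
      (𝓝 (Matrix.of fun i j : Fin m => ((NL b h n u (X ^ (i.1 + j.1)) : ℚ) : ℝ))) := by
    refine tendsto_pi_nhds.2 fun i => tendsto_pi_nhds.2 fun j => ?_
    have hi := i.2
    have hj := j.2
    have hs := hasSum_u b h n u (X ^ (i.1 + j.1)) hb hb2 hh hn (by
      rw [Polynomial.natDegree_X_pow]
      omega) (by
      rw [Polynomial.natDegree_X_pow]
      omega)
    have h3 := hs.tendsto_sum_nat
    refine h3.congr fun T => ?_
    unfold MT
    rw [Matrix.of_apply]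
    apply Finset.sum_congr rfl
    intro t _
    rw [AR_entry OM1 b h n t (i.1 + j.1), ← Finset.sum_add_distrib]
    apply Finset.sum_congr rfl
    intro k _
    unfold omu
    have e1 : (((hasseDeriv k (X ^ (i.1 + j.1) : ℚ[X])).eval (vx n t) : ℚ) : ℝ) =
        ((i.1 + j.1).choose k : ℝ) * nx (4 * n) t ^ (i.1 + j.1 - k) := by
      rw [← Polynomial.monomial_one_right_eq_X_pow, Polynomial.hasseDeriv_monomial, Polynomial.eval_monomial]
      unfold nx vx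
      push_cast
      ring
    rw [e1]
    ring
  have hc : Continuous fun M : Matrix (Fin m) (Fin m) ℝ => M.det := continuous_id.matrix_det
  exact (hc.tendsto _).comp h2

lemma bound_u (hARCH : S_ARCH) (hCL : S_CL) (b h ν : ℕ) (K K' : ℝ)
    (hK : 0 < K) (hK' : 0 < K')
    (hdom : ∀ ν t : ℕ, 2 ≤ ν → (K * N334.W.Rt h (10 * ν) t * ((t : ℝ) + 40 * ν) ^ (6 * (b + 1) + 2)) ^ 5 ≤
      K' * r0 (10 * ν) ^ (5 * h - 13 * (b + 1)) * ((20 * ν).factorial : ℝ) ^ (13 * (b + 1)) *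
        wcl (40 * ν) (7 * ν + 5) t ^ (5 * (b + 1)))
    (hb : Even b) (hb2 : 2 ≤ b) (hh : Even h) (hh2 : 2 * (b + 1) ≤ h) (hν : 2 ≤ ν)
    (u : ℕ → ℚ) (hom : ∀ t k : ℕ, k ≤ b →
      |omu b h (10 * ν) u t k| ≤ K * N334.W.Rt h (10 * ν) t * (2 * (t : ℝ) + 4 * ((10 * ν : ℕ) : ℝ)) ^ k) :
    |((DET b h (10 * ν) u ((b + 1) * (10 * ν - 1)) : ℚ) : ℝ)| ≤
      (36 ^ (b + 1) * ((b + 1 : ℕ) : ℝ) ^ 2) ^ ((b + 1) * (10 * ν - 1)) *
      Real.exp (2 * (((b + 1) * (10 * ν - 1) : ℕ) : ℝ) * ((b + 1 : ℕ) : ℝ) *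
        (1 + Real.log (((b + 1) * (10 * ν - 1) : ℕ) : ℝ))) *
      Real.exp (AR_y (b + 1) h ν K') ^ (b + 1) := by
  have ht := tendsto_u b h (10 * ν) ((b + 1) * (10 * ν - 1)) hb hb2 hh (by omega) u (by
    have h1 : 4 * ((b + 1) * (10 * ν - 1)) ≤ 4 * ((b + 1) * (10 * ν)) :=
      Nat.mul_le_mul_left _ (Nat.mul_le_mul_left _ (by omega))
    have h2 : 2 * (b + 1) * (2 * (10 * ν) + 1) ≤ h * (2 * (10 * ν) + 1) := Nat.mul_le_mul_right _ hh2
    nlinarith) (by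
    have h1 : (b + 1) * (10 * ν - 1) ≤ (b + 1) * (10 * ν) := Nat.mul_le_mul_left _ (by omega)
    calc 2 * ((b + 1) * (10 * ν - 1)) ≤ 2 * ((b + 1) * (10 * ν)) := Nat.mul_le_mul_left _ h1
      _ = _ := by ring)
  refine le_of_tendsto ht.abs (Eventually.of_forall fun T => ?_)
  have hc : 4 * (10 * ν) = 40 * ν := by ring
  have hQ : 0 < K' * r0 (10 * ν) ^ (5 * h - 13 * (b + 1)) * ((20 * ν).factorial : ℝ) ^ (13 * (b + 1)) := by
    have := r0_pos (10 * ν)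
    positivity
  have hD := Dcl_pos hν
  have h5 : Real.exp (AR_y (b + 1) h ν K') ^ 5 =
      (K' * r0 (10 * ν) ^ (5 * h - 13 * (b + 1)) * ((20 * ν).factorial : ℝ) ^ (13 * (b + 1))) ^ (10 * ν - 1) *
        Dcl (40 * ν) (7 * ν + 5) (10 * ν - 1) ^ (5 * (b + 1)) := by
    rw [← Real.exp_nat_mul]
    have : ((5 : ℕ) : ℝ) * AR_y (b + 1) h ν K' = (10 * ν - 1 : ℕ) *
        Real.log (K' * r0 (10 * ν) ^ (5 * h - 13 * (b + 1)) * ((20 * ν).factorial : ℝ) ^ (13 * (b + 1))) +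
        ((5 * (b + 1) : ℕ) : ℝ) * Real.log (Dcl (40 * ν) (7 * ν + 5) (10 * ν - 1)) := by
      unfold AR_y
      push_cast
      ring
    rw [this, Real.exp_add, Real.exp_nat_mul, Real.exp_nat_mul, Real.exp_log hQ, Real.exp_log hD]
  have key := hARCH (b + 1) (4 * (10 * ν)) (10 * ν - 1) T (fun t => K * N334.W.Rt h (10 * ν) t)
    (omu b h (10 * ν) u) (Real.exp (AR_y (b + 1) h ν K')) (by omega) (by omega)
    (by omega) (fun t => mul_nonneg hK.le (Rt_nonneg _ _ _)) (fun t k hk => by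
      have := hom t k (by omega)
      simpa using this) (Real.exp_pos _).le (fun A hA => by
      have hWn : ∀ a : ℕ, 0 ≤ K * N334.W.Rt h (10 * ν) a * ((a : ℝ) + 40 * ν) ^ (6 * (b + 1) + 2) := by
        intro a
        have := Rt_nonneg h (10 * ν) a
        positivity
      have h6 : (∏ a ∈ A, K * N334.W.Rt h (10 * ν) a * ((a : ℝ) + ((4 * (10 * ν) : ℕ) : ℝ)) ^ (6 * (b + 1) + 2)) =
          ∏ a ∈ A, K * N334.W.Rt h (10 * ν) a * ((a : ℝ) + 40 * ν) ^ (6 * (b + 1) + 2) := by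
        apply Finset.prod_congr rfl
        intro a _
        rw [hc]
        push_cast
        ring
      rw [h6, hc]
      have h7 : 0 ≤ (∏ a ∈ A, K * N334.W.Rt h (10 * ν) a * ((a : ℝ) + 40 * ν) ^ (6 * (b + 1) + 2)) *
          vd (40 * ν) A ^ (2 * (b + 1)) :=
        mul_nonneg (Finset.prod_nonneg fun a _ => hWn a) (pow_nonneg (vd_nonneg _ _) _)
      refine le_of_pow_le_pow_left₀ (n := 5) (by norm_num) (Real.exp_pos _).le ?_
      rw [h5, mul_pow, ← Finset.prod_pow]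
      calc (∏ a ∈ A, (K * N334.W.Rt h (10 * ν) a * ((a : ℝ) + 40 * ν) ^ (6 * (b + 1) + 2)) ^ 5) *
            (vd (40 * ν) A ^ (2 * (b + 1))) ^ 5
          ≤ (∏ a ∈ A, (K' * r0 (10 * ν) ^ (5 * h - 13 * (b + 1)) * ((20 * ν).factorial : ℝ) ^ (13 * (b + 1)) *
              wcl (40 * ν) (7 * ν + 5) a ^ (5 * (b + 1)))) * (vd (40 * ν) A ^ (2 * (b + 1))) ^ 5 := by
            apply mul_le_mul_of_nonneg_right _ (pow_nonneg (pow_nonneg (vd_nonneg _ _) _) _)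
            exact Finset.prod_le_prod (fun a _ => pow_nonneg (hWn a) _) fun a _ => hdom ν a hν
        _ = (K' * r0 (10 * ν) ^ (5 * h - 13 * (b + 1)) * ((20 * ν).factorial : ℝ) ^ (13 * (b + 1))) ^ (10 * ν - 1) *
              ((∏ a ∈ A, wcl (40 * ν) (7 * ν + 5) a) * vd (40 * ν) A ^ 2) ^ (5 * (b + 1)) := by
            rw [Finset.prod_mul_distrib, Finset.prod_const, hA, Finset.prod_pow, mul_pow, ← pow_mul, ← pow_mul]
            ring
        _ ≤ _ := by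
            apply mul_le_mul_of_nonneg_left _ (pow_nonneg hQ.le _)
            apply pow_le_pow_left₀
            · exact mul_nonneg (Finset.prod_nonneg fun a _ => wcl_nonneg _ _ _) (pow_nonneg (vd_nonneg _ _) _)
            · exact hCL (40 * ν) (7 * ν + 5) (10 * ν - 1) A (by omega) (by omega) hA)
  exact key

/-- the archimedean bound -/
theorem AR_u_of (hOM2 : S_OM2) (hARCH : S_ARCH) (hCL : S_CL) (hDOM : S_DOM)
    (hASY : S_ASY) (hR0 : S_R0) (b h : ℕ) (hb : Even b) (hb2 : 2 ≤ b) (hh : Even h) (h13 : 13 * (b + 1) ≤ 5 * h)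
    (ε : ℝ) (hε : 0 < ε) : ∀ᶠ ν : ℕ in atTop, ∀ u : ℕ → ℚ, Close b h (10 * ν) u →
    |((DET b h (10 * ν) u ((b + 1) * (10 * ν - 1)) : ℚ) : ℝ)| ≤
      Real.exp ((10 * (ν : ℝ)) ^ 2 * (((b : ℝ) + 1) ^ 2 * (2 * Real.log (10 * (ν : ℝ)) + a0) -
        ((b : ℝ) + 1) * (5 * h - 13 * ((b : ℝ) + 1)) / 5 * (3 * Real.log 3 - 2 * Real.log 2) + ε)) := by
  obtain ⟨K0, hK0, hom⟩ := hOM2 b h
  obtain ⟨K, hKd⟩ : ∃ K, K = K0 + 1 := ⟨_, rfl⟩
  have hK : 0 < K := by linarith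
  obtain ⟨K', hK', hdom⟩ := hDOM (b + 1) h K (by omega) h13 hK
  obtain ⟨s, hs⟩ : ∃ s : ℝ, s = (b : ℝ) + 1 := ⟨_, rfl⟩
  have hs1 : 1 ≤ s := by rw [hs]; linarith [(Nat.cast_nonneg b : (0 : ℝ) ≤ b)]
  obtain ⟨ρ, hρ⟩ : ∃ ρ : ℝ, ρ = 3 * Real.log 3 - 2 * Real.log 2 := ⟨_, rfl⟩
  obtain ⟨D, hD⟩ : ∃ D : ℝ, D = s * (5 * h - 13 * s) / 5 := ⟨_, rfl⟩
  have hD0 : 0 ≤ D := by
    rw [hD]
    have : (13 * (s : ℝ)) ≤ 5 * h := by rw [hs]; exact_mod_cast h13
    apply div_nonneg _ (by norm_num)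
    apply mul_nonneg (by linarith)
    linarith
  have hρ0 : 0 ≤ ρ := by
    rw [hρ]
    have h1 : Real.log 2 ≤ Real.log 3 := Real.log_le_log (by norm_num) (by norm_num)
    have h2 : 0 ≤ Real.log 3 := Real.log_nonneg (by norm_num)
    linarith
  obtain ⟨C1, hC1⟩ : ∃ C1 : ℝ, C1 = Real.log (36 ^ (b + 1) * ((b + 1 : ℕ) : ℝ) ^ 2) := ⟨_, rfl⟩
  have hC1' : 0 ≤ C1 := by
    rw [hC1]
    apply Real.log_nonneg
    have h1 : (1 : ℝ) ≤ 36 ^ (b + 1) := one_le_pow₀ (by norm_num)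
    have h2 : (1 : ℝ) ≤ ((b + 1 : ℕ) : ℝ) ^ 2 := one_le_pow₀ (by push_cast; linarith [(Nat.cast_nonneg b : (0 : ℝ) ≤ b)])
    nlinarith
  have e1 := hASY (ε / (4 * s ^ 2)) (by positivity)
  have e2 : ∀ᶠ ν : ℕ in atTop, Real.log (r0 (10 * ν)) ≤
      (10 * (ν : ℝ)) * (-ρ + ε / (4 * (D + 1))) := by
    have h1 := hR0 (ε / (4 * (D + 1))) (by positivity)
    have h2 : Tendsto (fun ν : ℕ => 10 * ν) atTop atTop := tendsto_id.const_mul_atTop' (by norm_num)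
    have h3 := h2.eventually h1
    filter_upwards [h3] with ν h4
    rw [hρ]
    push_cast at h4
    exact h4
  have e3 := AR_log_small (s * C1 + 2 * s ^ 2 * (1 + s) + s / 5 * |Real.log K'| + D * ρ) (2 * s ^ 2) (ε / 4)
    (by positivity)
  filter_upwards [e1, e2, e3, eventually_ge_atTop 2] with ν h1 h2 h3 hν u hu
  have hbd := bound_u hARCH hCL b h ν K K' hK hK' hdom hb hb2 hh (by omega) hν u (fun t k hk => by
    rw [hKd]
    exact omu_le b h (10 * ν) u K0 (by omega) hu (fun t k hk => hom (10 * ν) t k (by omega) hk) t k hk)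
  refine hbd.trans ?_
  obtain ⟨n, hn⟩ : ∃ n : ℝ, n = 10 * (ν : ℝ) := ⟨_, rfl⟩
  have hn1 : 20 ≤ n := by
    rw [hn]
    have : (2 : ℝ) ≤ ν := by exact_mod_cast hν
    linarith
  have hN : ((10 * ν - 1 : ℕ) : ℝ) = n - 1 := by
    rw [hn, Nat.cast_sub (by omega)]
    push_cast
    ring
  obtain ⟨m, hm⟩ : ∃ m : ℝ, m = (((b + 1) * (10 * ν - 1) : ℕ) : ℝ) := ⟨_, rfl⟩
  have hm' : m = s * (n - 1) := by
    rw [hm, Nat.cast_mul, hN, hs]
    push_cast
    ring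
  have hm1 : 1 ≤ m := by rw [hm']; nlinarith
  have hs2 : ((b + 1 : ℕ) : ℝ) = s := by rw [hs]; push_cast; ring
  have hQ : 0 < K' * r0 (10 * ν) ^ (5 * h - 13 * (b + 1)) * ((20 * ν).factorial : ℝ) ^ (13 * (b + 1)) := by
    have := r0_pos (10 * ν)
    positivity
  have hbase : (0 : ℝ) < 36 ^ (b + 1) * ((b + 1 : ℕ) : ℝ) ^ 2 := by positivity
  rw [← Real.exp_log (pow_pos hbase ((b + 1) * (10 * ν - 1))), Real.log_pow, ← hC1, ← hm, hs2,
    ← Real.exp_nat_mul, hs2, ← Real.exp_add, ← Real.exp_add]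
  apply Real.exp_le_exp.2
  have hlogm : Real.log m ≤ s + Real.log n := by
    have h4 : m ≤ s * n := by rw [hm']; nlinarith
    have h5 : Real.log m ≤ Real.log (s * n) := Real.log_le_log (by linarith) h4
    rw [Real.log_mul (by linarith) (by linarith)] at h5
    have h6 := Real.log_le_sub_one_of_pos (by linarith : 0 < s)
    linarith
  have hn0 : 0 ≤ Real.log n := Real.log_nonneg (by linarith)
  -- the main part
  have hy : s * AR_y (b + 1) h ν K' = s / 5 * (n - 1) * Real.log K' + D * ((n - 1) * Real.log (r0 (10 * ν))) +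
      s ^ 2 * (13 / 5 * (n - 1) * Real.log ((20 * ν).factorial : ℝ) +
        Real.log (Dcl (40 * ν) (7 * ν + 5) (10 * ν - 1))) := by
    unfold AR_y
    have hr := r0_pos (10 * ν)
    rw [Real.log_mul (by positivity) (by positivity), Real.log_mul (by positivity) (by positivity), Real.log_pow,
      Real.log_pow, hN, Nat.cast_sub h13]
    rw [hD, ← hs2]
    push_cast
    ring
  rw [hy]
  have h1' : s ^ 2 * (13 / 5 * (n - 1) * Real.log ((20 * ν).factorial : ℝ) +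
        Real.log (Dcl (40 * ν) (7 * ν + 5) (10 * ν - 1))) ≤
      n ^ 2 * (s ^ 2 * (2 * Real.log n + a0)) + n ^ 2 * (ε / 4) := by
    rw [← hn] at h1
    have h4 := mul_le_mul_of_nonneg_left h1 (sq_nonneg s)
    have h5 : s ^ 2 * (n ^ 2 * (2 * Real.log n + a0 + ε / (4 * s ^ 2))) =
        n ^ 2 * (s ^ 2 * (2 * Real.log n + a0)) + n ^ 2 * (ε / 4) := by
      field_simp
    linarith
  have h2' : D * ((n - 1) * Real.log (r0 (10 * ν))) ≤ n ^ 2 * (-(D * ρ)) + n * (D * ρ) + n ^ 2 * (ε / 4) := by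
    rw [← hn] at h2
    have h4 : (n - 1) * Real.log (r0 (10 * ν)) ≤ (n - 1) * (n * (-ρ + ε / (4 * (D + 1)))) :=
      mul_le_mul_of_nonneg_left h2 (by linarith)
    have h5 := mul_le_mul_of_nonneg_left h4 hD0
    have h6 : D * (ε / (4 * (D + 1))) ≤ ε / 4 := by
      rw [mul_div_assoc', div_le_div_iff₀ (by positivity) (by norm_num)]
      nlinarith
    have h7 : D * ((n - 1) * (n * (-ρ + ε / (4 * (D + 1))))) =
        n ^ 2 * (-(D * ρ)) + n * (D * ρ) + (n - 1) * n * (D * (ε / (4 * (D + 1)))) := by ring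
    have h8 : (n - 1) * n * (D * (ε / (4 * (D + 1)))) ≤ n ^ 2 * (ε / 4) := by
      have h9 : (n - 1) * n * (D * (ε / (4 * (D + 1)))) ≤ (n - 1) * n * (ε / 4) :=
        mul_le_mul_of_nonneg_left h6 (by nlinarith)
      nlinarith
    linarith
  have h3' : m * C1 + 2 * m * s * (1 + Real.log m) + s / 5 * (n - 1) * Real.log K' + n * (D * ρ) ≤
      n ^ 2 * (ε / 4) := by
    rw [← hn] at h3
    have h4 : m ≤ s * n := by rw [hm']; nlinarith
    have h5 : m * C1 ≤ n * (s * C1) := by nlinarith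
    have h6 : 2 * m * s * (1 + Real.log m) ≤ n * (2 * s ^ 2 * (1 + s) + 2 * s ^ 2 * Real.log n) := by
      have h7 : 2 * m * s ≤ 2 * s ^ 2 * n := by nlinarith
      have h8 : 1 + Real.log m ≤ 1 + s + Real.log n := by linarith
      have h9 : 0 ≤ 1 + s + Real.log n := by linarith
      calc 2 * m * s * (1 + Real.log m) ≤ 2 * m * s * (1 + s + Real.log n) :=
            mul_le_mul_of_nonneg_left h8 (by nlinarith)
        _ ≤ 2 * s ^ 2 * n * (1 + s + Real.log n) := mul_le_mul_of_nonneg_right h7 h9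
        _ = _ := by ring
    have h10 : s / 5 * (n - 1) * Real.log K' ≤ n * (s / 5 * |Real.log K'|) := by
      have h11 := le_abs_self (Real.log K')
      have h12 : s / 5 * (n - 1) * Real.log K' ≤ s / 5 * (n - 1) * |Real.log K'| :=
        mul_le_mul_of_nonneg_left h11 (by nlinarith)
      have h13 : s / 5 * (n - 1) * |Real.log K'| ≤ s / 5 * n * |Real.log K'| :=
        mul_le_mul_of_nonneg_right (by nlinarith) (abs_nonneg _)
      linarith
    have h14 := mul_le_mul_of_nonneg_left h3 (by linarith : 0 ≤ n)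
    calc m * C1 + 2 * m * s * (1 + Real.log m) + s / 5 * (n - 1) * Real.log K' + n * (D * ρ)
        ≤ n * (s * C1) + n * (2 * s ^ 2 * (1 + s) + 2 * s ^ 2 * Real.log n) + n * (s / 5 * |Real.log K'|) +
          n * (D * ρ) := add_le_add_left (add_le_add (add_le_add h5 h6) h10) _
      _ = n * (s * C1 + 2 * s ^ 2 * (1 + s) + s / 5 * |Real.log K'| + D * ρ + 2 * s ^ 2 * Real.log n) := by ring
      _ ≤ n * (ε / 4 * n) := h14
      _ = n ^ 2 * (ε / 4) := by ring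
  have h4 : n ^ 2 * (-(D * ρ)) = -(n ^ 2 * (D * ρ)) := by ring
  have hfin : (10 * (ν : ℝ)) ^ 2 * (((b : ℝ) + 1) ^ 2 * (2 * Real.log (10 * (ν : ℝ)) + a0) -
        ((b : ℝ) + 1) * (5 * h - 13 * ((b : ℝ) + 1)) / 5 * (3 * Real.log 3 - 2 * Real.log 2) + ε) =
      n ^ 2 * (s ^ 2 * (2 * Real.log n + a0)) - n ^ 2 * (D * ρ) + n ^ 2 * ε := by
    rw [← hs, ← hn, ← hρ, ← hD]
    ring
  rw [hfin]
  have h15 : 0 ≤ n ^ 2 * (ε / 4) := by positivity
  have h16 : n ^ 2 * ε = n ^ 2 * (ε / 4) + n ^ 2 * (ε / 4) + n ^ 2 * (ε / 4) + n ^ 2 * (ε / 4) := by ring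
  linarith


theorem AR_u (b h : ℕ) (hb : Even b) (hb2 : 2 ≤ b) (hh : Even h) (h13 : 13 * (b + 1) ≤ 5 * h)
    (ε : ℝ) (hε : 0 < ε) : ∀ᶠ ν : ℕ in atTop, ∀ u : ℕ → ℚ, Close b h (10 * ν) u →
    |((DET b h (10 * ν) u ((b + 1) * (10 * ν - 1)) : ℚ) : ℝ)| ≤
      Real.exp ((10 * (ν : ℝ)) ^ 2 * (((b : ℝ) + 1) ^ 2 * (2 * Real.log (10 * (ν : ℝ)) + a0) -
        ((b : ℝ) + 1) * (5 * h - 13 * ((b : ℝ) + 1)) / 5 * (3 * Real.log 3 - 2 * Real.log 2) + ε)) :=
  AR_u_of OM2 (ARCH_of AND GV PT RR) (CL_of CL1 CL2) DOM ASY R0 b h hb hb2 hh h13 ε hε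

end

end Pool.Agent.H56Z
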