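import Mathlib
import Pool.Agent.H40ZL.P1

/-!
# Logarithms of unipotent elements and the multiplicative Jordan decomposition
-/

set_option autoImplicit false

namespace Pool.Agent.H56Z

open IsNilpotent

section log

variable {k A : Type*} [Field k] [CharZero k] [Ring A] [Algebra k A] [Module ℚ A] [IsScalarTower ℚ k A]

theorem rat_smul_mem (C : Subalgebra k A) (r : ℚ) {x : A} (hx : x ∈ C) : r • x ∈ C := by
  have h : r • x = (r • (1 : k)) • x := by rw [smul_assoc, one_smul]
  rw [h]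
  exact C.smul_mem hx _

theorem exp_mem (C : Subalgebra k A) {x : A} (hx : x ∈ C) : IsNilpotent.exp x ∈ C := by
  unfold IsNilpotent.exp
  exact C.sum_mem fun i _ => rat_smul_mem C _ (C.pow_mem hx i)

omit [CharZero k] [Module ℚ A] [IsScalarTower ℚ k A] in
theorem comm_adjoin (w : A) {x y : A} (hx : x ∈ Algebra.adjoin k {w}) (hy : y ∈ Algebra.adjoin k {w}) :
    Commute x y := by
  have h1 : Commute w x := Algebra.commute_of_mem_adjoin_singleton_of_commute hx (Commute.refl w)
  exact (Algebra.commute_of_mem_adjoin_singleton_of_commute hy h1.symm)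

/-- `exp x = 1 + x + x ^ 2 * T` -/
theorem exp_eq_quad (C : Subalgebra k A) {x : A} (hx : x ∈ C) (hn : IsNilpotent x) :
    ∃ T ∈ C, IsNilpotent.exp x = 1 + x + x ^ 2 * T := by
  obtain ⟨N, hN⟩ := hn
  have h1 : x ^ (N + 2) = 0 := by rw [pow_add, hN, zero_mul]
  refine ⟨∑ i ∈ Finset.range N, (((i + 2).factorial : ℚ))⁻¹ • x ^ i,
    C.sum_mem fun i _ => rat_smul_mem C _ (C.pow_mem hx i), ?_⟩
  rw [IsNilpotent.exp_eq_sum h1, Finset.sum_range_succ', Finset.sum_range_succ', Finset.mul_sum]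
  simp only [Nat.factorial_zero, Nat.cast_one, inv_one, pow_zero, one_smul, zero_add, Nat.factorial_one, pow_one]
  have h2 : ∀ i ∈ Finset.range N, (((i + 1 + 1).factorial : ℚ))⁻¹ • x ^ (i + 1 + 1) =
      x ^ 2 * ((((i + 2).factorial : ℚ))⁻¹ • x ^ i) := by
    intro i _
    have h3 : x ^ (i + 1 + 1) = x ^ 2 * x ^ i := by rw [← pow_add]; congr 1; omega
    have h4 : ∀ (r : ℚ) (a b : A), a * (r • b) = r • (a * b) := by
      intro r a b
      have e1 : ∀ c : A, r • c = (r • (1 : k)) • c := fun c => by rw [smul_assoc, one_smul]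
      rw [e1, e1, mul_smul_comm]
    rw [h3, h4]
  rw [Finset.sum_congr rfl h2]
  abel

/-- every unipotent element is the exponential of a nilpotent polynomial in it -/
theorem log_aux (w : A) (m : ℕ) (hm : w ^ m = 0) : ∀ d j : ℕ, 1 ≤ j → m ≤ j + d → ∀ q ∈ Algebra.adjoin k {w},
    ∃ l ∈ Algebra.adjoin k {w}, IsNilpotent l ∧ IsNilpotent.exp l = 1 + w ^ j * q := by
  have hw : w ∈ Algebra.adjoin k {w} := Algebra.self_mem_adjoin_singleton k w
  have hnw : IsNilpotent w := ⟨m, hm⟩
  intro d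
  induction d with
  | zero =>
    intro j _ hj q _
    refine ⟨0, Subalgebra.zero_mem _, IsNilpotent.zero, ?_⟩
    have h : w ^ j = 0 := pow_eq_zero_of_le (by omega) hm
    rw [IsNilpotent.exp_zero, h, zero_mul, add_zero]
  | succ d ih =>
    intro j h1 hj q hq
    set C := Algebra.adjoin k {w} with hC
    have hv : w ^ j * q ∈ C := C.mul_mem (C.pow_mem hw j) hq
    have hvn : IsNilpotent (w ^ j * q) := by
      have hc : Commute (w ^ j) q := comm_adjoin w (C.pow_mem hw j) hq
      refine hc.isNilpotent_mul_right ?_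
      exact hnw.pow_of_pos (by omega)
    obtain ⟨v, hvdef⟩ : ∃ v, v = w ^ j * q := ⟨_, rfl⟩
    rw [← hvdef] at hv hvn
    obtain ⟨T, hT, hexp⟩ := exp_eq_quad C (C.neg_mem hv) hvn.neg
    have hq' : w ^ (j - 1) * q * q * (T * (1 + v) - 1) ∈ C :=
      C.mul_mem (C.mul_mem (C.mul_mem (C.pow_mem hw _) hq) hq)
        (C.sub_mem (C.mul_mem hT (C.add_mem C.one_mem hv)) C.one_mem)
    obtain ⟨l, hl, hln, hle⟩ := ih (j + 1) (by omega) (by omega) _ hq'
    have hvl : Commute v l := comm_adjoin w hv hl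
    refine ⟨v + l, C.add_mem hv hl, hvl.isNilpotent_add hvn hln, ?_⟩
    rw [IsNilpotent.exp_add_of_commute hvl hvn hln, hle, ← hvdef]
    have e1 : w ^ (j + 1) * (w ^ (j - 1) * q * q * (T * (1 + v) - 1)) = v ^ 2 * (T * (1 + v) - 1) := by
      have e2 : w ^ (j + 1) * w ^ (j - 1) = w ^ j * w ^ j := by
        rw [← pow_add, ← pow_add]; congr 1; omega
      have e3 : Commute (w ^ j) q := comm_adjoin w (C.pow_mem hw j) hq
      calc w ^ (j + 1) * (w ^ (j - 1) * q * q * (T * (1 + v) - 1))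
          = (w ^ (j + 1) * w ^ (j - 1)) * q * q * (T * (1 + v) - 1) := by simp only [mul_assoc]
        _ = w ^ j * (w ^ j * q) * q * (T * (1 + v) - 1) := by rw [e2]; simp only [mul_assoc]
        _ = w ^ j * (q * w ^ j) * q * (T * (1 + v) - 1) := by rw [e3.eq]
        _ = (w ^ j * q) * (w ^ j * q) * (T * (1 + v) - 1) := by simp only [mul_assoc]
        _ = v ^ 2 * (T * (1 + v) - 1) := by rw [← hvdef, sq]
    rw [e1]
    have e4 : 1 + v ^ 2 * (T * (1 + v) - 1) = IsNilpotent.exp (-v) * (1 + v) := by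
      rw [hexp]
      have e5 : (-v) ^ 2 = v ^ 2 := neg_sq v
      rw [e5]
      noncomm_ring
    rw [e4, ← mul_assoc, IsNilpotent.exp_mul_exp_neg_self hvn, one_mul]

theorem exists_log (w : A) (hw : IsNilpotent w) :
    ∃ l ∈ Algebra.adjoin k {w}, IsNilpotent l ∧ IsNilpotent.exp l = 1 + w := by
  obtain ⟨m, hm⟩ := hw
  obtain ⟨l, h1, h2, h3⟩ := log_aux (k := k) w m hm m 1 le_rfl (by omega) 1 (Subalgebra.one_mem _)
  exact ⟨l, h1, h2, by rw [h3, pow_one, mul_one]⟩

include k in
theorem exp_eq_one (a : A) (ha : IsNilpotent a) (h : IsNilpotent.exp a = 1) : a = 0 := by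
  obtain ⟨T, hT, hexp⟩ := exp_eq_quad (Algebra.adjoin k {a}) (Algebra.self_mem_adjoin_singleton k a) ha
  have hc : Commute a T := comm_adjoin a (Algebra.self_mem_adjoin_singleton k a) hT
  have h1 : a * (1 + a * T) = 0 := by
    have h2 : (1 : A) + a + a ^ 2 * T = 1 := by rw [← hexp, h]
    have h3 : a + a ^ 2 * T = 0 := by
      have := congrArg (fun z => z - 1) h2
      simpa [add_assoc] using this
    rw [mul_add, mul_one, ← mul_assoc, ← sq, h3]
  have h4 : IsUnit (1 + a * T) := (hc.isNilpotent_mul_right ha).isUnit_one_add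
  exact (h4.mul_left_eq_zero).1 h1

theorem mem_adjoin_exp (a : A) (ha : IsNilpotent a) : a ∈ Algebra.adjoin k {IsNilpotent.exp a} := by
  obtain ⟨l, h1, h2, h3⟩ := exists_log (k := k) (IsNilpotent.exp a - 1) (isNilpotent_exp_sub_one ha)
  have hsub : Algebra.adjoin k {IsNilpotent.exp a - 1} ≤ Algebra.adjoin k {IsNilpotent.exp a} := by
    rw [Algebra.adjoin_le_iff]
    rintro x rfl
    exact Subalgebra.sub_mem _ (Algebra.self_mem_adjoin_singleton k _) (Subalgebra.one_mem _)
  have hl : l ∈ Algebra.adjoin k {IsNilpotent.exp a} := hsub h1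
  have hea : IsNilpotent.exp a ∈ Algebra.adjoin k {a} := exp_mem _ (Algebra.self_mem_adjoin_singleton k a)
  have hc : Commute a (IsNilpotent.exp a) := comm_adjoin a (Algebra.self_mem_adjoin_singleton k a) hea
  have hcl : Commute a l := (Algebra.commute_of_mem_adjoin_singleton_of_commute hl hc)
  have h4 : IsNilpotent.exp (a - l) = 1 := by
    rw [sub_eq_add_neg, IsNilpotent.exp_add_of_commute hcl.neg_right ha h2.neg]
    have h5 : IsNilpotent.exp l = IsNilpotent.exp a := by rw [h3]; abel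
    rw [← h5, IsNilpotent.exp_mul_exp_neg_self h2]
  have h6 := exp_eq_one (k := k) (a - l) (hcl.isNilpotent_sub ha h2) h4
  have h7 : a = l := sub_eq_zero.1 h6
  rw [h7] at hl ⊢
  rwa [← h7] at hl ⊢

end log

end Pool.Agent.H56Z
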