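import Mathlib
import Pool.Agent.H56Z.Jor
import Pool.Agent.H40ZL.P1

/-!
# The multiplicative Jordan decomposition and conjugation
-/

set_option autoImplicit false

namespace Pool.Agent.H56Z

open Matrix Pool.Agent.H40ZL Pool.Agent.H40ZL.P1

section jordan

variable {k : Type*} [Field k] [CharZero k]

/-- The parts of a commuting product of a semisimple and a unipotent operator are polynomials in it. -/
theorem parts_mem {V : Type*} [AddCommGroup V] [Module k V] [FiniteDimensional k V] (s u : Module.End k V)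
    (hc : Commute s u) (hs : s.IsSemisimple) (hsu : IsUnit s) (hu : IsNilpotent (u - 1)) :
    s ∈ Algebra.adjoin k {s * u} ∧ u ∈ Algebra.adjoin k {s * u} := by
  obtain ⟨n₀, hn₀, s₀, hs₀, hn₀n, hs₀s, h₀⟩ := (s * u).exists_isNilpotent_isSemisimple
  have hcn : Commute (s * (u - 1)) s := by
    have h1 : Commute s (u - 1) := hc.sub_right (Commute.one_right s)
    exact ((Commute.refl s).mul_right h1).symm
  have hn1 : IsNilpotent (s * (u - 1)) := by
    have h1 : Commute s (u - 1) := hc.sub_right (Commute.one_right s)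
    exact h1.isNilpotent_mul_left hu
  have hc0 : Commute n₀ s₀ := comm_adjoin (s * u) hn₀ hs₀
  have hsum : s * (u - 1) + s = n₀ + s₀ := by
    rw [← h₀, mul_sub, mul_one, sub_add_cancel]
  obtain ⟨e1, e2⟩ := Module.End.isNilpotent_isSemisimple_unique hn1 hs hn₀n hs₀s hcn hc0 hsum
  have hsm : s ∈ Algebra.adjoin k {s * u} := by
    have h5 := hs₀
    rwa [← e2] at h5
  refine ⟨hsm, ?_⟩
  let W : Submodule k (Module.End k V) := Subalgebra.toSubmodule (Algebra.adjoin k {s * u})
  have hW : ∀ x ∈ W, LinearMap.mulLeft k s x ∈ W := fun x hx => Subalgebra.mul_mem _ hsm hx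
  have hinj : Function.Injective ((LinearMap.mulLeft k s).restrict hW) := by
    intro a b hab
    have h1 := congrArg Subtype.val hab
    exact Subtype.ext (hsu.mul_left_cancel h1)
  obtain ⟨⟨y, hy⟩, hx⟩ := LinearMap.injective_iff_surjective.1 hinj
    ⟨s * u, Algebra.self_mem_adjoin_singleton k _⟩
  have h2 : s * y = s * u := congrArg Subtype.val hx
  have h3 : y = u := hsu.mul_left_cancel h2
  rw [h3] at hy
  exact hy

variable {n : Type*} [Fintype n] [DecidableEq n]

omit [CharZero k] in
theorem lin_adjoin {g x : Matrix n n k} (h : Matrix.toLinAlgEquiv' x ∈ Algebra.adjoin k {Matrix.toLinAlgEquiv' g}) :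
    x ∈ Algebra.adjoin k {g} := by
  rw [Algebra.adjoin_singleton_eq_range_aeval] at h ⊢
  obtain ⟨P, hP⟩ := h
  refine ⟨P, ?_⟩
  have h1 : Polynomial.aeval (Matrix.toLinAlgEquiv' g) P = Matrix.toLinAlgEquiv' (Polynomial.aeval g P) :=
    Polynomial.aeval_algHom_apply (Matrix.toLinAlgEquiv' : Matrix n n k ≃ₐ[k] _).toAlgHom g P
  have h2 : Matrix.toLinAlgEquiv' (Polynomial.aeval g P) = Matrix.toLinAlgEquiv' x := h1.symm.trans hP
  exact (Matrix.toLinAlgEquiv' : Matrix n n k ≃ₐ[k] _).injective h2

/-- The unipotent part of a matrix is a polynomial in it. -/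
theorem exp_mem_adjoin (s l : Matrix n n k) (hc : Commute s l) (hs : Module.End.IsSemisimple (Matrix.toLin' s))
    (hsu : IsUnit s) (hl : IsNilpotent l) : l ∈ Algebra.adjoin k {s * IsNilpotent.exp l} := by
  have hcu : Commute s (IsNilpotent.exp l) := by
    have h1 : IsNilpotent.exp l ∈ Algebra.adjoin k {l} := exp_mem _ (Algebra.self_mem_adjoin_singleton k l)
    exact (Algebra.commute_of_mem_adjoin_singleton_of_commute h1 hc)
  let Φ := (Matrix.toLinAlgEquiv' : Matrix n n k ≃ₐ[k] _)
  obtain ⟨-, h2⟩ := parts_mem (k := k) (Φ s) (Φ (IsNilpotent.exp l)) (hcu.map Φ) hs (hsu.map Φ) (by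
    have h3 := (IsNilpotent.isNilpotent_exp_sub_one hl).map Φ
    rwa [map_sub, map_one] at h3)
  rw [← map_mul] at h2
  have h4 : IsNilpotent.exp l ∈ Algebra.adjoin k {s * IsNilpotent.exp l} := lin_adjoin h2
  have h5 : Algebra.adjoin k {IsNilpotent.exp l} ≤ Algebra.adjoin k {s * IsNilpotent.exp l} := by
    rw [Algebra.adjoin_le_iff]
    rintro x rfl
    exact h4
  exact h5 (mem_adjoin_exp l hl)

theorem exists_parts (g : Matrix n n k) (hg : IsUnit g) :
    ∃ s ∈ Algebra.adjoin k {g}, ∃ t ∈ Algebra.adjoin k {g}, ∃ l ∈ Algebra.adjoin k {g},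
      Module.End.IsSemisimple (Matrix.toLin' s) ∧ s * t = 1 ∧ IsNilpotent l ∧ g = s * IsNilpotent.exp l := by
  obtain ⟨n₀, hn₀, s₀, hs₀, hnil, hss, hf⟩ :=
    Module.End.exists_isNilpotent_isSemisimple (f := Matrix.toLinAlgEquiv' g)
  obtain ⟨N, rfl⟩ : ∃ N : Matrix n n k, n₀ = Matrix.toLinAlgEquiv' N :=
    ⟨Matrix.toLinAlgEquiv'.symm n₀, (Matrix.toLinAlgEquiv'.apply_symm_apply n₀).symm⟩
  obtain ⟨s, rfl⟩ : ∃ s : Matrix n n k, s₀ = Matrix.toLinAlgEquiv' s :=
    ⟨Matrix.toLinAlgEquiv'.symm s₀, (Matrix.toLinAlgEquiv'.apply_symm_apply s₀).symm⟩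
  have hN : N ∈ Algebra.adjoin k {g} := lin_adjoin hn₀
  have hs : s ∈ Algebra.adjoin k {g} := lin_adjoin hs₀
  have hNn : IsNilpotent N := by
    obtain ⟨m, hm⟩ := hnil
    refine ⟨m, ?_⟩
    rw [← map_pow] at hm
    exact (map_eq_zero_iff _ (Matrix.toLinAlgEquiv' : Matrix n n k ≃ₐ[k] _).injective).1 hm
  have hgns : g = N + s := by
    rw [← map_add] at hf
    exact (Matrix.toLinAlgEquiv' : Matrix n n k ≃ₐ[k] _).injective hf
  have hgN : Commute g N := comm_adjoin g (Algebra.self_mem_adjoin_singleton k g) hN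
  have hsu : IsUnit s := by
    have h1 : s = g + -N := by rw [hgns]; abel
    rw [h1]
    exact hNn.neg.isUnit_add_left_of_commute hg (hgN.neg_right).symm
  obtain ⟨t, ht, hst⟩ : ∃ t ∈ Algebra.adjoin k {g}, s * t = 1 := by
    let W : Submodule k (Matrix n n k) := Subalgebra.toSubmodule (Algebra.adjoin k {g})
    have hW : ∀ x ∈ W, LinearMap.mulLeft k s x ∈ W := fun x hx => Subalgebra.mul_mem _ hs hx
    have hinj : Function.Injective ((LinearMap.mulLeft k s).restrict hW) := by
      intro a b hab
      have h1 := congrArg Subtype.val hab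
      exact Subtype.ext (hsu.mul_left_cancel h1)
    obtain ⟨⟨y, hy⟩, hx⟩ := LinearMap.injective_iff_surjective.1 hinj ⟨1, Subalgebra.one_mem _⟩
    exact ⟨y, hy, congrArg Subtype.val hx⟩
  have hw : t * N ∈ Algebra.adjoin k {g} := Subalgebra.mul_mem _ ht hN
  have hwn : IsNilpotent (t * N) := (comm_adjoin g ht hN).isNilpotent_mul_left hNn
  obtain ⟨l, hl, hln, hle⟩ := exists_log (k := k) (t * N) hwn
  have hsub : Algebra.adjoin k {t * N} ≤ Algebra.adjoin k {g} := by
    rw [Algebra.adjoin_le_iff]
    rintro x rfl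
    exact hw
  refine ⟨s, hs, t, ht, l, hsub hl, hss, hst, hln, ?_⟩
  rw [hle, mul_add, mul_one, ← mul_assoc, hst, one_mul, hgns]
  abel

end jordan

section conj

variable {k : Type*} [Field k] [CharZero k] {n : Type*} [Fintype n] [DecidableEq n]

theorem exp_mulLeft (l : Matrix n n k) (hl : IsNilpotent l) :
    IsNilpotent.exp (LinearMap.mulLeft k l) = LinearMap.mulLeft k (IsNilpotent.exp l) :=
  (IsNilpotent.map_exp hl (Algebra.lmul k (Matrix n n k))).symm

theorem exp_mulRight (l : Matrix n n k) (hl : IsNilpotent l) :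
    IsNilpotent (LinearMap.mulRight k l) ∧
    IsNilpotent.exp (LinearMap.mulRight k l) = LinearMap.mulRight k (IsNilpotent.exp l) := by
  obtain ⟨m, hm⟩ := hl
  have h1 : (LinearMap.mulRight k l) ^ m = 0 := by
    rw [LinearMap.pow_mulRight, hm]
    ext x
    simp
  refine ⟨⟨m, h1⟩, ?_⟩
  rw [IsNilpotent.exp_eq_sum h1, IsNilpotent.exp_eq_sum hm]
  refine LinearMap.ext fun x => ?_
  rw [LinearMap.sum_apply, LinearMap.mulRight_apply, Finset.mul_sum]
  refine Finset.sum_congr rfl fun i _ => ?_
  rw [LinearMap.pow_mulRight]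
  have h4 : ∀ (r : ℚ) (a b : Matrix n n k), a * (r • b) = r • (a * b) := by
    intro r a b
    have e1 : ∀ c : Matrix n n k, r • c = (r • (1 : k)) • c := fun c => by rw [smul_assoc, one_smul]
    rw [e1, e1, mul_smul_comm]
  rw [h4]
  rfl

/-- A subspace stable under conjugation by `σ` is stable under the commutator with the logarithm of the unipotent
part. -/
theorem comm_stable (E : Submodule k (Matrix n n k)) (s t l : Matrix n n k)
    (hs : Module.End.IsSemisimple (Matrix.toLin' s)) (hst : s * t = 1) (hl : IsNilpotent l) (hc : Commute s l)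
    (hE : ∀ x ∈ E, (s * IsNilpotent.exp l) * x * (IsNilpotent.exp (-l) * t) ∈ E) :
    ∀ x ∈ E, l * x - x * l ∈ E := by
  have hts : t * s = 1 := mul_eq_one_comm.1 hst
  have htl : Commute t l := by
    change t * l = l * t
    calc t * l = t * l * (s * t) := by rw [hst, mul_one]
      _ = t * (l * s) * t := by simp only [mul_assoc]
      _ = t * (s * l) * t := by rw [hc.eq]
      _ = (t * s) * l * t := by simp only [mul_assoc]
      _ = l * t := by rw [hts, one_mul]
  -- the operators
  set S : Module.End k (Matrix n n k) := LinearMap.mulLeft k s * LinearMap.mulRight k t with hS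
  have hSs : Module.End.IsSemisimple S :=
    Module.End.IsSemisimple.mul_of_commute (LinearMap.commute_mulLeft_right (R := k) s t) (semi_left hs)
      (semi_right (semi_inv hst hs))
  have hSa : ∀ x, S x = s * x * t := fun x => by
    rw [hS, Module.End.mul_apply, LinearMap.mulRight_apply, LinearMap.mulLeft_apply, mul_assoc]
  set S' : Module.End k (Matrix n n k) := LinearMap.mulLeft k t * LinearMap.mulRight k s with hS'
  have hSa' : ∀ x, S' x = t * x * s := fun x => by
    rw [hS', Module.End.mul_apply, LinearMap.mulRight_apply, LinearMap.mulLeft_apply, mul_assoc]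
  have hSu : IsUnit S := by
    refine ⟨⟨S, S', ?_, ?_⟩, rfl⟩
    · refine LinearMap.ext fun x => ?_
      rw [Module.End.mul_apply, hSa, hSa']
      calc s * (t * x * s) * t = (s * t) * x * (s * t) := by simp only [mul_assoc]
        _ = x := by rw [hst, one_mul, mul_one]
    · refine LinearMap.ext fun x => ?_
      rw [Module.End.mul_apply, hSa, hSa']
      calc t * (s * x * t) * s = (t * s) * x * (t * s) := by simp only [mul_assoc]
        _ = x := by rw [hts, one_mul, mul_one]
  set N : Module.End k (Matrix n n k) := LinearMap.mulLeft k l + LinearMap.mulRight k (-l) with hN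
  have hNa : ∀ x, N x = l * x - x * l := fun x => by
    rw [hN, LinearMap.add_apply, LinearMap.mulRight_apply, LinearMap.mulLeft_apply, mul_neg, sub_eq_add_neg]
  have hLn : IsNilpotent (LinearMap.mulLeft k l) := hl.map (Algebra.lmul k (Matrix n n k))
  obtain ⟨hRn, hRe⟩ := exp_mulRight (-l) hl.neg
  have hLR : Commute (LinearMap.mulLeft k l) (LinearMap.mulRight k (-l)) :=
    LinearMap.commute_mulLeft_right (R := k) l (-l)
  have hNn : IsNilpotent N := hLR.isNilpotent_add hLn hRn
  have hNe : ∀ x, IsNilpotent.exp N x = IsNilpotent.exp l * x * IsNilpotent.exp (-l) := by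
    intro x
    rw [hN, IsNilpotent.exp_add_of_commute hLR hLn hRn, hRe, exp_mulLeft l hl, Module.End.mul_apply,
      LinearMap.mulRight_apply, LinearMap.mulLeft_apply, mul_assoc]
  have hSN : Commute S N := by
    refine LinearMap.ext fun x => ?_
    change S (N x) = N (S x)
    rw [hSa, hSa, hNa, hNa]
    calc s * (l * x - x * l) * t = (s * l) * x * t - s * x * (l * t) := by
          rw [mul_sub, sub_mul]; simp only [mul_assoc]
      _ = (l * s) * x * t - s * x * (t * l) := by rw [hc.eq, htl.eq]
      _ = l * (s * x * t) - s * x * t * l := by simp only [mul_assoc]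
  have hSu' : Commute S (IsNilpotent.exp N) := by
    have h1 : IsNilpotent.exp N ∈ Algebra.adjoin k {N} := exp_mem _ (Algebra.self_mem_adjoin_singleton k N)
    exact Algebra.commute_of_mem_adjoin_singleton_of_commute h1 hSN
  obtain ⟨-, h2⟩ := parts_mem (k := k) S (IsNilpotent.exp N) hSu' hSs hSu (IsNilpotent.isNilpotent_exp_sub_one hNn)
  have h3 : N ∈ Algebra.adjoin k {S * IsNilpotent.exp N} := by
    have h4 : Algebra.adjoin k {IsNilpotent.exp N} ≤ Algebra.adjoin k {S * IsNilpotent.exp N} := by
      rw [Algebra.adjoin_le_iff]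
      rintro x rfl
      exact h2
    exact h4 (mem_adjoin_exp N hNn)
  have hcE : ∀ x ∈ E, (S * IsNilpotent.exp N) x ∈ E := by
    intro x hx
    rw [Module.End.mul_apply, hSa, hNe]
    have := hE x hx
    simpa only [mul_assoc] using this
  -- polynomials in an operator preserve its stable subspaces
  have hpoly : ∀ P ∈ Algebra.adjoin k {S * IsNilpotent.exp N}, ∀ x ∈ E, P x ∈ E := by
    intro P hP
    induction hP using Algebra.adjoin_induction with
    | mem P hP =>
      intro x hx
      rw [Set.mem_singleton_iff] at hP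
      rw [hP]
      exact hcE x hx
    | algebraMap r =>
      intro x hx
      rw [Module.algebraMap_end_apply]
      exact E.smul_mem r hx
    | add P Q _ _ hP hQ =>
      intro x hx
      rw [LinearMap.add_apply]
      exact E.add_mem (hP x hx) (hQ x hx)
    | mul P Q _ _ hP hQ =>
      intro x hx
      rw [Module.End.mul_apply]
      exact hP _ (hQ x hx)
  intro x hx
  have h5 := hpoly N h3 x hx
  rwa [hNa] at h5

end conj

end Pool.Agent.H56Z
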