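import Mathlib
import Pool.Agent.H56Z.Jor2
import Pool.Agent.H40ZL.P1
import Pool.Agent.H40ZL.P2
import Pool.Agent.H40ZL.H3

/-!
# A commuting unipotent correction makes a representation semisimple
-/

set_option autoImplicit false

namespace Pool.Agent.H56Z

open Matrix Pool.Agent.H40ZL Pool.Agent.H40ZL.P1

/-- As `ssimple_insert`, but only the conjugation on the commutant is supposed to be semisimple. -/
theorem ssimple_insert2 {k : Type*} [Field k] [CharZero k] {n : Type*} [Fintype n] [DecidableEq n]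
    (A : Set (Matrix n n k)) (hA : SSimple A) (σ τ : Matrix n n k) (hστ : σ * τ = 1)
    (s t : Matrix n n k) (hst : s * t = 1) (hs : Module.End.IsSemisimple (Matrix.toLin' s))
    (hconj : ∀ p : Matrix n n k, (∀ x ∈ A, x * p = p * x) → σ * p * τ = s * p * t) (h1 : ∀ x ∈ A, σ * x * τ ∈ A) (h2 : ∀ x ∈ A, τ * x * σ ∈ A) :
    SSimple (insert σ A) := by
  have hτσ : τ * σ = 1 := mul_eq_one_comm.1 hστ
  intro W hW
  have hWA : Stable A W := fun x hx v hv => hW x (Set.mem_insert_of_mem _ hx) v hv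
  have hWσ : ∀ v ∈ W, σ *ᵥ v ∈ W := fun v hv => hW σ (Set.mem_insert _ _) v hv
  have hWτ : ∀ v ∈ W, τ *ᵥ v ∈ W := inv_stable hστ W hWσ
  -- the conjugation
  have hc : Module.End.IsSemisimple (LinearMap.mulLeft k s * LinearMap.mulRight k t) :=
    Module.End.IsSemisimple.mul_of_commute (LinearMap.commute_mulLeft_right (R := k) s t) (semi_left hs)
      (semi_right (semi_inv hst hs))
  have hca : ∀ p : Matrix n n k, (∀ x ∈ A, x * p = p * x) →
      (LinearMap.mulLeft k s * LinearMap.mulRight k t) p = σ * p * τ := by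
    intro p hp
    rw [Module.End.mul_apply, LinearMap.mulRight_apply, LinearMap.mulLeft_apply, ← mul_assoc, hconj p hp]
  set c := LinearMap.mulLeft k s * LinearMap.mulRight k t with hcdef
  -- the maps which are zero on W
  let H0 : Submodule k (Matrix n n k) :=
    { carrier := {p | (∀ x ∈ A, x * p = p * x) ∧ (∀ v, p *ᵥ v ∈ W) ∧ ∀ v ∈ W, p *ᵥ v = 0}
      add_mem' := by
        rintro p q ⟨a1, a2, a3⟩ ⟨b1, b2, b3⟩
        refine ⟨fun x hx => by rw [mul_add, add_mul, a1 x hx, b1 x hx], fun v => ?_, fun v hv => ?_⟩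
        · rw [add_mulVec]; exact W.add_mem (a2 v) (b2 v)
        · rw [add_mulVec, a3 v hv, b3 v hv, add_zero]
      zero_mem' := by
        refine ⟨fun x hx => by rw [mul_zero, zero_mul], fun v => ?_, fun v _ => ?_⟩
        · rw [zero_mulVec]; exact W.zero_mem
        · rw [zero_mulVec]
      smul_mem' := by
        rintro r p ⟨a1, a2, a3⟩
        refine ⟨fun x hx => by rw [mul_smul_comm, smul_mul_assoc, a1 x hx], fun v => ?_, fun v hv => ?_⟩
        · rw [smul_mulVec]; exact W.smul_mem _ (a2 v)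
        · rw [smul_mulVec, a3 v hv, smul_zero] }
  have hmem : ∀ p, p ∈ H0 ↔ (∀ x ∈ A, x * p = p * x) ∧ (∀ v, p *ᵥ v ∈ W) ∧ ∀ v ∈ W, p *ᵥ v = 0 := fun p => Iff.rfl
  -- conjugation preserves the commutant
  have hcomm : ∀ p : Matrix n n k, (∀ x ∈ A, x * p = p * x) → ∀ x ∈ A, x * (σ * p * τ) = (σ * p * τ) * x := by
    intro p hp x hx
    have h3 := hp _ (h2 x hx)
    calc x * (σ * p * τ) = (σ * τ) * (x * (σ * p * τ)) := by rw [hστ, one_mul]
      _ = σ * ((τ * x * σ) * p) * τ := by simp only [mul_assoc]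
      _ = σ * (p * (τ * x * σ)) * τ := by rw [h3]
      _ = (σ * p * τ) * x * (σ * τ) := by simp only [mul_assoc]
      _ = (σ * p * τ) * x := by rw [hστ, mul_one]
  have hcW : ∀ p : Matrix n n k, (∀ v, p *ᵥ v ∈ W) → ∀ v, (σ * p * τ) *ᵥ v ∈ W := by
    intro p hp v
    rw [← mulVec_mulVec, ← mulVec_mulVec]
    exact hWσ _ (hp _)
  have hH0c : H0 ≤ H0.comap c := by
    intro p hp
    obtain ⟨a1, a2, a3⟩ := (hmem p).1 hp
    rw [Submodule.mem_comap, hca p a1, hmem]
    refine ⟨hcomm p a1, hcW p a2, fun v hv => ?_⟩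
    rw [← mulVec_mulVec, ← mulVec_mulVec, a3 _ (hWτ v hv), mulVec_zero]
  obtain ⟨q, hq1, hq2⟩ := (Module.End.isSemisimple_iff.1 hc) H0 hH0c
  -- the projection
  obtain ⟨W', hW', hcompl⟩ := hA W hWA
  set pr : (n → k) →ₗ[k] (n → k) := W.subtype ∘ₗ W.projectionOnto W' hcompl with hpr
  have pr1 : ∀ v, pr v ∈ W := fun v => (W.projectionOnto W' hcompl v).2
  have pr2 : ∀ v ∈ W, pr v = v := by
    intro v hv
    have := Submodule.projectionOnto_apply_left hcompl ⟨v, hv⟩
    rw [hpr, LinearMap.comp_apply]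
    rw [this]
    rfl
  have pr3 : ∀ v ∈ W', pr v = 0 := by
    intro v hv
    rw [hpr, LinearMap.comp_apply, (Submodule.projectionOnto_apply_eq_zero_iff hcompl).2 hv, map_zero]
  set p0 : Matrix n n k := LinearMap.toMatrix' pr with hp0
  have p0a : ∀ v, p0 *ᵥ v = pr v := by
    intro v
    rw [hp0, ← Matrix.toLin'_apply, Matrix.toLin'_toMatrix']
  have hp0c : ∀ x ∈ A, x * p0 = p0 * x := by
    intro x hx
    apply (Matrix.toLin' (R := k) (m := n) (n := n)).injective
    refine LinearMap.ext fun v => ?_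
    rw [Matrix.toLin'_apply, Matrix.toLin'_apply, ← mulVec_mulVec, ← mulVec_mulVec, p0a, p0a]
    have hv : v ∈ W ⊔ W' := by rw [hcompl.sup_eq_top]; trivial
    obtain ⟨w, hw, w', hw', rfl⟩ := Submodule.mem_sup.1 hv
    rw [map_add, pr2 w hw, pr3 w' hw', add_zero, mulVec_add, map_add, pr2 _ (hWA x hx w hw), pr3 _ (hW' x hx w' hw'),
      add_zero]
  have hp0m : p0 ∈ H0 ⊔ q := by rw [hq2.sup_eq_top]; trivial
  obtain ⟨h, hh, p1, hp1, hsum⟩ := Submodule.mem_sup.1 hp0m
  obtain ⟨a1, a2, a3⟩ := (hmem h).1 hh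
  have e1 : p1 = p0 - h := by rw [← hsum, add_sub_cancel_left]
  have b1 : ∀ x ∈ A, x * p1 = p1 * x := fun x hx => by rw [e1, mul_sub, sub_mul, hp0c x hx, a1 x hx]
  have b2 : ∀ v, p1 *ᵥ v ∈ W := fun v => by
    rw [e1, sub_mulVec, p0a]
    exact W.sub_mem (pr1 v) (a2 v)
  have b3 : ∀ v ∈ W, p1 *ᵥ v = v := fun v hv => by
    rw [e1, sub_mulVec, p0a, pr2 v hv, a3 v hv, sub_zero]
  have hfix : σ * p1 * τ = p1 := by
    have c1 : c p1 - p1 ∈ q := q.sub_mem (hq1 hp1) hp1
    have c2 : c p1 - p1 ∈ H0 := by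
      rw [hca p1 b1, hmem]
      refine ⟨fun x hx => ?_, fun v => ?_, fun v hv => ?_⟩
      · rw [mul_sub, sub_mul, hcomm p1 b1 x hx, b1 x hx]
      · rw [sub_mulVec]
        exact W.sub_mem (hcW p1 b2 v) (b2 v)
      · rw [sub_mulVec, ← mulVec_mulVec, ← mulVec_mulVec, b3 _ (hWτ v hv), mulVec_mulVec, hστ, one_mulVec, b3 v hv,
          sub_self]
    have c3 := (Submodule.disjoint_def.1 hq2.disjoint) _ c2 c1
    rw [hca p1 b1] at c3
    exact sub_eq_zero.1 c3
  have hfix' : σ * p1 = p1 * σ := by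
    calc σ * p1 = σ * p1 * (τ * σ) := by rw [hτσ, mul_one]
      _ = σ * p1 * τ * σ := by simp only [mul_assoc]
      _ = p1 * σ := by rw [hfix]
  refine ⟨LinearMap.ker (Matrix.toLin' p1), ?_, ?_⟩
  · intro x hx v hv
    rw [LinearMap.mem_ker, Matrix.toLin'_apply] at hv ⊢
    have h3 : x * p1 = p1 * x := by
      rcases hx with rfl | hx
      · exact hfix'
      · exact b1 x hx
    rw [mulVec_mulVec, ← h3, ← mulVec_mulVec, hv, mulVec_zero]
  · constructor
    · rw [Submodule.disjoint_def]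
      intro v hv hv'
      rw [LinearMap.mem_ker, Matrix.toLin'_apply, b3 v hv] at hv'
      exact hv'
    · rw [codisjoint_iff, eq_top_iff]
      intro v _
      rw [Submodule.mem_sup]
      refine ⟨p1 *ᵥ v, b2 v, v - p1 *ᵥ v, ?_, by rw [add_sub_cancel]⟩
      rw [LinearMap.mem_ker, Matrix.toLin'_apply, mulVec_sub, b3 _ (b2 v), sub_self]



section cen

variable {k : Type*} [Field k] {n : Type*} [Fintype n] [DecidableEq n]

/-- The trace form is nondegenerate on the commutant of a semisimple set of matrices. -/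
theorem trace_nondeg [CharZero k] (A : Set (Matrix n n k)) (hA : SSimple A) (x : Matrix n n k)
    (hx : ∀ a ∈ A, a * x = x * a) (h : ∀ y : Matrix n n k, (∀ a ∈ A, a * y = y * a) → Matrix.trace (x * y) = 0) :
    x = 0 := by
  have hK : Stable A (LinearMap.ker (Matrix.toLin' x)) := by
    intro a ha v hv
    rw [LinearMap.mem_ker, Matrix.toLin'_apply] at hv ⊢
    rw [mulVec_mulVec, ← hx a ha, ← mulVec_mulVec, hv, mulVec_zero]
  have hR : Stable A (LinearMap.range (Matrix.toLin' x)) := by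
    rintro a ha _ ⟨v, rfl⟩
    refine ⟨a *ᵥ v, ?_⟩
    rw [Matrix.toLin'_apply, Matrix.toLin'_apply, mulVec_mulVec, ← hx a ha, mulVec_mulVec]
  obtain ⟨C, hC, hKC⟩ := hA _ hK
  obtain ⟨R', hR', hRR'⟩ := hA _ hR
  obtain ⟨p, p1, p2, p3⟩ := P2.proj_of_compl hR hR' hRR'
  have hCx : ∀ c ∈ C, x *ᵥ c ∈ LinearMap.range (Matrix.toLin' x) := fun c _ => ⟨c, Matrix.toLin'_apply x c⟩
  let f : C →ₗ[k] LinearMap.range (Matrix.toLin' x) :=
    ((Matrix.toLin' x).comp C.subtype).codRestrict _ fun c => ⟨c, rfl⟩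
  have hfa : ∀ c : C, ((f c : n → k)) = x *ᵥ (c : n → k) := fun c => by
    change (Matrix.toLin' x) (c : n → k) = _
    rw [Matrix.toLin'_apply]
  have hfi : Function.Injective f := by
    rw [← LinearMap.ker_eq_bot, LinearMap.ker_eq_bot']
    intro c hc
    have h1 : x *ᵥ (c : n → k) = 0 := by rw [← hfa, hc]; rfl
    have h2 : (c : n → k) ∈ LinearMap.ker (Matrix.toLin' x) := by
      rw [LinearMap.mem_ker, Matrix.toLin'_apply, h1]
    exact Subtype.ext ((Submodule.disjoint_def.1 hKC.disjoint) _ h2 c.2)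
  have hfs : Function.Surjective f := by
    rintro ⟨_, v, rfl⟩
    have hv : v ∈ LinearMap.ker (Matrix.toLin' x) ⊔ C := by rw [hKC.sup_eq_top]; trivial
    obtain ⟨w, hw, c, hc, rfl⟩ := Submodule.mem_sup.1 hv
    refine ⟨⟨c, hc⟩, Subtype.ext ?_⟩
    rw [hfa]
    change x *ᵥ c = Matrix.toLin' x (w + c)
    rw [map_add, LinearMap.mem_ker.1 hw, zero_add, Matrix.toLin'_apply]
  let e : C ≃ₗ[k] LinearMap.range (Matrix.toLin' x) := LinearEquiv.ofBijective f ⟨hfi, hfs⟩
  have he : ∀ c : C, e c = f c := fun c => rfl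
  let pr : (n → k) →ₗ[k] LinearMap.range (Matrix.toLin' x) :=
    (Matrix.toLin' p).codRestrict _ fun v => by rw [Matrix.toLin'_apply]; exact p2 v
  have hpr : ∀ v, ((pr v : n → k)) = p *ᵥ v := fun v => by
    change (Matrix.toLin' p) v = _
    rw [Matrix.toLin'_apply]
  let g : (n → k) →ₗ[k] (n → k) := C.subtype ∘ₗ e.symm.toLinearMap ∘ₗ pr
  have hg : ∀ v, g v = ((e.symm (pr v) : C) : n → k) := fun v => rfl
  set y : Matrix n n k := LinearMap.toMatrix' g with hy
  have hya : ∀ v, y *ᵥ v = g v := fun v => by rw [hy, ← Matrix.toLin'_apply, Matrix.toLin'_toMatrix']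
  have hycomm : ∀ a ∈ A, a * y = y * a := by
    intro a ha
    apply (Matrix.toLin' (R := k) (m := n) (n := n)).injective
    refine LinearMap.ext fun v => ?_
    rw [Matrix.toLin'_apply, Matrix.toLin'_apply, ← mulVec_mulVec, ← mulVec_mulVec, hya, hya, hg, hg]
    -- both sides are in `C` with the same image
    have h1 : a *ᵥ ((e.symm (pr v) : C) : n → k) ∈ C := hC a ha _ (e.symm (pr v)).2
    have h2 : e ⟨_, h1⟩ = pr (a *ᵥ v) := by
      apply Subtype.ext
      rw [he, hfa, hpr]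
      change x *ᵥ (a *ᵥ ((e.symm (pr v) : C) : n → k)) = p *ᵥ (a *ᵥ v)
      have r1 : ∀ w, x *ᵥ (a *ᵥ w) = a *ᵥ (x *ᵥ w) := fun w => by
        rw [mulVec_mulVec, ← hx a ha, ← mulVec_mulVec]
      have r2 : p *ᵥ (a *ᵥ v) = a *ᵥ (p *ᵥ v) := by rw [mulVec_mulVec, ← p1 a ha, ← mulVec_mulVec]
      rw [r1, r2, ← hfa, ← hpr, ← he, e.apply_symm_apply]
    have h3 : (⟨_, h1⟩ : C) = e.symm (pr (a *ᵥ v)) := by rw [← h2, e.symm_apply_apply]
    exact congrArg Subtype.val h3
  have hproj : LinearMap.IsProj C (Matrix.toLin' (y * x)) := by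
    constructor
    · intro v
      rw [Matrix.toLin'_apply, ← mulVec_mulVec, hya, hg]
      exact (e.symm _).2
    · intro c hc
      rw [Matrix.toLin'_apply, ← mulVec_mulVec, hya, hg]
      have h1 : pr (x *ᵥ c) = e ⟨c, hc⟩ := by
        apply Subtype.ext
        rw [hpr, he, hfa]
        exact p3 _ (hCx c hc)
      rw [h1, e.symm_apply_apply]
  have htr := hproj.trace
  rw [Matrix.trace_toLin'_eq, Matrix.trace_mul_comm, h y hycomm] at htr
  have hfin : Module.finrank k C = 0 := by exact_mod_cast htr.symm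
  have hCbot : C = ⊥ := Submodule.finrank_eq_zero.1 hfin
  have hKtop : LinearMap.ker (Matrix.toLin' x) = ⊤ := by
    have h1 := hKC.sup_eq_top
    rwa [hCbot, sup_bot_eq] at h1
  have h2 : Matrix.toLin' x = 0 := LinearMap.ker_eq_top.1 hKtop
  exact Matrix.toLin'.injective (by rw [h2, map_zero])

/-- Every functional `tr (l y)` on the commutant is represented by an element of the commutant. -/
theorem exists_rep [CharZero k] (A : Set (Matrix n n k)) (hA : SSimple A) (l : Matrix n n k) :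
    ∃ x : Matrix n n k, (∀ a ∈ A, a * x = x * a) ∧
      ∀ y : Matrix n n k, (∀ a ∈ A, a * y = y * a) → Matrix.trace (x * y) = Matrix.trace (l * y) := by
  let E : Submodule k (Matrix n n k) := Subalgebra.toSubmodule (Subalgebra.centralizer k A)
  have hE : ∀ y, y ∈ E ↔ ∀ a ∈ A, a * y = y * a := fun y => Subalgebra.mem_centralizer_iff k
  let B : Matrix n n k →ₗ[k] Module.Dual k E :=
    LinearMap.mk₂ k (fun x (y : E) => Matrix.trace (x * (y : Matrix n n k)))
      (fun x x' y => by rw [add_mul, Matrix.trace_add])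
      (fun c x y => by rw [smul_mul_assoc, Matrix.trace_smul])
      (fun x y y' => by rw [Submodule.coe_add, mul_add, Matrix.trace_add])
      (fun c x y => by rw [Submodule.coe_smul, mul_smul_comm, Matrix.trace_smul])
  have hB : ∀ x (y : E), B x y = Matrix.trace (x * (y : Matrix n n k)) := fun x y => rfl
  let B' : E →ₗ[k] Module.Dual k E := B.comp E.subtype
  have hi : Function.Injective B' := by
    rw [← LinearMap.ker_eq_bot, LinearMap.ker_eq_bot']
    intro x hx0
    apply Subtype.ext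
    refine trace_nondeg A hA x ((hE _).1 x.2) fun y hy => ?_
    have h1 := LinearMap.congr_fun hx0 ⟨y, (hE y).2 hy⟩
    exact h1
  have hs : Function.Surjective B' :=
    (LinearMap.injective_iff_surjective_of_finrank_eq_finrank (Subspace.dual_finrank_eq).symm).1 hi
  obtain ⟨x, hx⟩ := hs (B l)
  refine ⟨x, (hE _).1 x.2, fun y hy => ?_⟩
  exact LinearMap.congr_fun hx ⟨y, (hE y).2 hy⟩

end cen

end Pool.Agent.H56Z
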