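import Mathlib
import Pool.Agent.H56Z.Cen
import Pool.Agent.H40ZL.H3

/-!
# The commuting nilpotent correction
-/

set_option autoImplicit false

namespace Pool.Agent.H56Z

open Matrix Pool.Agent.H40ZL Pool.Agent.H40ZL.P1 Polynomial

section nilp

variable {k : Type*} [Field k] [CharZero k] {n : Type*} [Fintype n] [DecidableEq n]

theorem nilp_closed {G : Type*} [Field G] [IsAlgClosed G] [CharZero G] (N : Matrix n n G)
    (h : ∀ j : ℕ, Matrix.trace (N ^ (j + 1)) = 0) : IsNilpotent N := by
  obtain ⟨x, μ, hx, hch, htr⟩ := exists_nodes N (nd G N) le_rfl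
  have h1 : (fun l => (μ l : G) * x l) = 0 := by
    refine Matrix.eq_zero_of_forall_pow_sum_mul_pow_eq_zero hx fun i => ?_
    rw [← h i, htr]
    refine Finset.sum_congr rfl fun l _ => ?_
    rw [pow_succ]
    ring
  have h2 : ∀ l, (X - C (x l)) ^ μ l = (X : G[X]) ^ μ l := by
    intro l
    have h3 : (μ l : G) * x l = 0 := congrFun h1 l
    rcases mul_eq_zero.1 h3 with h4 | h4
    · have h5 : μ l = 0 := by exact_mod_cast h4
      rw [h5, pow_zero, pow_zero]
    · rw [h4, map_zero, sub_zero]
  have h6 : N.charpoly = X ^ (∑ l, μ l) := by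
    rw [hch, Finset.prod_congr rfl fun l _ => h2 l, Finset.prod_pow_eq_pow_sum]
  refine ⟨∑ l, μ l, ?_⟩
  have h7 := Matrix.aeval_self_charpoly N
  rwa [h6, map_pow, aeval_X] at h7

theorem nilp_of_trace (N : Matrix n n k) (h : ∀ j : ℕ, Matrix.trace (N ^ (j + 1)) = 0) : IsNilpotent N := by
  have h1 : IsNilpotent ((algebraMap k (AlgebraicClosure k)).mapMatrix N) := by
    refine nilp_closed _ fun j => ?_
    rw [← map_pow, RingHom.mapMatrix_apply, ← AddMonoidHom.map_trace, h j, map_zero]
  obtain ⟨m, hm⟩ := h1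
  refine ⟨m, ?_⟩
  rw [← map_pow] at hm
  have hinj : Function.Injective ((algebraMap k (AlgebraicClosure k)).mapMatrix (m := n)) := by
    intro a b hab
    ext i j
    have h2 := congrFun (congrFun hab i) j
    exact (algebraMap k (AlgebraicClosure k)).injective h2
  exact hinj (by rw [hm, map_zero])

end nilp

section main

variable {k : Type*} [Field k] [CharZero k] {n : Type*} [Fintype n] [DecidableEq n]

/-- **Main lemma.** If a set `A` of matrices acts semisimply and `σ` normalises it, there is a nilpotent `ν` commuting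
with `A` and `σ` such that `A` and `σ exp (-ν)` act semisimply. -/
theorem exists_correction (A : Set (Matrix n n k)) (hA : SSimple A) (σ τ : Matrix n n k) (hστ : σ * τ = 1)
    (h1 : ∀ x ∈ A, σ * x * τ ∈ A) (h2 : ∀ x ∈ A, τ * x * σ ∈ A) :
    ∃ ν : Matrix n n k, IsNilpotent ν ∧ (∀ x ∈ A, x * ν = ν * x) ∧ Commute σ ν ∧
      SSimple (insert (σ * IsNilpotent.exp (-ν)) A) := by
  have hτσ : τ * σ = 1 := mul_eq_one_comm.1 hστ
  obtain ⟨s, hs, t, ht, l, hl, hss, hst, hln, hg⟩ := exists_parts σ ⟨⟨σ, τ, hστ, hτσ⟩, rfl⟩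
  have hts : t * s = 1 := mul_eq_one_comm.1 hst
  have hσl : Commute σ l := comm_adjoin σ (Algebra.self_mem_adjoin_singleton k σ) hl
  have hsl : Commute s l := comm_adjoin σ hs hl
  -- the inverse of `σ`
  have hτ : τ = IsNilpotent.exp (-l) * t := by
    have e1 : σ * (IsNilpotent.exp (-l) * t) = 1 := by
      rw [hg]
      calc s * IsNilpotent.exp l * (IsNilpotent.exp (-l) * t) = s * (IsNilpotent.exp l * IsNilpotent.exp (-l)) * t := by
            simp only [mul_assoc]
        _ = 1 := by rw [IsNilpotent.exp_mul_exp_neg_self hln, mul_one, hst]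
    calc τ = τ * (σ * (IsNilpotent.exp (-l) * t)) := by rw [e1, mul_one]
      _ = _ := by rw [← mul_assoc, hτσ, one_mul]
  -- conjugation preserves the commutant
  have hcomm : ∀ p : Matrix n n k, (∀ x ∈ A, x * p = p * x) → ∀ x ∈ A, x * (σ * p * τ) = (σ * p * τ) * x := by
    intro p hp x hx
    have h3 := hp _ (h2 x hx)
    calc x * (σ * p * τ) = (σ * τ) * (x * (σ * p * τ)) := by rw [hστ, one_mul]
      _ = σ * ((τ * x * σ) * p) * τ := by simp only [mul_assoc]
      _ = σ * (p * (τ * x * σ)) * τ := by rw [h3]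
      _ = (σ * p * τ) * x * (σ * τ) := by simp only [mul_assoc]
      _ = (σ * p * τ) * x := by rw [hστ, mul_one]
  have hcomm' : ∀ p : Matrix n n k, (∀ x ∈ A, x * p = p * x) → ∀ x ∈ A, x * (τ * p * σ) = (τ * p * σ) * x := by
    intro p hp x hx
    have h3 := hp _ (h1 x hx)
    calc x * (τ * p * σ) = (τ * σ) * (x * (τ * p * σ)) := by rw [hτσ, one_mul]
      _ = τ * ((σ * x * τ) * p) * σ := by simp only [mul_assoc]
      _ = τ * (p * (σ * x * τ)) * σ := by rw [h3]
      _ = (τ * p * σ) * x * (τ * σ) := by simp only [mul_assoc]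
      _ = (τ * p * σ) * x := by rw [hτσ, mul_one]
  let E : Submodule k (Matrix n n k) := Subalgebra.toSubmodule (Subalgebra.centralizer k A)
  have hE : ∀ y, y ∈ E ↔ ∀ a ∈ A, a * y = y * a := fun y => Subalgebra.mem_centralizer_iff k
  have hlE : ∀ x ∈ E, l * x - x * l ∈ E := by
    refine comm_stable E s t l hss hst hln hsl fun x hx => ?_
    rw [← hg, ← hτ]
    exact (hE _).2 (hcomm x ((hE x).1 hx))
  obtain ⟨ν, hν, htr⟩ := exists_rep A hA l
  -- products of elements of the commutant
  have hmulE : ∀ x y : Matrix n n k, (∀ a ∈ A, a * x = x * a) → (∀ a ∈ A, a * y = y * a) →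
      ∀ a ∈ A, a * (x * y) = (x * y) * a := by
    intro x y hx hy a ha
    rw [← mul_assoc, hx a ha, mul_assoc, hy a ha, mul_assoc]
  -- `ν` commutes with `σ`
  have hσν : Commute σ ν := by
    have e1 : σ * ν * τ - ν = 0 := by
      refine trace_nondeg A hA _ ?_ fun y hy => ?_
      · intro a ha
        rw [mul_sub, sub_mul, hcomm ν hν a ha, hν a ha]
      · have e2 : Matrix.trace (σ * ν * τ * y) = Matrix.trace (ν * y) := by
          calc Matrix.trace (σ * ν * τ * y) = Matrix.trace (ν * (τ * y * σ)) := by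
                rw [show σ * ν * τ * y = σ * (ν * τ * y) by simp only [mul_assoc], Matrix.trace_mul_comm]
                congr 1
                simp only [mul_assoc]
            _ = Matrix.trace (l * (τ * y * σ)) := htr _ (hcomm' y hy)
            _ = Matrix.trace (σ * (l * τ * y)) := by
                rw [show l * (τ * y * σ) = (l * τ * y) * σ by simp only [mul_assoc], Matrix.trace_mul_comm]
            _ = Matrix.trace (l * y) := by
                rw [show σ * (l * τ * y) = (σ * l) * τ * y by simp only [mul_assoc], hσl.eq,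
                  show l * σ * τ * y = l * (σ * τ) * y by simp only [mul_assoc], hστ, mul_one]
            _ = Matrix.trace (ν * y) := (htr y hy).symm
        rw [sub_mul, Matrix.trace_sub, e2, sub_self]
    have e3 : σ * ν * τ = ν := sub_eq_zero.1 e1
    change σ * ν = ν * σ
    calc σ * ν = σ * ν * τ * σ := by rw [mul_assoc (σ * ν), hτσ, mul_one]
      _ = ν * σ := by rw [e3]
  have hlν : Commute l ν := (Algebra.commute_of_mem_adjoin_singleton_of_commute hl hσν.symm).symm
  -- `ν` is nilpotent
  have hpow : ∀ j : ℕ, ∀ a ∈ A, a * ν ^ j = ν ^ j * a := by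
    intro j
    induction j with
    | zero => intro a _; rw [pow_zero, mul_one, one_mul]
    | succ j ih => rw [pow_succ]; exact hmulE _ _ ih hν
  have hνn : IsNilpotent ν := by
    refine nilp_of_trace ν fun j => ?_
    rw [pow_succ', htr _ (hpow j)]
    have e1 : IsNilpotent (l * ν ^ j) := (hlν.pow_right j).isNilpotent_mul_right hln
    exact (Matrix.isNilpotent_trace_of_isNilpotent e1).eq_zero
  -- `l - ν` commutes with the commutant
  have hcen : ∀ p : Matrix n n k, (∀ x ∈ A, x * p = p * x) → (l - ν) * p = p * (l - ν) := by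
    intro p hp
    have e0 : (l * p - p * l) - (ν * p - p * ν) = 0 := by
      refine trace_nondeg A hA _ ?_ fun y hy => ?_
      · have e1 := (hE _).1 (hlE p ((hE p).2 hp))
        intro a ha
        rw [mul_sub, sub_mul, e1 a ha]
        congr 1
        rw [mul_sub, sub_mul, hmulE ν p hν hp a ha, hmulE p ν hp hν a ha]
      · have e2 : ∀ z : Matrix n n k, Matrix.trace ((z * p - p * z) * y) = Matrix.trace (z * (p * y - y * p)) := by
          intro z
          rw [sub_mul, Matrix.trace_sub, mul_sub, Matrix.trace_sub, mul_assoc z p y]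
          congr 1
          rw [mul_assoc p z y, Matrix.trace_mul_comm p (z * y), mul_assoc]
        have e3 : ∀ a ∈ A, a * (p * y - y * p) = (p * y - y * p) * a := by
          intro a ha
          rw [mul_sub, sub_mul, hmulE p y hp hy a ha, hmulE y p hy hp a ha]
        rw [sub_mul, Matrix.trace_sub, e2, e2, htr _ e3, sub_self]
    have e4 : (l - ν) * p - p * (l - ν) = 0 := by
      rw [← e0]
      noncomm_ring
    exact sub_eq_zero.1 e4
  refine ⟨ν, hνn, hν, hσν, ?_⟩
  have hln' : IsNilpotent (l - ν) := hlν.isNilpotent_sub hln hνn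
  have hexp : IsNilpotent.exp l * IsNilpotent.exp (-ν) = IsNilpotent.exp (l - ν) := by
    rw [sub_eq_add_neg, IsNilpotent.exp_add_of_commute hlν.neg_right hln hνn.neg]
  have hexp' : IsNilpotent.exp ν * IsNilpotent.exp (-l) = IsNilpotent.exp (-(l - ν)) := by
    rw [neg_sub, sub_eq_add_neg, IsNilpotent.exp_add_of_commute hlν.symm.neg_right hνn hln.neg]
  have hexpA : ∀ (c : Matrix n n k), (∀ x ∈ A, x * c = c * x) → ∀ x ∈ A, x * IsNilpotent.exp c = IsNilpotent.exp c * x := by
    intro c hc x hx
    have e1 : IsNilpotent.exp c ∈ Algebra.adjoin k {c} := exp_mem _ (Algebra.self_mem_adjoin_singleton k c)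
    exact (Algebra.commute_of_mem_adjoin_singleton_of_commute e1 (hc x hx)).eq
  have hνA : ∀ x ∈ A, x * IsNilpotent.exp (-ν) = IsNilpotent.exp (-ν) * x :=
    hexpA (-ν) fun x hx => by rw [mul_neg, neg_mul, hν x hx]
  have hνA' : ∀ x ∈ A, x * IsNilpotent.exp ν = IsNilpotent.exp ν * x := hexpA ν hν
  have hee : IsNilpotent.exp (-ν) * IsNilpotent.exp ν = 1 := IsNilpotent.exp_neg_mul_exp_self hνn
  have hee' : IsNilpotent.exp ν * IsNilpotent.exp (-ν) = 1 := IsNilpotent.exp_mul_exp_neg_self hνn
  have hσe : Commute σ (IsNilpotent.exp (-ν)) := by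
    have e1 : IsNilpotent.exp (-ν) ∈ Algebra.adjoin k {-ν} := exp_mem _ (Algebra.self_mem_adjoin_singleton k _)
    exact Algebra.commute_of_mem_adjoin_singleton_of_commute e1 hσν.neg_right
  refine ssimple_insert2 A hA (σ * IsNilpotent.exp (-ν)) (IsNilpotent.exp ν * τ) ?_ s t hst hss ?_ ?_ ?_
  · calc σ * IsNilpotent.exp (-ν) * (IsNilpotent.exp ν * τ) = σ * (IsNilpotent.exp (-ν) * IsNilpotent.exp ν) * τ := by
          simp only [mul_assoc]
      _ = 1 := by rw [hee, mul_one, hστ]
  · intro p hp
    have e1 : σ * IsNilpotent.exp (-ν) = s * IsNilpotent.exp (l - ν) := by rw [hg, mul_assoc, hexp]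
    have e2 : IsNilpotent.exp ν * τ = IsNilpotent.exp (-(l - ν)) * t := by rw [hτ, ← mul_assoc, hexp']
    have e3 : IsNilpotent.exp (l - ν) * p = p * IsNilpotent.exp (l - ν) := by
      have e4 : IsNilpotent.exp (l - ν) ∈ Algebra.adjoin k {l - ν} := exp_mem _ (Algebra.self_mem_adjoin_singleton k _)
      have e5 : Commute p (l - ν) := (hcen p hp).symm
      exact (Algebra.commute_of_mem_adjoin_singleton_of_commute e4 e5).symm.eq
    rw [e1, e2]
    calc s * IsNilpotent.exp (l - ν) * p * (IsNilpotent.exp (-(l - ν)) * t)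
        = s * (IsNilpotent.exp (l - ν) * p) * IsNilpotent.exp (-(l - ν)) * t := by simp only [mul_assoc]
      _ = s * (p * IsNilpotent.exp (l - ν)) * IsNilpotent.exp (-(l - ν)) * t := by rw [e3]
      _ = s * p * (IsNilpotent.exp (l - ν) * IsNilpotent.exp (-(l - ν))) * t := by simp only [mul_assoc]
      _ = s * p * t := by rw [IsNilpotent.exp_mul_exp_neg_self hln', mul_one]
  · intro x hx
    have e1 : σ * IsNilpotent.exp (-ν) * x * (IsNilpotent.exp ν * τ) = σ * x * τ := by
      calc σ * IsNilpotent.exp (-ν) * x * (IsNilpotent.exp ν * τ)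
          = σ * (IsNilpotent.exp (-ν) * x) * IsNilpotent.exp ν * τ := by simp only [mul_assoc]
        _ = σ * (x * IsNilpotent.exp (-ν)) * IsNilpotent.exp ν * τ := by rw [hνA x hx]
        _ = σ * x * (IsNilpotent.exp (-ν) * IsNilpotent.exp ν) * τ := by simp only [mul_assoc]
        _ = σ * x * τ := by rw [hee, mul_one]
    rw [e1]
    exact h1 x hx
  · intro x hx
    have hτe : τ * IsNilpotent.exp (-ν) = IsNilpotent.exp (-ν) * τ := by
      calc τ * IsNilpotent.exp (-ν) = τ * IsNilpotent.exp (-ν) * (σ * τ) := by rw [hστ, mul_one]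
        _ = τ * (IsNilpotent.exp (-ν) * σ) * τ := by simp only [mul_assoc]
        _ = τ * (σ * IsNilpotent.exp (-ν)) * τ := by rw [hσe.eq]
        _ = (τ * σ) * IsNilpotent.exp (-ν) * τ := by simp only [mul_assoc]
        _ = IsNilpotent.exp (-ν) * τ := by rw [hτσ, one_mul]
    have e2 := h2 x hx
    have e1 : IsNilpotent.exp ν * τ * x * (σ * IsNilpotent.exp (-ν)) = τ * x * σ := by
      calc IsNilpotent.exp ν * τ * x * (σ * IsNilpotent.exp (-ν))
          = IsNilpotent.exp ν * ((τ * x * σ) * IsNilpotent.exp (-ν)) := by simp only [mul_assoc]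
        _ = IsNilpotent.exp ν * (IsNilpotent.exp (-ν) * (τ * x * σ)) := by rw [hνA _ e2]
        _ = (IsNilpotent.exp ν * IsNilpotent.exp (-ν)) * (τ * x * σ) := by simp only [mul_assoc]
        _ = τ * x * σ := by rw [hee', one_mul]
    rw [e1]
    exact e2

end main

end Pool.Agent.H56Z
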