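import Mathlib
import Pool.Agent.H56Z.Main
import Pool.Agent.H40ZL.Gen

/-!
# The degree of the minimal polynomial in a semisimple representation
-/

set_option autoImplicit false

namespace Pool.Agent.H56Z

open Matrix Pool.Agent.H40ZL

theorem exists_minor {k : Type*} [Field k] {ι : Type*} {r : ℕ} (f : Fin r → ι → k)
    (hf : LinearIndependent k f) : ∃ J : Fin r → ι, (Matrix.of fun i i' => f i (J i')).det ≠ 0 := by
  classical
  let c : ι → Fin r → k := fun j i => f i j
  have htop : Submodule.span k (Set.range c) = ⊤ := by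
    by_contra hne
    obtain ⟨g, hg0, hg⟩ := Submodule.exists_le_ker_of_lt_top _ (lt_top_iff_ne_top.2 hne)
    apply hg0
    have h1 : ∀ j, ∑ i, f i j * g (Pi.single i 1) = 0 := by
      intro j
      have h2 : g (c j) = 0 := hg (Submodule.subset_span ⟨j, rfl⟩)
      have h3 : c j = ∑ i, f i j • (Pi.single i (1 : k) : Fin r → k) := by
        funext i'
        simp [c, Finset.sum_apply, Pi.single_apply]
      rw [h3, map_sum] at h2
      simpa using h2
    have h4 : ∑ i, g (Pi.single i 1) • f i = 0 := by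
      funext j
      rw [Finset.sum_apply]
      simpa [mul_comm] using h1 j
    have h5 := Fintype.linearIndependent_iff.1 hf _ h4
    apply LinearMap.pi_ext'
    intro i
    ext
    simpa using h5 i
  obtain ⟨g, hg1, hg2, hg3⟩ := Submodule.exists_fun_fin_finrank_span_eq k (Set.range c)
  have hr : Module.finrank k (Submodule.span k (Set.range c)) = r := by
    rw [htop, finrank_top, Module.finrank_fin_fun]
  let e : Fin r ≃ Fin (Module.finrank k (Submodule.span k (Set.range c))) := finCongr hr.symm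
  have h6 : ∀ i, ∃ j, c j = g (e i) := fun i => hg1 (e i)
  choose J hJ using h6
  refine ⟨J, ?_⟩
  have h7 : LinearIndependent k (fun i => g (e i)) := hg3.comp e e.injective
  have h8 : LinearIndependent k (Matrix.of fun i i' => f i (J i')).transpose.row := by
    have h9 : (Matrix.of fun i i' => f i (J i')).transpose.row = fun i => g (e i) := by
      funext i
      rw [← hJ i]
      rfl
    rw [h9]
    exact h7
  have h10 : IsUnit (Matrix.of fun i i' => f i (J i')).transpose :=
    Matrix.linearIndependent_rows_iff_isUnit.1 h8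
  have h11 := (Matrix.isUnit_iff_isUnit_det _).1 h10
  rw [Matrix.det_transpose] at h11
  exact h11.ne_zero

section

variable {k : Type*} [Field k] [CharZero k] {G : Type*} [Field G] [Algebra k G] [IsAlgClosed G]
  {n : Type*} [Fintype n] [DecidableEq n]

/-- the part of `S` where `f` does not vanish -/
def loc (S : Set (Matrix n n k)) (f : MvPolynomial (n × n) k) : Set (Matrix n n k) := {x | x ∈ S ∧ evm x f ≠ 0}

omit [CharZero k] [DecidableEq n] in
theorem tangent_loc (S : Set (Matrix n n k)) (f : MvPolynomial (n × n) k) (X : Matrix n n k) (hX : IsTangent S X) :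
    IsTangent (loc S f) X := by
  intro P hP x hx
  have h1 := hX (f * P) (fun y hy => by
    rw [map_mul]
    by_cases h : evm y f = 0
    · rw [h, zero_mul]
    · rw [hP y ⟨hy, h⟩, mul_zero]) x hx.1
  rw [Derivation.leibniz, map_add, smul_eq_mul, smul_eq_mul, map_mul, map_mul, hP x hx, zero_mul, add_zero] at h1
  exact (mul_eq_zero.1 h1).resolve_left hx.2

theorem hank_deg (N : Matrix n n k) (m : ℕ) (h : nd G N ≤ m) : (hank m N).natDegree ≤ m := by
  have h1 : nd G (N.map (algebraMap k G)) ≤ m := by rw [H456.nd_map]; exact h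
  have : CharZero G := charZero_of_injective_algebraMap (algebraMap k G).injective
  obtain ⟨x, μ, -, -, htr⟩ := exists_nodes (N.map (algebraMap k G)) m h1
  have h2 := hank_eq m (N.map (algebraMap k G)) x (fun l => (μ l : G)) htr
  rw [← hank_map] at h2
  rw [← Polynomial.natDegree_map (algebraMap k G), h2]
  refine (Polynomial.natDegree_C_mul_le _ _).trans ?_
  rw [Polynomial.natDegree_prod_of_monic _ _ fun l _ => Polynomial.monic_X_sub_C (x l)]
  simp

/-- a semisimple matrix with at most `m` distinct eigenvalues satisfies an equation of degree at most `m` -/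
theorem eqn_of_semisimple (N : Matrix n n k) (m : ℕ) (h : nd G N = m)
    (hs : Module.End.IsSemisimple (Matrix.toLin' N)) :
    ∃ P : Polynomial k, P ≠ 0 ∧ P.natDegree ≤ m ∧ Polynomial.aeval N P = 0 := by
  refine ⟨hank m N, (hank_sep (G := G) N m h).ne_zero, hank_deg (G := G) N m h.le, ?_⟩
  obtain ⟨j, hj⟩ := hank_nilp (G := G) N m h.le
  have hsq := hs.minpoly_squarefree
  have htr : ∀ q : Polynomial k, Polynomial.aeval (Matrix.toLin' N) q =
      Matrix.toLin' (Polynomial.aeval N q) := fun q =>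
    Polynomial.aeval_algHom_apply (Matrix.toLinAlgEquiv' (R := k) (n := n)).toAlgHom N q
  have h1 : minpoly k (Matrix.toLin' N) ∣ (hank m N) ^ (j + 1) := by
    refine minpoly.dvd _ _ ?_
    rw [htr, map_pow, pow_succ, hj, zero_mul, map_zero]
  have h2 : minpoly k (Matrix.toLin' N) ∣ hank m N := (hsq.dvd_pow_iff_dvd (Nat.succ_ne_zero j)).1 h1
  have h3 : Polynomial.aeval (Matrix.toLin' N) (hank m N) = 0 := by
    obtain ⟨c, hc⟩ := h2
    rw [hc, map_mul, minpoly.aeval, zero_mul]
  rw [htr] at h3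
  exact Matrix.toLin'.injective (by rw [h3, map_zero])

theorem local_semisimple {Γ : Type*} [Group Γ] (ρ : Γ →* Matrix n n k)
    (hss : SSimple (Set.range ρ)) (D : Subgroup Γ) [hDn : D.Normal] (f : MvPolynomial (n × n) k) (g : Γ) (hg : g ∈ D)
    (hf : evm (ρ g) f ≠ 0) (hmax : ∀ x ∈ D, evm (ρ x) f ≠ 0 → nd G (ρ x) ≤ nd G (ρ g)) :
    Module.End.IsSemisimple (Matrix.toLin' (ρ g)) := by
  have hinv : ∀ x : Γ, ρ x * ρ x⁻¹ = 1 := fun x => by rw [← map_mul, mul_inv_cancel, map_one]
  have hinv' : ∀ x : Γ, ρ x⁻¹ * ρ x = 1 := fun x => by rw [← map_mul, inv_mul_cancel, map_one]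
  have hunit : ∀ x : Γ, IsUnit (ρ x) := fun x => ⟨⟨ρ x, ρ x⁻¹, hinv x, hinv' x⟩, rfl⟩
  obtain ⟨ν, q, hνq, hν, htan, hfin⟩ := exists_tangent (ρ '' (D : Set Γ)) (ρ g) (hunit g) (by
    rintro _ ⟨y, hy, rfl⟩ i
    exact ⟨y * g ^ i, D.mul_mem hy (D.pow_mem hg i), by rw [map_mul, map_pow]⟩)
  apply hfin
  refine nilp_eq_zero (Set.range ρ) hss ?_ (tanS (ρ '' (D : Set Γ))) ?_ ?_ ?_ ν htan hν ?_
  · rintro _ ⟨x, rfl⟩
    exact ⟨ρ x⁻¹, ⟨_, rfl⟩, hinv x⟩
  · intro X hX Y hY
    exact (tangent_add _ X Y hX hY).2.2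
  · rintro _ ⟨a, rfl⟩ _ ⟨b, rfl⟩ hab X hX
    have h1 : ρ b = ρ a⁻¹ := by
      calc ρ b = (ρ a⁻¹ * ρ a) * ρ b := by rw [hinv', one_mul]
        _ = ρ a⁻¹ := by rw [mul_assoc, hab, mul_one]
    refine tangent_conj _ (ρ a) (ρ b) hab ?_ ?_ X hX
    · rintro _ ⟨y, hy, rfl⟩
      exact ⟨a * y * a⁻¹, hDn.conj_mem y hy a, by rw [map_mul, map_mul, h1]⟩
    · rintro _ ⟨y, hy, rfl⟩
      refine ⟨a⁻¹ * y * a, ?_, by rw [map_mul, map_mul, h1]⟩
      have := hDn.conj_mem y hy a⁻¹
      rwa [inv_inv] at this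
  · intro X hX
    have h1 := tangent_mem_span (ρ '' (D : Set Γ)) ⟨1, D.one_mem, map_one ρ⟩ X hX
    exact Submodule.span_mono (Set.image_subset_range ρ _) h1
  · intro X hX
    rw [hνq]
    refine trace_orth (nd G (ρ g)) (loc (ρ '' (D : Set Γ)) f) ?_ X (tangent_loc _ f X hX) (ρ g) ⟨⟨g, hg, rfl⟩, hf⟩
      (hunit g) (hank_sep (G := G) (ρ g) _ rfl) q (hank_dvd (G := G) (ρ g) _ rfl q (by rw [← hνq]; exact hν))
    rintro _ ⟨⟨x, hx, rfl⟩, hfx⟩
    exact hank_nilp (G := G) (ρ x) _ (hmax x hx hfx)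

/-- the polynomial `det ((M ^ j) (e i))` in the entries of `M` -/
noncomputable def minorP {r : ℕ} (e : Fin r → n × n) : MvPolynomial (n × n) k :=
  (Matrix.of fun j i : Fin r => (Matrix.mvPolynomialX n n k ^ (j : ℕ)) (e i).1 (e i).2).det

omit [CharZero k] in
theorem evm_minor {r : ℕ} (e : Fin r → n × n) (x : Matrix n n k) :
    evm x (minorP (k := k) e) = (Matrix.of fun j i : Fin r => (x ^ (j : ℕ)) (e i).1 (e i).2).det := by
  unfold minorP
  have h0 : evm x (Matrix.of fun j i : Fin r => (Matrix.mvPolynomialX n n k ^ (j : ℕ)) (e i).1 (e i).2).det =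
      (evm x : MvPolynomial (n × n) k →+* k)
        (Matrix.of fun j i : Fin r => (Matrix.mvPolynomialX n n k ^ (j : ℕ)) (e i).1 (e i).2).det := rfl
  rw [h0, RingHom.map_det]
  congr 1
  ext j i
  rw [RingHom.mapMatrix_apply, Matrix.map_apply, Matrix.of_apply, Matrix.of_apply]
  have h1 : ((Matrix.mvPolynomialX n n k) ^ (j : ℕ)).map (evm x : MvPolynomial (n × n) k →+* k) = x ^ (j : ℕ) := by
    have h2 := map_pow (evm x : MvPolynomial (n × n) k →+* k).mapMatrix (Matrix.mvPolynomialX n n k) (j : ℕ)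
    rw [RingHom.mapMatrix_apply, RingHom.mapMatrix_apply] at h2
    rw [h2]
    congr 1
    ext a b
    rw [Matrix.map_apply, Matrix.mvPolynomialX_apply]
    change evm x (MvPolynomial.X (a, b)) = x a b
    unfold evm
    rw [MvPolynomial.aeval_X]
  have h3 := congrFun (congrFun h1 (e i).1) (e i).2
  rw [Matrix.map_apply] at h3
  exact h3

omit [CharZero k] in
/-- an equation of degree at most `m` makes the minors vanish -/
theorem minor_zero {m : ℕ} (x : Matrix n n k) (P : Polynomial k) (hP : P ≠ 0) (hd : P.natDegree ≤ m)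
    (h0 : Polynomial.aeval x P = 0) (e : Fin (m + 1) → n × n) : evm x (minorP (k := k) e) = 0 := by
  rw [evm_minor]
  have h1 : (fun j : Fin (m + 1) => P.coeff j) ᵥ* (Matrix.of fun j i : Fin (m + 1) => (x ^ (j : ℕ)) (e i).1 (e i).2) =
      0 := by
    funext i
    rw [Matrix.vecMul, Pi.zero_apply]
    have h2 : Polynomial.aeval x P = ∑ j ∈ Finset.range (m + 1), P.coeff j • x ^ j := by
      rw [Polynomial.aeval_eq_sum_range' (Nat.lt_succ_of_le hd)]
    rw [h0] at h2
    have h3 := congrFun (congrFun h2 (e i).1) (e i).2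
    rw [Matrix.zero_apply, Matrix.sum_apply, Finset.sum_range] at h3
    rw [dotProduct, h3]
    refine Finset.sum_congr rfl fun j _ => ?_
    rw [Matrix.smul_apply, Matrix.of_apply, smul_eq_mul]
  by_contra hne
  have h4 := Matrix.eq_zero_of_vecMul_eq_zero hne h1
  apply hP
  ext j
  rw [Polynomial.coeff_zero]
  by_cases hj : j ≤ m
  · exact congrFun h4 ⟨j, Nat.lt_succ_of_le hj⟩
  · exact Polynomial.coeff_eq_zero_of_natDegree_lt (by omega)

omit [CharZero k] in
theorem eqn_or_minor (m : ℕ) (x : Matrix n n k) :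
    (∃ P : Polynomial k, P ≠ 0 ∧ P.natDegree ≤ m ∧ Polynomial.aeval x P = 0) ∨
    ∃ e : Fin (m + 1) → n × n, evm x (minorP (k := k) e) ≠ 0 := by
  classical
  by_cases h : LinearIndependent k (fun j : Fin (m + 1) => fun p : n × n => (x ^ (j : ℕ)) p.1 p.2)
  · right
    obtain ⟨e, he⟩ := exists_minor _ h
    refine ⟨e, ?_⟩
    rw [evm_minor]
    exact he
  · left
    rw [Fintype.not_linearIndependent_iff] at h
    obtain ⟨c, hc, j0, hj0⟩ := h
    refine ⟨∑ j : Fin (m + 1), Polynomial.C (c j) * Polynomial.X ^ (j : ℕ), ?_, ?_, ?_⟩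
    · intro h0
      have h1 := congrArg (fun P => Polynomial.coeff P (j0 : ℕ)) h0
      simp only [Polynomial.finsetSum_coeff, Polynomial.coeff_C_mul, Polynomial.coeff_X_pow, Polynomial.coeff_zero] at h1
      rw [Finset.sum_eq_single j0] at h1
      · simp at h1
        exact hj0 h1
      · intro b _ hb
        rw [if_neg (fun h2 => hb (Fin.ext h2.symm)), mul_zero]
      · intro h2
        exact absurd (Finset.mem_univ _) h2
    · refine Polynomial.natDegree_sum_le_of_forall_le _ _ fun j _ => ?_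
      exact (Polynomial.natDegree_C_mul_X_pow_le _ _).trans (Nat.lt_succ_iff.1 j.2)
    · rw [map_sum]
      ext a b
      have h1 := congrFun hc (a, b)
      rw [Finset.sum_apply] at h1
      rw [Matrix.sum_apply, Matrix.zero_apply]
      refine Eq.trans (Finset.sum_congr rfl fun j _ => ?_) h1
      rw [map_mul, Polynomial.aeval_C, map_pow, Polynomial.aeval_X, ← Algebra.smul_def, Matrix.smul_apply,
        Pi.smul_apply, smul_eq_mul]

theorem eqn_local {Γ : Type*} [Group Γ] (ρ : Γ →* Matrix n n k)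
    (hss : SSimple (Set.range ρ)) (D : Subgroup Γ) [hDn : D.Normal] : ∀ (M : ℕ) (f : MvPolynomial (n × n) k) (g : Γ),
    g ∈ D → evm (ρ g) f ≠ 0 → (∀ x ∈ D, evm (ρ x) f ≠ 0 → nd G (ρ x) ≤ M) →
    ∃ P : Polynomial k, P ≠ 0 ∧ P.natDegree ≤ M ∧ Polynomial.aeval (ρ g) P = 0 := by
  intro M
  induction M with
  | zero =>
    intro f g hg hf hmax
    have h1 : nd G (ρ g) = 0 := Nat.le_zero.1 (hmax g hg hf)
    exact eqn_of_semisimple (G := G) (ρ g) 0 h1 (local_semisimple (G := G) ρ hss D f g hg hf fun x hx hfx => by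
      rw [h1]; exact hmax x hx hfx)
  | succ M ih =>
    intro f g hg hf hmax
    rcases eqn_or_minor (M + 1) (ρ g) with h | ⟨e, he⟩
    · exact h
    · obtain ⟨P, hP1, hP2, hP3⟩ := ih (f * minorP e) g hg (by
        rw [map_mul]
        exact mul_ne_zero hf he) (by
        intro x hx hfx
        rw [map_mul] at hfx
        have hfx1 : evm (ρ x) f ≠ 0 := left_ne_zero_of_mul hfx
        have hfx2 : evm (ρ x) (minorP (k := k) e) ≠ 0 := right_ne_zero_of_mul hfx
        by_contra hcon
        have h1 : nd G (ρ x) = M + 1 := le_antisymm (hmax x hx hfx1) (by omega)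
        have h2 := local_semisimple (G := G) ρ hss D f x hx hfx1 fun y hy hfy => by
          rw [h1]; exact hmax y hy hfy
        obtain ⟨Q, hQ1, hQ2, hQ3⟩ := eqn_of_semisimple (G := G) (ρ x) (M + 1) h1 h2
        exact hfx2 (minor_zero (ρ x) Q hQ1 hQ2 hQ3 e))
      exact ⟨P, hP1, hP2.trans (Nat.le_succ M), hP3⟩

/-- **All elements.** In a semisimple representation of a group over a field of characteristic zero the minimal
polynomial of every element of a normal subgroup `D` has degree at most the maximal number of distinct eigenvalues of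
the elements of `D`. -/
theorem minpoly_le {Γ : Type*} [Group Γ] (ρ : Γ →* Matrix n n k)
    (hss : SSimple (Set.range ρ)) (D : Subgroup Γ) [hDn : D.Normal] (M : ℕ) (hM : ∀ x ∈ D, nd G (ρ x) ≤ M) (g : Γ)
    (hg : g ∈ D) : (minpoly k (ρ g)).natDegree ≤ M := by
  obtain ⟨P, hP1, hP2, hP3⟩ := eqn_local (G := G) ρ hss D M 1 g hg (by rw [map_one]; exact one_ne_zero)
    fun x hx _ => hM x hx
  exact (Polynomial.natDegree_le_of_dvd (minpoly.dvd _ _ hP3) hP1).trans hP2

end

end Pool.Agent.H56Z
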