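import Pool.Agent.H56Z.Interp
import Pool.Agent.N334.W.LF
import Pool.Agent.TH900.OM.NT

/-!
# Bound of the coefficient functionals at the basis polynomials of the Hermite interpolation
-/

open Polynomial Pool.Agent.H337R2 Pool.Agent.N334.W Pool.Agent.TH900.OM

namespace Pool.Agent.H56Z

noncomputable section

/-- the node `x(t) = t (t + 4n)` -/
def vx (n : ℕ) (t : ℕ) : ℚ := (t : ℚ) * ((t : ℚ) + ((4 * n : ℕ) : ℚ))

lemma vx_strictMono (n : ℕ) : StrictMono (vx n) := by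
  intro t t' h
  unfold vx
  have h1 : (t : ℚ) < t' := by exact_mod_cast h
  have h2 : (0 : ℚ) ≤ t := Nat.cast_nonneg t
  have h3 : (0 : ℚ) ≤ ((4 * n : ℕ) : ℚ) := Nat.cast_nonneg _
  nlinarith

lemma vx_inj (n : ℕ) (S : Set ℕ) : Set.InjOn (vx n) S := (vx_strictMono n).injective.injOn

lemma asc_le (a m : ℕ) : ∏ i ∈ Finset.range m, ((a : ℝ) + i + 1) ≤ (m.factorial : ℝ) * 2 ^ (a + m) := by
  have h1 : ∏ i ∈ Finset.range m, (a + 1 + i) = m.factorial * (a + m).choose m := by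
    rw [← Nat.ascFactorial_eq_prod_range, Nat.ascFactorial_eq_factorial_mul_choose]
  have h2 : ∏ i ∈ Finset.range m, ((a : ℝ) + i + 1) = ((∏ i ∈ Finset.range m, (a + 1 + i) : ℕ) : ℝ) := by
    push_cast
    exact Finset.prod_congr rfl fun i _ => by ring
  rw [h2, h1]
  push_cast
  apply mul_le_mul_of_nonneg_left _ (by positivity)
  exact_mod_cast Nat.choose_le_two_pow (a + m) m

/-- the two linear factors of `x - x(t')` -/
lemma xp_sub (n t' : ℕ) : xp n - C (vx n t') = (X - C (t' : ℚ)) * (X + C ((t' : ℚ) + ((4 * n : ℕ) : ℚ))) := by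
  unfold xp vx
  rw [C_mul, C_add]
  ring

lemma NS_node (h n κ t' : ℕ) (hκ : κ ≤ 3 * n) : NS h (TS (-(κ : ℚ)) (xp n - C (vx n t'))) ≤
    ((κ : ℝ) + t' + 1) * (((4 * n - κ : ℕ) : ℝ) + t' + 1) := by
  rw [xp_sub, map_mul, TS_sub, TS_lin]
  refine (NS_mul _ _ _).trans ?_
  apply mul_le_mul _ _ (NS_nonneg _ _) (by positivity)
  · refine (NS_lin _ _).trans (le_of_eq ?_)
    have h1 : ‖(-(κ : ℚ) - t')‖ = (κ : ℝ) + t' := by
      rw [← Rat.norm_cast_real, Real.norm_eq_abs]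
      push_cast
      rw [show (-(κ : ℝ) - t') = -((κ : ℝ) + t') by ring, abs_neg, abs_of_nonneg (by positivity)]
    rw [h1]
    ring
  · refine (NS_lin _ _).trans (le_of_eq ?_)
    have h1 : ‖(-(κ : ℚ) + ((t' : ℚ) + ((4 * n : ℕ) : ℚ)))‖ = ((4 * n - κ : ℕ) : ℝ) + t' := by
      rw [← Rat.norm_cast_real, Real.norm_eq_abs, Nat.cast_sub (by omega)]
      push_cast
      rw [abs_of_nonneg]
      · ring
      · have h2 : (κ : ℝ) ≤ 3 * n := by exact_mod_cast hκ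
        have h3 : (0 : ℝ) ≤ n := Nat.cast_nonneg n
        have h4 : (0 : ℝ) ≤ t' := Nat.cast_nonneg t'
        linarith
    rw [h1]
    ring

/-- the product of the other nodes near a pole -/
lemma NS_hM (s h n κ t : ℕ) (hκ : κ ≤ 3 * n) :
    NS h (TS (-(κ : ℚ)) ((hM s (2 * n) (vx n) t).comp (xp n))) ≤
      ((((2 * n).factorial : ℝ)) ^ 2 * 2 ^ (8 * n)) ^ s := by
  have e1 : (hM s (2 * n) (vx n) t).comp (xp n) =
      ∏ t' ∈ (Finset.range (2 * n)).erase t, (xp n - C (vx n t')) ^ s := by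
    unfold hM
    rw [Polynomial.prod_comp]
    refine Finset.prod_congr rfl fun t' _ => ?_
    rw [Polynomial.pow_comp, Polynomial.sub_comp, Polynomial.X_comp, Polynomial.C_comp]
  rw [e1, map_prod]
  refine (NS_prod _ _ _).trans ?_
  have e2 : ∏ t' ∈ (Finset.range (2 * n)).erase t, NS h (TS (-(κ : ℚ)) ((xp n - C (vx n t')) ^ s)) ≤
      ∏ t' ∈ (Finset.range (2 * n)).erase t, (((κ : ℝ) + t' + 1) * (((4 * n - κ : ℕ) : ℝ) + t' + 1)) ^ s := by
    refine Finset.prod_le_prod (fun _ _ => NS_nonneg _ _) fun t' _ => ?_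
    rw [map_pow]
    refine (NS_pow _ _ _).trans ?_
    exact pow_le_pow_left₀ (NS_nonneg _ _) (NS_node h n κ t' hκ) s
  refine e2.trans ?_
  have e3 : ∏ t' ∈ (Finset.range (2 * n)).erase t, (((κ : ℝ) + t' + 1) * (((4 * n - κ : ℕ) : ℝ) + t' + 1)) ^ s ≤
      ∏ t' ∈ Finset.range (2 * n), (((κ : ℝ) + t' + 1) * (((4 * n - κ : ℕ) : ℝ) + t' + 1)) ^ s := by
    refine Finset.prod_le_prod_of_subset_of_one_le (Finset.erase_subset _ _) (fun _ _ => by positivity)
      (fun t' _ _ => ?_)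
    have h1 : (0 : ℝ) ≤ κ := Nat.cast_nonneg κ
    have h2 : (0 : ℝ) ≤ t' := Nat.cast_nonneg t'
    have h3 : (0 : ℝ) ≤ ((4 * n - κ : ℕ) : ℝ) := Nat.cast_nonneg _
    apply one_le_pow₀
    nlinarith [mul_nonneg h1 h2, mul_nonneg h3 h2, mul_nonneg h1 h3]
  refine e3.trans ?_
  rw [Finset.prod_pow]
  apply pow_le_pow_left₀ (Finset.prod_nonneg fun _ _ => by positivity)
  rw [Finset.prod_mul_distrib]
  have h1 := asc_le κ (2 * n)
  have h2 := asc_le (4 * n - κ) (2 * n)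
  calc _ ≤ (((2 * n).factorial : ℝ) * 2 ^ (κ + 2 * n)) * (((2 * n).factorial : ℝ) * 2 ^ (4 * n - κ + 2 * n)) :=
        mul_le_mul h1 h2 (Finset.prod_nonneg fun _ _ => by positivity) (by positivity)
    _ = _ := by
        rw [show 8 * n = (κ + 2 * n) + (4 * n - κ + 2 * n) by omega, pow_add 2 (κ + 2 * n)]
        ring

lemma abs_vx_sub (n t t' : ℕ) (hne : t ≠ t') (hn : 1 ≤ n) : ∃ j : ℕ, (t = t' + j + 1 ∨ t' = t + j + 1) ∧
    |vx n t - vx n t'| = (((j + 1) * (t + t' + 4 * n) : ℕ) : ℚ) := by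
  rcases lt_or_gt_of_ne hne with h | h
  · refine ⟨t' - t - 1, Or.inr (by omega), ?_⟩
    obtain ⟨j, rfl⟩ : ∃ j, t' = t + j + 1 := ⟨t' - t - 1, by omega⟩
    rw [show t + j + 1 - t - 1 = j by omega]
    unfold vx
    push_cast
    rw [show (t : ℚ) * (t + 4 * n) - (t + j + 1) * (t + j + 1 + 4 * n) =
      -((j + 1) * (t + (t + j + 1) + 4 * n)) by ring, abs_neg, abs_of_nonneg (by positivity)]
  · refine ⟨t - t' - 1, Or.inl (by omega), ?_⟩
    obtain ⟨j, rfl⟩ : ∃ j, t = t' + j + 1 := ⟨t - t' - 1, by omega⟩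
    rw [show t' + j + 1 - t' - 1 = j by omega]
    unfold vx
    push_cast
    rw [show ((t' : ℚ) + j + 1) * (t' + j + 1 + 4 * n) - t' * (t' + 4 * n) =
      ((j + 1) * (t' + j + 1 + t' + 4 * n)) by ring, abs_of_nonneg (by positivity)]

/-- the factor of the node `t'` in the inverse at the node `t` -/
lemma NS_iv_node (s n t t' j : ℕ) (hn : 1 ≤ n) (hj : |vx n t - vx n t'| = (((j + 1) * (t + t' + 4 * n) : ℕ) : ℚ)) :
    NS s (iv (vx n t - vx n t')) ≤ ((((j + 1 : ℕ) : ℝ) + s) / (((j + 1 : ℕ) : ℝ)) ^ 2) * (1 / (4 * n)) := by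
  have hn0 : (1 : ℝ) ≤ n := by exact_mod_cast hn
  refine (NS_iv s (Nat.mul_pos (Nat.succ_pos j) (by omega)) hj).trans ?_
  obtain ⟨d, hd⟩ : ∃ d : ℝ, d = ((j + 1 : ℕ) : ℝ) := ⟨_, rfl⟩
  obtain ⟨e, he⟩ : ∃ e : ℝ, e = ((t + t' + 4 * n : ℕ) : ℝ) := ⟨_, rfl⟩
  have hd1 : 1 ≤ d := by rw [hd]; push_cast; linarith [(Nat.cast_nonneg j : (0 : ℝ) ≤ j)]
  have he1 : 4 * (n : ℝ) ≤ e := by
    rw [he]
    push_cast
    linarith [(Nat.cast_nonneg t : (0 : ℝ) ≤ t), (Nat.cast_nonneg t' : (0 : ℝ) ≤ t')]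
  rw [Nat.cast_mul, ← hd, ← he]
  have hs : (0 : ℝ) ≤ s := Nat.cast_nonneg s
  have he0 : 1 ≤ e := by linarith
  have h1 : (d * e + s) / (d * e) ^ 2 ≤ (d + s) / d ^ 2 * (1 / e) := by
    rw [div_mul_div_comm, mul_one, div_le_div_iff₀ (by positivity) (by positivity)]
    have h2 : d * e + s ≤ (d + s) * e := by nlinarith
    calc (d * e + s) * (d ^ 2 * e) ≤ (d + s) * e * (d ^ 2 * e) := mul_le_mul_of_nonneg_right h2 (by positivity)
      _ = (d + s) * (d * e) ^ 2 := by ring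
  refine h1.trans ?_
  apply mul_le_mul_of_nonneg_left _ (by positivity)
  exact one_div_le_one_div_of_le (by positivity) he1

/-- the inverse of the product of the other nodes at the node `t` -/
lemma NS_hG (s n t : ℕ) (hn : 1 ≤ n) (ht : t < 2 * n) :
    NS s (hG s (2 * n) (vx n) t) ≤ (((2 * n : ℕ) : ℝ) ^ (2 * s) /
      ((t.factorial : ℝ) * ((2 * n - 1 - t).factorial : ℝ) * (4 * n) ^ (2 * n - 1))) ^ s := by
  have hn0 : (1 : ℝ) ≤ n := by exact_mod_cast hn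
  unfold hG
  refine (NS_prod _ _ _).trans ?_
  have e1 : ∏ t' ∈ (Finset.range (2 * n)).erase t, NS s ((iv (vx n t - vx n t')) ^ s) ≤
      ∏ t' ∈ (Finset.range (2 * n)).erase t, (NS s (iv (vx n t - vx n t'))) ^ s :=
    Finset.prod_le_prod (fun _ _ => NS_nonneg _ _) fun t' _ => NS_pow _ _ _
  refine e1.trans ?_
  rw [Finset.prod_pow]
  apply pow_le_pow_left₀ (Finset.prod_nonneg fun _ _ => NS_nonneg _ _)
  have e2 : (Finset.range (2 * n)).erase t = Finset.range t ∪ Finset.Ico (t + 1) (2 * n) := by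
    ext t'
    simp only [Finset.mem_erase, Finset.mem_range, Finset.mem_union, Finset.mem_Ico]
    omega
  have e3 : Disjoint (Finset.range t) (Finset.Ico (t + 1) (2 * n)) := by
    rw [Finset.disjoint_left]
    intro a h1 h2
    rw [Finset.mem_range] at h1
    rw [Finset.mem_Ico] at h2
    omega
  rw [e2, Finset.prod_union e3, Finset.prod_Ico_eq_prod_range, ← Finset.prod_range_reflect]
  have e4 : ∏ j ∈ Finset.range t, NS s (iv (vx n t - vx n (t - 1 - j))) ≤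
      ∏ j ∈ Finset.range t, (((((j + 1 : ℕ) : ℝ) + s) / (((j + 1 : ℕ) : ℝ)) ^ 2) * (1 / (4 * n))) := by
    refine Finset.prod_le_prod (fun _ _ => NS_nonneg _ _) fun j hj => ?_
    rw [Finset.mem_range] at hj
    obtain ⟨j', h1, h2⟩ := abs_vx_sub n t (t - 1 - j) (by omega) hn
    have : j' = j := by omega
    subst this
    exact NS_iv_node s n t _ _ hn h2
  have e5 : ∏ j ∈ Finset.range (2 * n - (t + 1)), NS s (iv (vx n t - vx n (t + 1 + j))) ≤
      ∏ j ∈ Finset.range (2 * n - (t + 1)), (((((j + 1 : ℕ) : ℝ) + s) / (((j + 1 : ℕ) : ℝ)) ^ 2) * (1 / (4 * n))) := by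
    refine Finset.prod_le_prod (fun _ _ => NS_nonneg _ _) fun j hj => ?_
    rw [Finset.mem_range] at hj
    obtain ⟨j', h1, h2⟩ := abs_vx_sub n t (t + 1 + j) (by omega) hn
    have : j' = j := by omega
    subst this
    exact NS_iv_node s n t _ _ hn h2
  refine (mul_le_mul e4 e5 (Finset.prod_nonneg fun _ _ => NS_nonneg _ _)
    (Finset.prod_nonneg fun _ _ => by positivity)).trans ?_
  rw [Finset.prod_mul_distrib, Finset.prod_mul_distrib, Finset.prod_const, Finset.prod_const, Finset.card_range,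
    Finset.card_range]
  have e6 := half_brick s t
  have e7 := half_brick s (2 * n - (t + 1))
  have e8 : ((t : ℝ) + 1) ^ s ≤ ((2 * n : ℕ) : ℝ) ^ s :=
    pow_le_pow_left₀ (by positivity) (by exact_mod_cast ht) s
  have e9 : (((2 * n - (t + 1) : ℕ) : ℝ) + 1) ^ s ≤ ((2 * n : ℕ) : ℝ) ^ s :=
    pow_le_pow_left₀ (by positivity) (by exact_mod_cast (by omega : 2 * n - (t + 1) + 1 ≤ 2 * n)) s
  obtain ⟨B, hB⟩ : ∃ B : ℝ, B = ((2 * n : ℕ) : ℝ) ^ s := ⟨_, rfl⟩
  rw [← hB] at e8 e9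
  have hB0 : 0 ≤ B := by rw [hB]; positivity
  have e10 : ∏ j ∈ Finset.range t, ((((j + 1 : ℕ) : ℝ) + s) / (((j + 1 : ℕ) : ℝ)) ^ 2) ≤ B / (t.factorial : ℝ) :=
    e6.trans (div_le_div_of_nonneg_right e8 (by positivity))
  have e11 : ∏ j ∈ Finset.range (2 * n - (t + 1)), ((((j + 1 : ℕ) : ℝ) + s) / (((j + 1 : ℕ) : ℝ)) ^ 2) ≤
      B / ((2 * n - (t + 1)).factorial : ℝ) :=
    e7.trans (div_le_div_of_nonneg_right e9 (by positivity))
  have e12 : (1 / (4 * (n : ℝ))) ^ t * (1 / (4 * (n : ℝ))) ^ (2 * n - (t + 1)) = 1 / (4 * (n : ℝ)) ^ (2 * n - 1) := by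
    rw [← pow_add, show t + (2 * n - (t + 1)) = 2 * n - 1 by omega, div_pow, one_pow]
  calc _ = (∏ j ∈ Finset.range t, ((((j + 1 : ℕ) : ℝ) + s) / (((j + 1 : ℕ) : ℝ)) ^ 2)) *
        (∏ j ∈ Finset.range (2 * n - (t + 1)), ((((j + 1 : ℕ) : ℝ) + s) / (((j + 1 : ℕ) : ℝ)) ^ 2)) *
        ((1 / (4 * (n : ℝ))) ^ t * (1 / (4 * (n : ℝ))) ^ (2 * n - (t + 1))) := by ring
    _ ≤ (B / (t.factorial : ℝ)) * (B / ((2 * n - (t + 1)).factorial : ℝ)) * (1 / (4 * (n : ℝ)) ^ (2 * n - 1)) := by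
        rw [e12]
        apply mul_le_mul_of_nonneg_right _ (by positivity)
        exact mul_le_mul e10 e11 (Finset.prod_nonneg fun _ _ => by positivity) (by positivity)
    _ = _ := by
        rw [hB, show 2 * n - (t + 1) = 2 * n - 1 - t by omega, two_mul s, pow_add]
        field_simp

/-- factorials -/
lemma fac_cancel (n t : ℕ) (hn : 1 ≤ n) (ht : t < 2 * n) :
    (((2 * n).factorial : ℝ)) ^ 2 / ((t.factorial : ℝ) * ((2 * n - 1 - t).factorial : ℝ) * (4 * n) ^ (2 * n - 1)) ≤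
      4 * n ^ 2 := by
  have hn0 : (1 : ℝ) ≤ n := by exact_mod_cast hn
  obtain ⟨m, hm⟩ : ∃ m, 2 * n = m + 1 := ⟨2 * n - 1, by omega⟩
  have hm1 : 2 * n - 1 = m := by omega
  have htm : t ≤ m := by omega
  have h1 : ((m.choose t : ℕ) : ℝ) * t.factorial * (m - t).factorial = m.factorial := by
    exact_mod_cast Nat.choose_mul_factorial_mul_factorial htm
  have h2 : ((m.choose t : ℕ) : ℝ) ≤ 2 ^ m := by exact_mod_cast Nat.choose_le_two_pow m t
  have h3 : (((m + 1).factorial : ℕ) : ℝ) = (2 * n) * (m.factorial : ℝ) := by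
    rw [Nat.factorial_succ]
    push_cast
    have : ((m : ℝ) + 1) = 2 * n := by exact_mod_cast hm.symm
    rw [this]
  have h4 : (((m + 1).factorial : ℕ) : ℝ) ≤ (2 * n) * (2 * n) ^ m := by
    rw [h3]
    apply mul_le_mul_of_nonneg_left _ (by positivity)
    have h5 : m.factorial ≤ m ^ m := Nat.factorial_le_pow m
    have h6 : (m.factorial : ℝ) ≤ (m : ℝ) ^ m := by exact_mod_cast h5
    refine h6.trans (pow_le_pow_left₀ (by positivity) ?_ m)
    have : ((m : ℝ) + 1) = 2 * n := by exact_mod_cast hm.symm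
    linarith
  rw [hm1, hm]
  have hpos1 : (0 : ℝ) < (t.factorial : ℝ) := by positivity
  have hpos2 : (0 : ℝ) < ((m - t).factorial : ℝ) := by positivity
  rw [div_le_iff₀ (by positivity)]
  have h7 : (4 * (n : ℝ)) ^ m = 2 ^ m * (2 * n) ^ m := by rw [← mul_pow]; ring
  rw [sq]
  calc (((m + 1).factorial : ℕ) : ℝ) * (((m + 1).factorial : ℕ) : ℝ)
      ≤ ((2 * n) * (m.factorial : ℝ)) * ((2 * n) * (2 * n) ^ m) := by
        apply mul_le_mul (le_of_eq h3) h4 (by positivity) (by positivity)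
    _ = 4 * n ^ 2 * ((((m.choose t : ℕ) : ℝ) * t.factorial * (m - t).factorial) * (2 * n) ^ m) := by
        rw [h1]; ring
    _ ≤ 4 * n ^ 2 * ((2 ^ m * t.factorial * (m - t).factorial) * (2 * n) ^ m) := by
        gcongr
    _ = _ := by rw [h7]; ring

/-- the Taylor series of a basis polynomial at a pole -/
lemma NS_hH (s h n κ t k : ℕ) (hn : 1 ≤ n) (hκ : κ ≤ 3 * n) (ht : t < 2 * n) :
    NS h (TS (-(κ : ℚ)) ((hH s (2 * n) (vx n) t k).comp (xp n))) ≤
      (s * (36 * (n : ℝ) ^ 2) ^ s) * ((((2 * n : ℕ) : ℝ) ^ (2 * s) * (4 * n ^ 2)) * 2 ^ (8 * n)) ^ s := by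
  have hn0 : (1 : ℝ) ≤ n := by exact_mod_cast hn
  unfold hH
  rw [Polynomial.mul_comp, map_mul]
  refine (NS_mul _ _ _).trans ?_
  have h1 := NS_hM s h n κ t hκ
  have h2 := NS_hG s n t hn ht
  obtain ⟨G, hG'⟩ : ∃ G : ℝ, G = (((2 * n : ℕ) : ℝ) ^ (2 * s) /
      ((t.factorial : ℝ) * ((2 * n - 1 - t).factorial : ℝ) * (4 * n) ^ (2 * n - 1))) ^ s := ⟨_, rfl⟩
  rw [← hG'] at h2
  have hG0 : 0 ≤ G := by rw [hG']; positivity
  have h3 : NS h (TS (-(κ : ℚ)) ((∑ l ∈ Finset.range s, if k ≤ l then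
      C (PowerSeries.coeff (l - k) (hG s (2 * n) (vx n) t)) * (X - C (vx n t)) ^ l else (0 : ℚ[X])).comp (xp n))) ≤
      s * (G * (36 * (n : ℝ) ^ 2) ^ s) := by
    rw [Polynomial.sum_comp, map_sum]
    refine (NS_sum _ _ _).trans ?_
    refine (Finset.sum_le_card_nsmul _ _ (G * (36 * (n : ℝ) ^ 2) ^ s) fun l hl => ?_).trans ?_
    · rw [Finset.mem_range] at hl
      split_ifs
      · rw [Polynomial.mul_comp, Polynomial.C_comp, Polynomial.pow_comp, Polynomial.sub_comp, Polynomial.X_comp,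
          Polynomial.C_comp, map_mul, map_pow, TS_C]
        refine (NS_mul _ _ _).trans ?_
        apply mul_le_mul _ _ (NS_nonneg _ _) hG0
        · refine (NS_C _ _).trans ((coeff_le_NS (by omega) _).trans h2)
        · refine (NS_pow _ _ _).trans ?_
          have h4 := NS_node h n κ t hκ
          have h5 : ((κ : ℝ) + t + 1) * (((4 * n - κ : ℕ) : ℝ) + t + 1) ≤ 36 * (n : ℝ) ^ 2 := by
            have a1 : (κ : ℝ) + t + 1 ≤ 6 * n := by exact_mod_cast (by omega : κ + t + 1 ≤ 6 * n)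
            have a2 : ((4 * n - κ : ℕ) : ℝ) + t + 1 ≤ 6 * n := by exact_mod_cast (by omega : 4 * n - κ + t + 1 ≤ 6 * n)
            calc _ ≤ (6 * (n : ℝ)) * (6 * n) := mul_le_mul a1 a2 (by positivity) (by positivity)
              _ = _ := by ring
          refine (pow_le_pow_left₀ (NS_nonneg _ _) (h4.trans h5) l).trans ?_
          exact pow_le_pow_right₀ (by nlinarith) hl.le
      · rw [Polynomial.zero_comp, map_zero, NS_zero]
        positivity
    · rw [Finset.card_range, nsmul_eq_mul]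
  refine (mul_le_mul h3 h1 (NS_nonneg _ _) (by positivity)).trans ?_
  have h6 := fac_cancel n t hn ht
  have h7 : G * ((((2 * n).factorial : ℝ)) ^ 2 * 2 ^ (8 * n)) ^ s ≤
      ((((2 * n : ℕ) : ℝ) ^ (2 * s) * (4 * n ^ 2)) * 2 ^ (8 * n)) ^ s := by
    rw [hG', ← mul_pow]
    apply pow_le_pow_left₀ (by positivity)
    calc _ = ((2 * n : ℕ) : ℝ) ^ (2 * s) * ((((2 * n).factorial : ℝ)) ^ 2 /
          ((t.factorial : ℝ) * ((2 * n - 1 - t).factorial : ℝ) * (4 * n) ^ (2 * n - 1))) * 2 ^ (8 * n) := by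
          ring
      _ ≤ _ := by gcongr
  calc _ = (s * (36 * (n : ℝ) ^ 2) ^ s) * (G * ((((2 * n).factorial : ℝ)) ^ 2 * 2 ^ (8 * n)) ^ s) := by ring
    _ ≤ _ := mul_le_mul_of_nonneg_left h7 (by positivity)

end

end Pool.Agent.H56Z
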