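import Pool.Agent.H337R2.Sym

/-!
# Hermite interpolation with multiplicity `s` at the nodes `v 0, …, v (T-1)`
-/

open Polynomial Pool.Agent.H337R2

namespace Pool.Agent.H56Z

noncomputable section

/-- the product of the other nodes -/
def hM (s T : ℕ) (v : ℕ → ℚ) (t : ℕ) : ℚ[X] := ∏ t' ∈ (Finset.range T).erase t, (X - C (v t')) ^ s

/-- its inverse at the node `v t` -/
def hG (s T : ℕ) (v : ℕ → ℚ) (t : ℕ) : PowerSeries ℚ := ∏ t' ∈ (Finset.range T).erase t, (iv (v t - v t')) ^ s

/-- the basis polynomials -/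
def hH (s T : ℕ) (v : ℕ → ℚ) (t k : ℕ) : ℚ[X] :=
  (∑ l ∈ Finset.range s, if k ≤ l then C (PowerSeries.coeff (l - k) (hG s T v t)) * (X - C (v t)) ^ l else 0) *
    hM s T v t

lemma TS_sub (c a : ℚ) : TS c (X - C a) = PowerSeries.X + PowerSeries.C (c - a) := by
  rw [map_sub, TS_X, TS_C, map_sub]
  ring

lemma TS_hM_mul_hG (s T : ℕ) (v : ℕ → ℚ) (t : ℕ) (hv : ∀ t' ∈ (Finset.range T).erase t, v t ≠ v t') :
    TS (v t) (hM s T v t) * hG s T v t = 1 := by
  unfold hM hG
  rw [map_prod, ← Finset.prod_mul_distrib]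
  apply Finset.prod_eq_one
  intro t' ht'
  rw [map_pow, TS_sub, ← mul_pow, lin_mul_iv (sub_ne_zero.2 (hv t' ht')), one_pow]

lemma coeff_TS (c : ℚ) (P : ℚ[X]) (k : ℕ) : PowerSeries.coeff k (TS c P) = (hasseDeriv k P).eval c := by
  rw [← taylor_coeff]
  simp [TS]

lemma dvd_of_TS (c : ℚ) (P : ℚ[X]) (s : ℕ) (h : (PowerSeries.X : PowerSeries ℚ) ^ s ∣ TS c P) :
    (X - C c) ^ s ∣ P := by
  rw [PowerSeries.X_pow_dvd_iff] at h
  rw [X_sub_C_pow_dvd_iff, X_pow_dvd_iff]
  intro d hd
  have h1 := h d hd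
  rw [coeff_TS, ← taylor_coeff, taylor_apply] at h1
  exact h1

lemma hM_dvd (s T : ℕ) (v : ℕ → ℚ) (t t' : ℕ) (ht : t ∈ Finset.range T) (hne : t' ≠ t) :
    (PowerSeries.X : PowerSeries ℚ) ^ s ∣ TS (v t) (hM s T v t') := by
  unfold hM
  rw [← Finset.mul_prod_erase _ _ (Finset.mem_erase.2 ⟨hne.symm, ht⟩), map_mul, map_pow, TS_sub, sub_self, map_zero,
    add_zero]
  exact dvd_mul_right _ _

/-- Hermite interpolation -/
theorem hermite (s T : ℕ) (v : ℕ → ℚ) (hv : Set.InjOn v (Finset.range T)) (Q : ℚ[X]) (hQ : Q.natDegree < s * T) :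
    Q = ∑ t ∈ Finset.range T, ∑ k ∈ Finset.range s, C ((hasseDeriv k Q).eval (v t)) * hH s T v t k := by
  classical
  obtain ⟨R, hR⟩ : ∃ R, R = ∑ t ∈ Finset.range T, ∑ k ∈ Finset.range s,
    C ((hasseDeriv k Q).eval (v t)) * hH s T v t k := ⟨_, rfl⟩
  rw [← hR]
  have hne : ∀ t ∈ Finset.range T, ∀ t' ∈ (Finset.range T).erase t, v t ≠ v t' := by
    intro t ht t' ht' h
    exact (Finset.mem_erase.1 ht').1 (hv (Finset.mem_coe.2 (Finset.mem_erase.1 ht').2) (Finset.mem_coe.2 ht) h.symm)
  -- the degree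
  have hdM : ∀ t ∈ Finset.range T, (hM s T v t).natDegree ≤ s * (T - 1) := by
    intro t ht
    unfold hM
    refine (natDegree_prod_le _ _).trans ?_
    refine (Finset.sum_le_card_nsmul _ _ s fun t' _ => ?_).trans ?_
    · refine natDegree_pow_le.trans ?_
      rw [natDegree_X_sub_C, mul_one]
    · rw [Finset.card_erase_of_mem ht, Finset.card_range, smul_eq_mul, mul_comm]
  have hdH : ∀ t ∈ Finset.range T, ∀ k, (hH s T v t k).natDegree ≤ s * T - 1 := by
    intro t ht k
    have hT : 1 ≤ T := by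
      rw [Finset.mem_range] at ht
      omega
    have hs : 1 ≤ s := by
      rcases Nat.eq_zero_or_pos s with h | h
      · rw [h, zero_mul] at hQ
        omega
      · exact h
    unfold hH
    refine natDegree_mul_le.trans ?_
    have h1 : (∑ l ∈ Finset.range s, if k ≤ l then C (PowerSeries.coeff (l - k) (hG s T v t)) * (X - C (v t)) ^ l
        else (0 : ℚ[X])).natDegree ≤ s - 1 := by
      refine natDegree_sum_le_of_forall_le _ _ fun l hl => ?_
      rw [Finset.mem_range] at hl
      split_ifs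
      · refine (natDegree_C_mul_le _ _).trans (natDegree_pow_le.trans ?_)
        rw [natDegree_X_sub_C, mul_one]
        omega
      · rw [natDegree_zero]
        exact Nat.zero_le _
    have h2 := hdM t ht
    have h3 : s * T = s * (T - 1) + s := by
      obtain ⟨T', rfl⟩ : ∃ T', T = T' + 1 := ⟨T - 1, by omega⟩
      rw [Nat.add_sub_cancel]
      ring
    omega
  have hdR : R.natDegree ≤ s * T - 1 := by
    rw [hR]
    refine natDegree_sum_le_of_forall_le _ _ fun t ht => natDegree_sum_le_of_forall_le _ _ fun k _ => ?_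
    exact (natDegree_C_mul_le _ _).trans (hdH t ht k)
  -- the divisibility
  have hdvd : ∀ t ∈ Finset.range T, (X - C (v t)) ^ s ∣ Q - R := by
    intro t ht
    apply dvd_of_TS
    have hMG := TS_hM_mul_hG s T v t (hne t ht)
    obtain ⟨A, hA⟩ : ∃ A : PowerSeries ℚ, A = TS (v t) Q * hG s T v t := ⟨_, rfl⟩
    have hAQ : TS (v t) Q = A * TS (v t) (hM s T v t) := by
      rw [hA, mul_assoc, mul_comm (hG s T v t), hMG, mul_one]
    have hRt : R = (∑ k ∈ Finset.range s, C ((hasseDeriv k Q).eval (v t)) * hH s T v t k) +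
        ∑ t' ∈ (Finset.range T).erase t, ∑ k ∈ Finset.range s, C ((hasseDeriv k Q).eval (v t')) * hH s T v t' k := by
      rw [hR]
      exact (Finset.add_sum_erase (Finset.range T)
        (fun t => ∑ k ∈ Finset.range s, C ((hasseDeriv k Q).eval (v t)) * hH s T v t k) ht).symm
    have hrest : (PowerSeries.X : PowerSeries ℚ) ^ s ∣ TS (v t) (∑ t' ∈ (Finset.range T).erase t,
        ∑ k ∈ Finset.range s, C ((hasseDeriv k Q).eval (v t')) * hH s T v t' k) := by
      rw [map_sum]
      refine Finset.dvd_sum fun t' ht' => ?_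
      rw [map_sum]
      refine Finset.dvd_sum fun k _ => ?_
      unfold hH
      rw [map_mul, map_mul]
      exact Dvd.dvd.mul_left (Dvd.dvd.mul_left (hM_dvd s T v t t' ht (Finset.mem_erase.1 ht').1) _) _
    have hmain : TS (v t) (∑ k ∈ Finset.range s, C ((hasseDeriv k Q).eval (v t)) * hH s T v t k) =
        (∑ l ∈ Finset.range s, PowerSeries.C (PowerSeries.coeff l A) * PowerSeries.X ^ l) *
          TS (v t) (hM s T v t) := by
      rw [map_sum, Finset.sum_mul]
      have h1 : ∀ k ∈ Finset.range s, TS (v t) (C ((hasseDeriv k Q).eval (v t)) * hH s T v t k) =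
          ∑ l ∈ Finset.range s, (if k ≤ l then PowerSeries.C ((hasseDeriv k Q).eval (v t) *
            PowerSeries.coeff (l - k) (hG s T v t)) * PowerSeries.X ^ l else 0) * TS (v t) (hM s T v t) := by
        intro k _
        unfold hH
        rw [map_mul, map_mul, map_sum, TS_C, ← mul_assoc, Finset.mul_sum, Finset.sum_mul]
        refine Finset.sum_congr rfl fun l _ => ?_
        split_ifs
        · rw [map_mul, map_pow, TS_sub, TS_C, sub_self, map_zero, add_zero, map_mul]
          ring
        · rw [map_zero, mul_zero, zero_mul]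
      rw [Finset.sum_congr rfl h1, Finset.sum_comm]
      refine Finset.sum_congr rfl fun l hl => ?_
      rw [← Finset.sum_mul]
      congr 1
      rw [Finset.mem_range] at hl
      have h2 : PowerSeries.coeff l A = ∑ k ∈ Finset.range s, if k ≤ l then (hasseDeriv k Q).eval (v t) *
            PowerSeries.coeff (l - k) (hG s T v t) else 0 := by
        rw [hA, PowerSeries.coeff_mul, Finset.Nat.sum_antidiagonal_eq_sum_range_succ
          (fun i j => PowerSeries.coeff i (TS (v t) Q) * PowerSeries.coeff j (hG s T v t)),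
          ← Finset.sum_filter]
        have h3 : (Finset.range s).filter (fun k => k ≤ l) = Finset.range (l + 1) := by
          ext k
          rw [Finset.mem_filter, Finset.mem_range, Finset.mem_range]
          omega
        rw [h3]
        refine Finset.sum_congr rfl fun k _ => ?_
        rw [coeff_TS]
      rw [h2, map_sum, Finset.sum_mul]
      refine Finset.sum_congr rfl fun k _ => ?_
      split_ifs
      · rfl
      · rw [map_zero, zero_mul]
    rw [map_sub, hRt, map_add, hmain, hAQ]
    have h4 : A * TS (v t) (hM s T v t) - ((∑ l ∈ Finset.range s, PowerSeries.C (PowerSeries.coeff l A) *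
        PowerSeries.X ^ l) * TS (v t) (hM s T v t) + TS (v t) (∑ t' ∈ (Finset.range T).erase t,
        ∑ k ∈ Finset.range s, C ((hasseDeriv k Q).eval (v t')) * hH s T v t' k)) =
        (A - ∑ l ∈ Finset.range s, PowerSeries.C (PowerSeries.coeff l A) * PowerSeries.X ^ l) *
          TS (v t) (hM s T v t) - TS (v t) (∑ t' ∈ (Finset.range T).erase t,
        ∑ k ∈ Finset.range s, C ((hasseDeriv k Q).eval (v t')) * hH s T v t' k) := by ring
    rw [h4]
    refine dvd_sub (Dvd.dvd.mul_right ?_ _) hrest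
    rw [PowerSeries.X_pow_dvd_iff]
    intro m hm
    rw [map_sub, map_sum]
    have h5 : ∀ l ∈ Finset.range s, PowerSeries.coeff m (PowerSeries.C (PowerSeries.coeff l A) * PowerSeries.X ^ l) =
        if m = l then PowerSeries.coeff l A else 0 := by
      intro l _
      rw [PowerSeries.coeff_C_mul, PowerSeries.coeff_X_pow]
      split_ifs <;> simp
    rw [Finset.sum_congr rfl h5, Finset.sum_ite_eq, if_pos (Finset.mem_range.2 hm), sub_self]
  have hall : (∏ t ∈ Finset.range T, (X - C (v t)) ^ s) ∣ Q - R := by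
    refine Finset.prod_dvd_of_coprime ?_ hdvd
    intro t ht t' ht' htt
    refine IsCoprime.pow (isCoprime_X_sub_C_of_isUnit_sub ?_)
    rw [isUnit_iff_ne_zero, sub_ne_zero]
    exact fun h => htt (hv ht ht' h)
  by_contra hcon
  have h0 : Q - R ≠ 0 := sub_ne_zero.2 hcon
  have h1 := natDegree_le_of_dvd hall h0
  have h2 : (∏ t ∈ Finset.range T, (X - C (v t)) ^ s).natDegree = s * T := by
    rw [natDegree_prod_of_monic _ _ fun t _ => (monic_X_sub_C _).pow _]
    rw [Finset.sum_congr rfl fun t _ => (monic_X_sub_C (v t)).natDegree_pow s]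
    simp only [natDegree_X_sub_C, mul_one]
    rw [Finset.sum_const, Finset.card_range, smul_eq_mul, mul_comm]
  have h3 : (Q - R).natDegree ≤ max Q.natDegree R.natDegree := natDegree_sub_le _ _
  rw [h2] at h1
  have h4 : (Q - R).natDegree < s * T := lt_of_le_of_lt h3 (max_lt hQ (by omega))
  omega

/-- functionals by their values on the basis polynomials -/
theorem hermite_apply (s T : ℕ) (v : ℕ → ℚ) (hv : Set.InjOn v (Finset.range T)) (Q : ℚ[X])
    (hQ : Q.natDegree < s * T) (L : ℚ[X] →ₗ[ℚ] ℚ) :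
    L Q = ∑ t ∈ Finset.range T, ∑ k ∈ Finset.range s, (hasseDeriv k Q).eval (v t) * L (hH s T v t k) := by
  conv_lhs => rw [hermite s T v hv Q hQ]
  rw [map_sum]
  refine Finset.sum_congr rfl fun t _ => ?_
  rw [map_sum]
  refine Finset.sum_congr rfl fun k _ => ?_
  rw [← smul_eq_C_mul, map_smul, smul_eq_mul]

end

end Pool.Agent.H56Z
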