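import Pool.Agent.N334.W.NUM

/-!
# The final numerical inequality, with a margin
-/

open Filter Topology Pool.Agent.N334.W Pool.Agent.N334.W.NUMaux

namespace Pool.Agent.H56Z

noncomputable section

/-- the final numerical inequality with a margin -/
theorem NUMp (s h : ℕ) (C : ℝ) (hs : 1 ≤ s) (h1 : 13 * s ≤ 5 * h) (h2 : 5 * h ≤ 15 * s) : ∃ J : ℕ, 1 ≤ J ∧
    (s : ℝ) ^ 2 * a0 - (s : ℝ) * (5 * h - 13 * (s : ℝ)) / 5 * (3 * Real.log 3 - 2 * Real.log 2) -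
      2 * (s : ℝ) ^ 2 * Real.log 2 + 2 * (s : ℝ) ^ 2 * Real.log J +
      2 * (s : ℝ) ^ 2 * Real.eulerMascheroniConstant + C / J + e0 s h J + (h : ℝ) * s / 2 <
        -(561 / 10000 * (s : ℝ) ^ 2) := by
  set γ := Real.eulerMascheroniConstant with hγ
  have hγ2 : γ < 2 / 3 := Real.eulerMascheroniConstant_lt_two_thirds
  have hs' : (1 : ℝ) ≤ s := by exact_mod_cast hs
  have h1' : 13 * (s : ℝ) ≤ 5 * h := by exact_mod_cast h1
  have h2' : 5 * (h : ℝ) ≤ 15 * s := by exact_mod_cast h2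
  set κ := 3 * Real.log 3 - 2 * Real.log 2 with hκ
  have hκ1 : 19 / 10 < κ := kappa_gt
  have ha := a0_lt
  have l2a := Real.log_two_gt_d9
  set A : ℝ := (s : ℝ) ^ 2 * a0 - (s : ℝ) * (5 * h - 13 * (s : ℝ)) / 5 * κ -
    2 * (s : ℝ) ^ 2 * Real.log 2 + 2 * (s : ℝ) ^ 2 * γ + (h : ℝ) * s / 2 with hA
  -- the limit is negative
  have hL : A + C * 0 + 2 * (s : ℝ) ^ 2 * (1 - 0) + 2 * h * s * (1 - γ) +
      (h : ℝ) ^ 2 / 2 * (γ - 0 / 2 - 1 / 2) < -(561 / 10000 * (s : ℝ) ^ 2) := by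
    have e1 : A + C * 0 + 2 * (s : ℝ) ^ 2 * (1 - 0) + 2 * h * s * (1 - γ) +
      (h : ℝ) ^ 2 / 2 * (γ - 0 / 2 - 1 / 2) =
      (s : ℝ) ^ 2 * (a0 - 2 * Real.log 2) - (s : ℝ) * (5 * h - 13 * (s : ℝ)) / 5 * κ +
        (h : ℝ) * s / 2 + 2 * (s : ℝ) ^ 2 + 2 * h * s - (h : ℝ) ^ 2 / 4 +
        ((h : ℝ) - 2 * s) ^ 2 / 2 * γ := by
      rw [hA]; ring
    rw [e1]
    have e2 : ((h : ℝ) - 2 * s) ^ 2 / 2 * γ ≤ ((h : ℝ) - 2 * s) ^ 2 / 2 * (2 / 3) :=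
      mul_le_mul_of_nonneg_left hγ2.le (by positivity)
    have e3 : (s : ℝ) * (5 * h - 13 * (s : ℝ)) / 5 * (19 / 10) ≤
        (s : ℝ) * (5 * h - 13 * (s : ℝ)) / 5 * κ := by
      apply mul_le_mul_of_nonneg_left hκ1.le
      have : 0 ≤ 5 * (h : ℝ) - 13 * (s : ℝ) := by linarith
      positivity
    have e4 : (s : ℝ) ^ 2 * (a0 - 2 * Real.log 2) ≤ (s : ℝ) ^ 2 * (-(28 / 5) - 2 * 0.6931) := by
      apply mul_le_mul_of_nonneg_left _ (by positivity)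
      linarith
    have hs2 : (1 : ℝ) ≤ (s : ℝ) ^ 2 := by nlinarith
    -- the convex quadratic
    have e5 : 0 ≤ (5 * (h : ℝ) - 13 * s) * (15 * s - 5 * h) := by
      apply mul_nonneg <;> linarith
    have e6 : 0 ≤ (5 * (h : ℝ) - 13 * s) * s := by
      apply mul_nonneg <;> linarith
    nlinarith
  have hD := tendsto_Hn
  have hE : Tendsto (fun J : ℕ => 1 / (J : ℝ)) atTop (𝓝 0) := tendsto_one_div_atTop_nhds_zero_nat
  have hlim : Tendsto (fun J : ℕ => A + C * (1 / (J : ℝ)) + 2 * (s : ℝ) ^ 2 * (1 - 1 / (J : ℝ)) +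
      2 * h * s * (1 - (Hn J - Real.log J)) +
      (h : ℝ) ^ 2 / 2 * ((Hn J - Real.log J) - (1 / (J : ℝ)) / 2 - 1 / 2)) atTop
      (𝓝 (A + C * 0 + 2 * (s : ℝ) ^ 2 * (1 - 0) + 2 * h * s * (1 - γ) +
      (h : ℝ) ^ 2 / 2 * (γ - 0 / 2 - 1 / 2))) := by
    apply Tendsto.add
    · apply Tendsto.add
      · apply Tendsto.add
        · exact tendsto_const_nhds.add (hE.const_mul C)
        · exact (tendsto_const_nhds.sub hE).const_mul _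
      · exact (tendsto_const_nhds.sub hD).const_mul _
    · exact ((hD.sub (hE.div_const 2)).sub tendsto_const_nhds).const_mul _
  have hev := hlim.eventually (gt_mem_nhds hL)
  obtain ⟨J, hJ, hJ1⟩ := (hev.and (eventually_ge_atTop 1)).exists
  refine ⟨J, hJ1, ?_⟩
  have hfin : (s : ℝ) ^ 2 * a0 - (s : ℝ) * (5 * h - 13 * (s : ℝ)) / 5 * κ -
    2 * (s : ℝ) ^ 2 * Real.log 2 + 2 * (s : ℝ) ^ 2 * Real.log J +
    2 * (s : ℝ) ^ 2 * γ + C / J + e0 s h J + (h : ℝ) * s / 2 =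
    A + C * (1 / (J : ℝ)) + 2 * (s : ℝ) ^ 2 * (1 - 1 / (J : ℝ)) +
      2 * h * s * (1 - (Hn J - Real.log J)) +
      (h : ℝ) ^ 2 / 2 * ((Hn J - Real.log J) - (1 / (J : ℝ)) / 2 - 1 / 2) := by
    unfold e0
    rw [Hn_pred hJ1, hA]
    ring
  rw [hfin]
  exact hJ

end

end Pool.Agent.H56Z
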