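import Pool.Agent.N334.W.NV

/-!
# Non-vanishing of the determinants for denominators divisible by a small power of `2n+1`

The proof of `Pool.Agent.N334.W.NV_of`, with the power of `2n+1` in the denominator taken into account.
-/

open Polynomial Pool.Agent.H337R2 Pool.Agent.N334.W

namespace Pool.Agent.H56Z

noncomputable section

/-- triangular descent -/
lemma nv_descent' {p : ℕ} [hp : Fact p.Prime] {b h : ℕ} (v : ℕ) (ω : ℕ → ℚ) (w : ℕ → ℤ)
    (h1 : ∀ k, k ≤ b → padicNorm p (ω k) ≤ (p : ℚ) ^ (h + b - k))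
    (h2 : padicNorm p (ω b) = (p : ℚ) ^ h)
    (h3 : ∀ a i, a + i = b → padicNorm p (∑ j ∈ Finset.range (i + 1), ω (a + j) * (w j : ℚ)) ≤ (p : ℚ) ^ v) :
    ∀ i, i ≤ b → padicNorm p (w i : ℚ) * (p : ℚ) ^ h ≤ (p : ℚ) ^ (i + v) := by
  have hp1 : (1 : ℚ) ≤ p := by exact_mod_cast hp.out.one_lt.le
  have hp0 : (0 : ℚ) < p := by linarith
  intro i
  induction i using Nat.strong_induction_on with
  | _ i ih =>
    intro hi
    have h4 := h3 (b - i) i (by omega)
    rw [Finset.sum_range_succ, show b - i + i = b by omega] at h4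
    have h5 : padicNorm p (∑ j ∈ Finset.range i, ω (b - i + j) * (w j : ℚ)) ≤ (p : ℚ) ^ (i + v) := by
      refine padicNorm.sum_le' (fun j hj => ?_) (by positivity)
      have hj' : j < i := Finset.mem_range.1 hj
      rw [padicNorm.mul]
      have h6 := h1 (b - i + j) (by omega)
      have h7 := ih j hj' (by omega)
      have e : h + b - (b - i + j) = (i - j) + h := by omega
      rw [e, pow_add] at h6
      calc padicNorm p (ω (b - i + j)) * padicNorm p (w j : ℚ)
          ≤ ((p : ℚ) ^ (i - j) * (p : ℚ) ^ h) * padicNorm p (w j : ℚ) :=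
            mul_le_mul_of_nonneg_right h6 (padicNorm.nonneg _)
        _ = (p : ℚ) ^ (i - j) * (padicNorm p (w j : ℚ) * (p : ℚ) ^ h) := by ring
        _ ≤ (p : ℚ) ^ (i - j) * (p : ℚ) ^ (j + v) := mul_le_mul_of_nonneg_left h7 (by positivity)
        _ = (p : ℚ) ^ (i + v) := by rw [← pow_add]; congr 1; omega
    have h8 : ω b * (w i : ℚ) = (∑ j ∈ Finset.range i, ω (b - i + j) * (w j : ℚ) + ω b * (w i : ℚ)) -
        ∑ j ∈ Finset.range i, ω (b - i + j) * (w j : ℚ) := by ring
    have h9 : padicNorm p (ω b * (w i : ℚ)) ≤ (p : ℚ) ^ (i + v) := by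
      rw [h8]
      refine padicNorm.sub.trans (max_le (h4.trans (pow_le_pow_right₀ hp1 (by omega))) h5)
    rw [padicNorm.mul, h2, mul_comm] at h9
    exact h9

/-- non-vanishing, also if `q` is divisible by a small power of `2n+1` -/
theorem NVp (b h n q : ℕ) (u : ℕ → ℚ) (hb : Even b) (hh : 2 * (b + 1) ≤ h) (hp : (2 * n + 1).Prime)
    (hq : ¬ (2 * n + 1) ^ (h - b) ∣ q) (hu : UInt q u) : DET b h n u ((b + 1) * (n - 1)) ≠ 0 := by
  intro hdet
  have hRED : S_RED := RED_of OM1
  have hOMP : S_OMP := OMP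
  have hpF : Fact (2 * n + 1).Prime := ⟨hp⟩
  set p : ℕ := 2 * n + 1 with hpdef
  have hn1 : 1 ≤ n := by
    by_contra hcon
    have : n = 0 := by omega
    subst this
    exact Nat.not_prime_one hp
  obtain ⟨P, hprim, hdeg, hker⟩ := nv_kernel (NL b h n u) ((b + 1) * (n - 1)) hdet
  have hn2 : 2 ≤ n := by
    by_contra hcon
    have : n = 1 := by omega
    subst this
    simp at hdeg
  obtain ⟨N, hN⟩ : ∃ N, n = N + 2 := ⟨n - 2, by omega⟩
  have hNn : n - 1 = N + 1 := by omega
  set φ : ℤ →+* ZMod p := Int.castRingHom (ZMod p) with hφ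
  obtain ⟨v, hvd⟩ : ∃ v, v = padicValNat p q := ⟨_, rfl⟩
  have hq0 : q ≠ 0 := hu.1.ne'
  have hv : v < h - b := by
    by_contra h1
    exact hq ((padicValNat_dvd_iff_le hq0).2 (by omega))
  have hqn : padicNorm p (q : ℚ) = ((p : ℚ) ^ v)⁻¹ := by
    rw [padicNorm.eq_zpow_of_nonzero (by exact_mod_cast hq0), padicValRat.of_nat, ← hvd, zpow_neg, zpow_natCast]
  -- the local statement
  have hloc : ∀ c0 ∈ Finset.Icc 1 (n - 1),
      (X - C ((nvx n c0 : ℤ) : ZMod p)) ^ (b + 1) ∣ P.map φ := by
    intro c0 hc0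
    have hc0' := Finset.mem_Icc.1 hc0
    obtain ⟨hO1, hO2⟩ := hOMP b h n p c0 hn1 hp (by omega) hc0'.1 (by omega)
    have hGdeg : (nvG b n c0).natDegree ≤ (b + 1) * N := by
      unfold nvG
      refine (natDegree_prod_le _ _).trans ?_
      have hcard : ((Finset.Icc 1 (n - 1)).erase c0).card = N := by
        rw [Finset.card_erase_of_mem hc0, Nat.card_Icc]
        omega
      calc ∑ c ∈ (Finset.Icc 1 (n - 1)).erase c0, ((X - C (nvx n c)) ^ (b + 1)).natDegree
          ≤ ∑ _c ∈ (Finset.Icc 1 (n - 1)).erase c0, (b + 1) := by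
            refine Finset.sum_le_sum fun c _ => natDegree_pow_le.trans (le_of_eq ?_)
            rw [natDegree_X_sub_C, mul_one]
        _ = (b + 1) * N := by rw [Finset.sum_const, hcard, smul_eq_mul, mul_comm]
    set W : ℤ[X] := taylor (nvx n c0) (P * nvG b n c0) with hW
    have hdesc := nv_descent' (p := p) (b := b) (h := h) v (fun k => om b h n (-(c0 : ℚ)) k)
      (fun i => W.coeff i) hO1 hO2 (by
        intro a i hai
        have hQdeg : ((X - C (nvx n c0)) ^ a * nvG b n c0).natDegree < (b + 1) * (n - 1) := by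
          refine lt_of_le_of_lt natDegree_mul_le ?_
          have h1 : ((X - C (nvx n c0)) ^ a).natDegree ≤ a := natDegree_pow_le.trans (by
            rw [natDegree_X_sub_C, mul_one])
          have h2 : (b + 1) * (n - 1) = (b + 1) * N + (b + 1) := by rw [hNn]; ring
          omega
        have hk := hker _ hQdeg
        have hF : 2 * (P * ((X - C (nvx n c0)) ^ a * nvG b n c0)).natDegree + 1 <
            h * (2 * n + 1) := by
          have h1 : (P * ((X - C (nvx n c0)) ^ a * nvG b n c0)).natDegree ≤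
              P.natDegree + ((X - C (nvx n c0)) ^ a * nvG b n c0).natDegree := natDegree_mul_le
          have h2 : 2 * (b + 1) * (2 * n + 1) ≤ h * (2 * n + 1) := Nat.mul_le_mul_right _ hh
          have h3 : 4 * ((b + 1) * (n - 1)) < 2 * (b + 1) * (2 * n + 1) := by
            rw [hNn, hN]
            nlinarith
          omega
        have hr := hRED b h n q p u _ hb hn1 hp (by omega) hu hF
        have hpv : (0 : ℚ) < (p : ℚ) ^ v := by
          have : (0 : ℚ) < p := by exact_mod_cast hp.pos
          positivity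
        rw [hk, zero_add, padicNorm.mul, hqn, inv_mul_le_iff₀ hpv, mul_one] at hr
        have hp3 : 3 * n - p = n - 1 := by omega
        rw [hp3, Finset.sum_eq_single_of_mem c0 hc0] at hr
        · have e : ∑ k ∈ Finset.range (b + 1), om b h n (-(c0 : ℚ)) k *
              (hasseDeriv k ((P * ((X - C (nvx n c0)) ^ a * nvG b n c0)).map
                (Int.castRingHom ℚ))).eval (-(c0 : ℚ) * (-(c0 : ℚ) + ((4 * n : ℕ) : ℚ))) =
              ∑ j ∈ Finset.range (i + 1), om b h n (-(c0 : ℚ)) (a + j) * (W.coeff j : ℚ) := by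
            have hb1 : b + 1 = a + (i + 1) := by omega
            have hT : ∀ k, (taylor (nvx n c0) (P * ((X - C (nvx n c0)) ^ a * nvG b n c0))).coeff k =
                if a ≤ k then W.coeff (k - a) else 0 := by
              intro k
              have e2 : P * ((X - C (nvx n c0)) ^ a * nvG b n c0) =
                  (X - C (nvx n c0)) ^ a * (P * nvG b n c0) := by ring
              rw [e2, taylor_mul, taylor_pow]
              have e3 : taylor (nvx n c0) (X - C (nvx n c0)) = X := by
                rw [map_sub, taylor_X, taylor_C, add_sub_cancel_right]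
              rw [e3, coeff_X_pow_mul']
            rw [hb1, Finset.sum_range_add, Finset.sum_eq_zero, zero_add]
            · refine Finset.sum_congr rfl fun j _ => ?_
              rw [nvx_eval, hT, if_pos (Nat.le_add_right a j), Nat.add_sub_cancel_left]
            · intro k hk
              rw [nvx_eval, hT, if_neg (by have := Finset.mem_range.1 hk; omega)]
              simp
          rw [e] at hr
          exact hr
        · intro c hc hcne
          refine Finset.sum_eq_zero fun k hk => ?_
          have hdvd : (X - C (nvx n c)) ^ (b + 1) ∣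
              P * ((X - C (nvx n c0)) ^ a * nvG b n c0) := by
            refine Dvd.dvd.mul_left (Dvd.dvd.mul_left ?_ _) _
            exact Finset.dvd_prod_of_mem _ (Finset.mem_erase.2 ⟨hcne, hc⟩)
          obtain ⟨H, hH⟩ := hdvd
          rw [nvx_eval, hH, taylor_mul, taylor_pow]
          have e3 : taylor (nvx n c) (X - C (nvx n c)) = X := by
            rw [map_sub, taylor_X, taylor_C, add_sub_cancel_right]
          rw [e3, coeff_X_pow_mul', if_neg (by have := Finset.mem_range.1 hk; omega)]
          simp)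
    have hWp : ∀ i < b + 1, (W.map φ).coeff i = 0 := by
      intro i hi
      have h1 := hdesc i (by omega)
      rw [coeff_map]
      change ((W.coeff i : ℤ) : ZMod p) = 0
      rw [ZMod.intCast_zmod_eq_zero_iff_dvd, ← padicNorm.int_lt_one_iff]
      have hpp : (1 : ℚ) < p := by exact_mod_cast hp.one_lt
      have h2 : (p : ℚ) ^ (i + v) < (p : ℚ) ^ h := pow_lt_pow_right₀ hpp (by omega)
      have h3 : (0 : ℚ) < (p : ℚ) ^ h := by positivity
      by_contra hcon
      push Not at hcon
      have h4 : (p : ℚ) ^ h ≤ padicNorm p ((W.coeff i : ℤ) : ℚ) * (p : ℚ) ^ h :=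
        le_mul_of_one_le_left h3.le hcon
      linarith
    have hX := X_pow_dvd_iff.2 hWp
    rw [hW, map_taylor, taylor_apply, ← X_sub_C_pow_dvd_iff, Polynomial.map_mul] at hX
    refine IsCoprime.dvd_of_dvd_mul_right ?_ hX
    unfold nvG
    rw [Polynomial.map_prod]
    refine IsCoprime.prod_right fun c hc => ?_
    rw [Polynomial.map_pow, Polynomial.map_sub, Polynomial.map_X, Polynomial.map_C]
    refine IsCoprime.pow (isCoprime_X_sub_C_of_isUnit_sub ?_)
    rw [isUnit_iff_ne_zero, sub_ne_zero]
    have hc1 := Finset.mem_erase.1 hc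
    have hc2 := Finset.mem_Icc.1 hc1.2
    exact nvx_ne hp hc0'.1 hc0'.2 hc2.1 hc2.2 (fun h => hc1.1 h.symm)
  -- the global statement
  have hall : (∏ c ∈ Finset.Icc 1 (n - 1), (X - C ((nvx n c : ℤ) : ZMod p)) ^ (b + 1)) ∣
      P.map φ := by
    refine Finset.prod_dvd_of_coprime ?_ hloc
    intro c hc c' hc' hcc
    have h1 := Finset.mem_Icc.1 hc
    have h2 := Finset.mem_Icc.1 hc'
    refine IsCoprime.pow (isCoprime_X_sub_C_of_isUnit_sub ?_)
    rw [isUnit_iff_ne_zero, sub_ne_zero]
    exact nvx_ne hp h1.1 h1.2 h2.1 h2.2 hcc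
  have hP0 : P.map φ = 0 := by
    by_contra hcon
    have h1 := natDegree_le_of_dvd hall hcon
    have h2 : (∏ c ∈ Finset.Icc 1 (n - 1),
        (X - C ((nvx n c : ℤ) : ZMod p)) ^ (b + 1)).natDegree = (b + 1) * (n - 1) := by
      rw [natDegree_prod_of_monic _ _ fun c _ => (monic_X_sub_C _).pow _]
      rw [Finset.sum_congr rfl fun c _ => (monic_X_sub_C _).natDegree_pow _]
      simp only [natDegree_X_sub_C, mul_one]
      rw [Finset.sum_const, Nat.card_Icc, smul_eq_mul, mul_comm]
      congr 1
    have h3 : (P.map φ).natDegree ≤ P.natDegree := natDegree_map_le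
    omega
  have hdvd : C ((p : ℕ) : ℤ) ∣ P := by
    rw [C_dvd_iff_dvd_coeff]
    intro i
    have h1 : (P.map φ).coeff i = 0 := by rw [hP0, coeff_zero]
    rw [coeff_map] at h1
    exact (ZMod.intCast_zmod_eq_zero_iff_dvd _ _).1 h1
  have hunit := hprim _ hdvd
  rw [Int.isUnit_iff] at hunit
  have := hp.two_le
  omega

end

end Pool.Agent.H56Z
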