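import Pool.Agent.H56Z.ARp
import Pool.Agent.H56Z.NVp
import Pool.Agent.H56Z.NUMp
import Pool.Agent.H56Z.PB20

/-!
# Simultaneous measure for windows of odd zeta values: assembly
-/

open Polynomial Pool.Agent.H337R2 Pool.Agent.N334.W Filter Topology

namespace Pool.Agent.H56Z

noncomputable section

/-- exponential against polynomial -/
lemma exp_beats (C : ℝ) (K : ℕ) (a : ℝ) (ha : 0 < a) : ∀ᶠ n : ℕ in atTop, C * (n : ℝ) ^ K ≤ Real.exp (a * n) := by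
  have h1 : Tendsto (fun x : ℝ => Real.exp (a * x) / x ^ K) atTop atTop := by
    have h2 := tendsto_exp_mul_div_rpow_atTop (K : ℝ) a ha
    refine h2.congr fun x => ?_
    rw [Real.rpow_natCast]
  have h3 := (h1.comp (tendsto_natCast_atTop_atTop (R := ℝ))).eventually_ge_atTop C
  filter_upwards [h3, eventually_ge_atTop 1] with n h4 h5
  have hn : (0 : ℝ) < (n : ℝ) ^ K := by
    have : (0 : ℝ) < n := by exact_mod_cast h5
    positivity
  simp only [Function.comp] at h4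
  rwa [le_div_iff₀ hn] at h4

/-- the vector is close enough -/
lemma close_of (b h : ℕ) (h20 : 7 * h ≤ 20 * (b + 1)) : ∀ᶠ n : ℕ in atTop, ∀ u : ℕ → ℚ,
    (∀ e, Odd (e - b) → b + 3 ≤ e → e ≤ b + h →
      |((u e : ℚ) : ℝ) - zr e| ≤ Real.exp (-(19.51 * ((b : ℝ) + 1) * n))) → Close b h n u := by
  obtain ⟨s, hs⟩ : ∃ s : ℝ, s = (b : ℝ) + 1 := ⟨_, rfl⟩
  have hs1 : 1 ≤ s := by rw [hs]; linarith [(Nat.cast_nonneg b : (0 : ℝ) ≤ b)]
  have ev := exp_beats (h * 2 ^ (h + b) * CC (b + 1) h * 3 ^ h) (KK (b + 1) h + h) (1 / 10) (by norm_num)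
  filter_upwards [ev, eventually_ge_atTop 1] with n hn hn1 u hu t ht k _
  have hnr : (1 : ℝ) ≤ n := by exact_mod_cast hn1
  refine (pw_le b h n u _ hn1 (Real.exp_pos _).le hu t k).trans ?_
  refine le_trans ?_ (Rt_lower h n t hn1 ht)
  rw [← hs]
  obtain ⟨A, hA⟩ : ∃ A : ℝ, A = h * 2 ^ (h + b) * CC (b + 1) h := ⟨_, rfl⟩
  have hA0 : 0 ≤ A := by
    rw [hA]
    have := CC_nonneg (b + 1) h
    positivity
  have e1 : Real.exp (-(19.51 * s * n)) * (h * 2 ^ (h + b) * (CC (b + 1) h * (n : ℝ) ^ (KK (b + 1) h) *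
      2 ^ (8 * n * (b + 1) + 2 * n * h))) =
      Real.exp (-(19.51 * s * n)) * (A * (n : ℝ) ^ (KK (b + 1) h)) * 2 ^ (8 * n * (b + 1) + 2 * n * h) := by
    rw [hA]; ring
  rw [e1]
  have e2 : (1 / (3 * (n : ℝ))) ^ h * (1 / 2) ^ (5 * n * h) = ((3 ^ h * (n : ℝ) ^ h) * 2 ^ (5 * n * h))⁻¹ := by
    rw [mul_inv, one_div, one_div, inv_pow, inv_pow, mul_pow]
  rw [e2, ← one_div, le_div_iff₀ (by positivity)]
  have e3 : (2 : ℝ) ^ (8 * n * (b + 1) + 2 * n * h) * 2 ^ (5 * n * h) ≤ Real.exp (19.409 * s * n) := by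
    rw [← pow_add]
    have g1 : 8 * n * (b + 1) + 2 * n * h + 5 * n * h ≤ 28 * (b + 1) * n := by
      have : n * (7 * h) ≤ n * (20 * (b + 1)) := Nat.mul_le_mul_left _ h20
      nlinarith
    refine (pow_le_pow_right₀ (by norm_num : (1 : ℝ) ≤ 2) g1).trans ?_
    have g2 : (2 : ℝ) ^ (28 * (b + 1) * n) = Real.exp (28 * s * n * Real.log 2) := by
      rw [← Real.exp_log (by norm_num : (0 : ℝ) < 2), ← Real.exp_nat_mul, Real.exp_log (by norm_num : (0 : ℝ) < 2), hs]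
      congr 1
      push_cast
      ring
    rw [g2]
    apply Real.exp_le_exp.2
    have g3 := Real.log_two_lt_d9
    have g4 : 0 ≤ s * n := by positivity
    nlinarith
  have e4 : A * (3 : ℝ) ^ h * (n : ℝ) ^ (KK (b + 1) h + h) ≤ Real.exp (1 / 10 * n) := by
    rw [hA]
    exact hn
  calc _ = Real.exp (-(19.51 * s * n)) * (A * (3 : ℝ) ^ h * (n : ℝ) ^ (KK (b + 1) h + h)) *
        ((2 : ℝ) ^ (8 * n * (b + 1) + 2 * n * h) * 2 ^ (5 * n * h)) := by
        rw [pow_add (n : ℝ)]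
        ring
    _ ≤ Real.exp (-(19.51 * s * n)) * Real.exp (1 / 10 * n) * Real.exp (19.409 * s * n) := by
        gcongr
    _ = Real.exp (-(19.51 * s * n) + 1 / 10 * n + 19.409 * s * n) := by
        rw [Real.exp_add, Real.exp_add]
    _ ≤ 1 := by
        rw [Real.exp_le_one_iff]
        have g4 : (n : ℝ) ≤ s * n := le_mul_of_one_le_left (by positivity) hs1
        nlinarith

/-- no good simultaneous approximation with a large denominator -/
theorem large_den (b h : ℕ) (hb : Even b) (hb2 : 2 ≤ b) (hh : Even h) (h13 : 13 * (b + 1) ≤ 5 * h)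
    (h20 : 7 * h ≤ 20 * (b + 1)) : ∃ q0 : ℕ, 1 ≤ q0 ∧ ∀ (a : ℕ → ℤ) (q : ℕ), q0 ≤ q →
    ∃ e, Odd e ∧ b + 3 ≤ e ∧ e < b + h ∧ ((q : ℝ) ^ 400)⁻¹ < |zr e - (a e : ℝ) / q| := by
  classical
  have hARCH : S_ARCH := ARCH_of AND GV PT RR
  have hLP : S_LP := LP_of (RED_of OM1) OMP GB
  have hEPB : S_EPB := EPB_of CBD GR GB
  have hSE : S_SE := SE_of thm_PN
  have hSL : S_SL := SL_of thm_PN
  have hSS : S_SS := SS_of ME
  obtain ⟨C, hC⟩ := hSS b h
  obtain ⟨J, hJ, hT⟩ := NUMp (b + 1) h C (by omega) h13 (by omega)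
  obtain ⟨s, hs⟩ : ∃ s : ℝ, s = (b : ℝ) + 1 := ⟨_, rfl⟩
  have hs2 : ((b + 1 : ℕ) : ℝ) = s := by rw [hs]; push_cast; ring
  rw [hs2] at hT
  obtain ⟨ρ, hρ⟩ : ∃ ρ : ℝ, ρ = 3 * Real.log 3 - 2 * Real.log 2 := ⟨_, rfl⟩
  rw [← hρ] at hT
  have hs3 : 3 ≤ s := by
    rw [hs]
    have : (2 : ℝ) ≤ b := by exact_mod_cast hb2
    linarith
  obtain ⟨δ, hδ⟩ : ∃ δ : ℝ, δ = s ^ 2 / 20000 := ⟨_, rfl⟩
  have hδ0 : 0 < δ := by rw [hδ]; positivity
  have t10 : Tendsto (fun ν : ℕ => 10 * ν) atTop atTop := tendsto_id.const_mul_atTop' (by norm_num)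
  have e1 := AR_u b h hb hb2 hh h13 δ hδ0
  have e2 := t10.eventually (hSE b h J δ hJ hδ0)
  have e3 := t10.eventually (hSL b h δ hδ0)
  have e4 := t10.eventually (hC J δ hJ hδ0)
  have e5 := t10.eventually (close_of b h h20)
  obtain ⟨ν0, hν0⟩ := eventually_atTop.1 (e1.and (e2.and (e3.and (e4.and (e5.and
    (eventually_ge_atTop (J ^ 2 + 10000)))))))
  obtain ⟨L0, hL01, hPB⟩ := prime_between (h - b) (by omega) (36 / s) (41 / s) (by positivity) (by
    have h1 : 41 / s - 36 / s = 5 / s := by ring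
    rw [h1, mul_div_assoc', lt_div_iff₀ (by linarith), Nat.cast_sub (by omega), hs]
    have h2 : 13 * ((b : ℝ) + 1) ≤ 5 * h := by exact_mod_cast h13
    linarith)
  obtain ⟨q0, hq0⟩ := exists_nat_gt (Real.exp (L0 + s * (20 * ν0 + 1)))
  refine ⟨q0, ?_, fun a q hq => ?_⟩
  · have : (0 : ℝ) < q0 := (Real.exp_pos _).trans hq0
    have : 0 < q0 := by exact_mod_cast this
    omega
  by_contra hcon
  push Not at hcon
  have hqR : Real.exp (L0 + s * (20 * ν0 + 1)) < q := hq0.trans_le (by exact_mod_cast hq)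
  have hqr : (0 : ℝ) < q := (Real.exp_pos _).trans hqR
  have hqpos : 0 < q := by exact_mod_cast hqr
  obtain ⟨L, hL⟩ : ∃ L : ℝ, L = Real.log q := ⟨_, rfl⟩
  have hLbig : L0 + s * (20 * ν0 + 1) < L := by
    rw [hL]
    exact (Real.lt_log_iff_exp_lt hqr).2 hqR
  have hν0r : (0 : ℝ) ≤ ν0 := Nat.cast_nonneg ν0
  have hs0 : 0 < s := by linarith
  obtain ⟨p0, hp0, hp2, hpL, hpU, hpq⟩ := hPB L (by
    have : 0 ≤ s * (20 * (ν0 : ℝ) + 1) := by positivity
    linarith) q hqpos hL.ge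
  obtain ⟨ν, hν⟩ : ∃ ν, p0 = 20 * ν + 1 := ⟨p0 / 20, by omega⟩
  have hpL' : 36 * L < s * p0 := by
    have h1 : 36 / s * L = 36 * L / s := by ring
    rw [h1, div_lt_iff₀ hs0] at hpL
    linarith
  have hpU' : s * p0 ≤ 41 * L := by
    have h1 : 41 / s * L = 41 * L / s := by ring
    rw [h1, le_div_iff₀ hs0] at hpU
    linarith
  have hνν : ν0 ≤ ν := by
    have h1 : s * (20 * (ν0 : ℝ) + 1) < s * p0 := by
      have h2 : 0 ≤ s * (20 * (ν0 : ℝ) + 1) := by positivity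
      nlinarith
    have h2 : 20 * (ν0 : ℝ) + 1 < p0 := lt_of_mul_lt_mul_left h1 hs0.le
    have h3 : 20 * ν0 + 1 < p0 := by exact_mod_cast h2
    omega
  obtain ⟨f1, f2, f3, f4, f5, f6⟩ := hν0 ν hνν
  have hJ1 : 1 ≤ J ^ 2 := one_le_pow₀ hJ
  have hpr : (2 * (10 * ν) + 1).Prime := by
    rw [show 2 * (10 * ν) + 1 = p0 by omega]
    exact hp0
  -- the rational numbers
  obtain ⟨u, hu⟩ : ∃ u : ℕ → ℚ, u = fun e => if Odd e ∧ b + 3 ≤ e ∧ e < b + h then (a e : ℚ) / q else 0 := ⟨_, rfl⟩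
  have hqq : (q : ℚ) ≠ 0 := by exact_mod_cast hqpos.ne'
  have hq : UInt q u := by
    refine ⟨hqpos, fun e => ?_⟩
    rw [hu]
    by_cases hc : Odd e ∧ b + 3 ≤ e ∧ e < b + h
    · refine ⟨a e, ?_⟩
      simp only [if_pos hc]
      field_simp
    · refine ⟨0, ?_⟩
      simp only [if_neg hc]
      simp
  have hne : DET b h (10 * ν) u ((b + 1) * (10 * ν - 1)) ≠ 0 := by
    apply NVp b h (10 * ν) q u hb (by omega) hpr _ hq
    rw [show 2 * (10 * ν) + 1 = p0 by omega]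
    exact hpq
  obtain ⟨n, hn⟩ : ∃ n : ℝ, n = 10 * (ν : ℝ) := ⟨_, rfl⟩
  have hcast : (((10 * ν : ℕ)) : ℝ) = n := by rw [hn]; push_cast; ring
  have hn1 : 100000 ≤ n := by
    rw [hn]
    have : (10000 : ℝ) ≤ ν := by exact_mod_cast (by omega : 10000 ≤ ν)
    linarith
  have hp0n : (p0 : ℝ) = 2 * n + 1 := by
    rw [hν, hn]
    push_cast
    ring
  have hclose : Close b h (10 * ν) u := by
    apply f5 u
    intro e he1 he2 he3
    have hodd : Odd e := by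
      have h1 : e = (e - b) + b := by omega
      rw [h1]
      exact he1.add_even hb
    have hlt : e < b + h := by
      rcases Nat.lt_or_ge e (b + h) with h1 | h1
      · exact h1
      · exfalso
        have h2 : e = b + h := by omega
        rw [h2] at hodd
        exact (Nat.not_odd_iff_even.2 (hb.add hh)) hodd
    have h3 := hcon e hodd he2 hlt
    have h4 : ((u e : ℚ) : ℝ) = (a e : ℝ) / q := by
      rw [hu]
      simp only [if_pos (⟨hodd, he2, hlt⟩ : Odd e ∧ b + 3 ≤ e ∧ e < b + h)]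
      push_cast
      rfl
    rw [h4, abs_sub_comm]
    refine h3.trans ?_
    have h5 : ((q : ℝ) ^ 400)⁻¹ = Real.exp (-(400 * L)) := by
      rw [Real.exp_neg, hL, show 400 * Real.log q = ((400 : ℕ) : ℝ) * Real.log q by push_cast; rfl,
        ← Real.log_pow, Real.exp_log (by positivity)]
    rw [h5]
    apply Real.exp_le_exp.2
    rw [hcast, ← hs]
    rw [hp0n] at hpU'
    nlinarith
  have g0 := prod_formula hLP hEPB SM b h (10 * ν) q J u hb (by omega) (by omega) hJ (by omega) hq hne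
  rw [prod_log_Bf b h (10 * ν) J hJ (by omega)] at g0
  have g1 : Real.log |((DET b h (10 * ν) u ((b + 1) * (10 * ν - 1)) : ℚ) : ℝ)| ≤
      (10 * (ν : ℝ)) ^ 2 * (((b : ℝ) + 1) ^ 2 * (2 * Real.log (10 * (ν : ℝ)) + a0) -
        ((b : ℝ) + 1) * (5 * h - 13 * ((b : ℝ) + 1)) / 5 * (3 * Real.log 3 - 2 * Real.log 2) + δ) := by
    have h1 := f1 u hclose
    have h2 : 0 < |((DET b h (10 * ν) u ((b + 1) * (10 * ν - 1)) : ℚ) : ℝ)| :=
      abs_pos.2 (by exact_mod_cast hne)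
    have h3 := Real.log_le_log h2 h1
    rwa [Real.log_exp] at h3
  rw [← hn, ← hs, ← hρ] at g1
  rw [hcast] at f2 f3 f4
  rw [← hs] at f3 f4
  have hJ0 : (0 : ℝ) < J := by exact_mod_cast hJ
  have g2 : (((b + 1) * (10 * ν - 1) : ℕ) : ℝ) * Real.log q ≤ n ^ 2 * (5558 / 100000 * s ^ 2) := by
    have h1 : (((b + 1) * (10 * ν - 1) : ℕ) : ℝ) ≤ s * n := by
      rw [← hs2, ← hcast]
      exact_mod_cast Nat.mul_le_mul_left _ (by omega)
    have h2 : 0 ≤ Real.log q := Real.log_natCast_nonneg q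
    have h3 := mul_le_mul_of_nonneg_right h1 h2
    refine h3.trans ?_
    rw [← hL]
    have h4 : L ≤ s * (2 * n + 1) / 36 := by
      rw [le_div_iff₀ (by norm_num), ← hp0n]
      linarith
    have h5 : s * (2 * n + 1) / 36 ≤ 5558 / 100000 * (s * n) := by
      have h6 : 2 * n + 1 ≤ 36 * (5558 / 100000) * n := by linarith
      have h7 := mul_le_mul_of_nonneg_left h6 hs0.le
      linarith
    calc s * n * L ≤ s * n * (5558 / 100000 * (s * n)) :=
          mul_le_mul_of_nonneg_left (h4.trans h5) (by positivity)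
      _ = _ := by ring
  have hlog : Real.log (2 * n / J) = Real.log 2 + Real.log n - Real.log J := by
    rw [Real.log_div (by positivity) hJ0.ne', Real.log_mul (by norm_num) (by linarith)]
  rw [hlog] at f4
  have f4' : ∑ p ∈ PS 0 (2 / J) (10 * ν), Real.log (Bs b h (10 * ν) p) ≤
      n ^ 2 * (-2 * s ^ 2 * (Real.log 2 + Real.log n - Real.log J - Real.eulerMascheroniConstant) +
      C / J + δ) := f4
  have hn2 : 0 < n ^ 2 := by positivity
  have hT' := mul_lt_mul_of_pos_left hT hn2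
  have htot : n ^ 2 * (5558 / 100000 * s ^ 2) + n ^ 2 * (s ^ 2 * (2 * Real.log n + a0) - s * (5 * h - 13 * s) / 5 * ρ + δ) +
      (n ^ 2 * (-2 * s ^ 2 * (Real.log 2 + Real.log n - Real.log J - Real.eulerMascheroniConstant) +
        C / J + δ) + n ^ 2 * (e0 (b + 1) h J + δ) + n ^ 2 * ((h : ℝ) * s / 2 + δ)) =
      n ^ 2 * (s ^ 2 * a0 - s * (5 * h - 13 * s) / 5 * ρ -
      2 * s ^ 2 * Real.log 2 + 2 * s ^ 2 * Real.log J +
      2 * s ^ 2 * Real.eulerMascheroniConstant + C / J + e0 (b + 1) h J + h * s / 2) +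
      n ^ 2 * (5558 / 100000 * s ^ 2 + 4 * δ) := by ring
  have hfin : n ^ 2 * (-(561 / 10000 * s ^ 2)) + n ^ 2 * (5558 / 100000 * s ^ 2 + 4 * δ) < 0 := by
    rw [← mul_add, hδ]
    apply mul_neg_of_pos_of_neg hn2
    have : 0 < s ^ 2 := by positivity
    linarith
  linarith

/-- simultaneous measure for a window of odd zeta values -/
theorem measure (b h : ℕ) (hb : Even b) (hb2 : 2 ≤ b) (hh : Even h) (h13 : 13 * (b + 1) ≤ 5 * h)
    (h20 : 7 * h ≤ 20 * (b + 1)) : ∃ c : ℝ, 0 < c ∧ ∀ (a : ℕ → ℤ) (q : ℕ), 0 < q →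
    ∃ e, Odd e ∧ b + 3 ≤ e ∧ e < b + h ∧ c / (q : ℝ) ^ 400 ≤ |zr e - (a e : ℝ) / q| := by
  obtain ⟨b0, hb0, h⟩ := large_den b h hb hb2 hh h13 h20
  have hb0R : (0 : ℝ) < b0 := by exact_mod_cast hb0
  refine ⟨((b0 : ℝ) ^ 400)⁻¹, by positivity, fun a q hq => ?_⟩
  have hqR : (0 : ℝ) < q := by exact_mod_cast hq
  obtain ⟨e, he1, he2, he3, h1⟩ := h (fun i => a i * b0) (q * b0) (Nat.le_mul_of_pos_left b0 hq)
  refine ⟨e, he1, he2, he3, ?_⟩
  push_cast at h1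
  rw [mul_div_mul_right _ _ hb0R.ne'] at h1
  refine le_trans (le_of_eq ?_) h1.le
  rw [mul_pow, mul_inv, div_eq_mul_inv]
  ring

/-- the windows `[s + 2, 18 s / 5)` -/
theorem window (s : ℕ) (hs : Odd s) (hs3 : 3 ≤ s) : ∃ c : ℝ, 0 < c ∧ ∀ (a : ℕ → ℤ) (q : ℕ), 0 < q →
    ∃ j, Odd j ∧ s + 2 ≤ j ∧ 5 * j < 18 * s ∧ c / (q : ℝ) ^ 400 ≤ |zr j - (a j : ℝ) / q| := by
  obtain ⟨m, hm⟩ := hs
  obtain ⟨g, hg1, hg2⟩ : ∃ g : ℕ, 13 * s ≤ 10 * g ∧ 10 * g < 13 * s + 10 :=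
    ⟨(13 * s + 9) / 10, by omega, by omega⟩
  have h20 : 7 * (2 * g) ≤ 20 * (2 * m + 1) := by
    rcases Nat.lt_or_ge s 7 with h7 | h7
    · have : s = 3 ∨ s = 5 := by omega
      omega
    · omega
  obtain ⟨c, hc, h⟩ := measure (2 * m) (2 * g) ⟨m, by ring⟩ (by omega) ⟨g, by ring⟩ (by omega) h20
  refine ⟨c, hc, fun a q hq => ?_⟩
  obtain ⟨e, he1, he2, he3, he4⟩ := h a q hq
  refine ⟨e, he1, by omega, ?_, he4⟩
  obtain ⟨e', he'⟩ := he1
  omega

end

end Pool.Agent.H56Z
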