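import Mathlib

/-!
# Near linear relations and simultaneous approximation

If the numbers `θ x` have no good simultaneous rational approximations, then the integer vectors on which the linear
form with the coefficients `1`, `θ x`, and arbitrary further numbers is very small are contained in a subspace of
codimension two.
-/

open Matrix

namespace Pool.Agent.H56Z

noncomputable section

variable {τ : Type} [Fintype τ] [DecidableEq τ]

/-- the matrix with the rows `v i` and a unit row -/
def sq (v : τ → Option τ → ℤ) (l : Option τ) : Matrix (Option τ) (Option τ) ℤ :=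
  Matrix.of fun i x => match i with
    | none => if x = l then 1 else 0
    | some i => v i x

lemma ker_one (v : τ → Option τ → ℤ) (hv : LinearIndependent ℤ v) (g : Option τ → ℤ) (l : Option τ) (hl : g l ≠ 0)
    (hg : ∀ i, ∑ x, v i x * g x = 0) : (sq v l).det ≠ 0 := by
  intro hdet
  obtain ⟨x, hx, hMx⟩ := Matrix.exists_mulVec_eq_zero_iff.2 hdet
  have hxl : x l = 0 := by
    have h1 := congrFun hMx none
    rw [Matrix.mulVec, dotProduct] at h1
    simp only [sq, Matrix.of_apply, ite_mul, one_mul, zero_mul, Finset.sum_ite_eq', Finset.mem_univ, if_true,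
      Pi.zero_apply] at h1
    exact h1
  have hxv : ∀ i, ∑ y, v i y * x y = 0 := by
    intro i
    have h1 := congrFun hMx (some i)
    rw [Matrix.mulVec, dotProduct] at h1
    exact h1
  -- over `ℚ`
  obtain ⟨A, hA⟩ : ∃ A : Matrix τ (Option τ) ℚ, A = Matrix.of fun i y => ((v i y : ℤ) : ℚ) := ⟨_, rfl⟩
  have hind : LinearIndependent ℚ A.row := by
    rw [← LinearIndependent.iff_fractionRing (R := ℤ) (K := ℚ)]
    let φ : (Option τ → ℤ) →ₗ[ℤ] (Option τ → ℚ) :=
      { toFun := fun f y => ((f y : ℤ) : ℚ)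
        map_add' := fun f g => by ext y; simp
        map_smul' := fun c f => by ext y; simp }
    have hφ : LinearMap.ker φ = ⊥ := by
      rw [LinearMap.ker_eq_bot']
      intro f hf
      ext y
      have := congrFun hf y
      change ((f y : ℤ) : ℚ) = 0 at this
      exact_mod_cast this
    have h2 := hv.map' φ hφ
    have h3 : A.row = φ ∘ v := by
      rw [hA]
      rfl
    rw [h3]
    exact h2
  have hrank : A.rank = Fintype.card τ := hind.rank_matrix
  have hrange : Module.finrank ℚ (LinearMap.range A.mulVecLin) = Fintype.card τ := hrank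
  have hnull := LinearMap.finrank_range_add_finrank_ker A.mulVecLin
  rw [hrange, Module.finrank_pi, Fintype.card_option] at hnull
  have hker : Module.finrank ℚ (LinearMap.ker A.mulVecLin) = 1 := by omega
  have hmem : ∀ f : Option τ → ℤ, (∀ i, ∑ y, v i y * f y = 0) →
      (fun y => ((f y : ℤ) : ℚ)) ∈ LinearMap.ker A.mulVecLin := by
    intro f hf
    rw [LinearMap.mem_ker, Matrix.mulVecLin_apply]
    ext i
    rw [Matrix.mulVec, dotProduct, hA]
    simp only [Matrix.of_apply, Pi.zero_apply]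
    exact_mod_cast hf i
  obtain ⟨G, hG⟩ : ∃ G : LinearMap.ker A.mulVecLin, G = ⟨fun y => ((g y : ℤ) : ℚ), hmem g hg⟩ := ⟨_, rfl⟩
  have hG0 : G ≠ 0 := by
    intro h
    apply hl
    have h1 := congrFun (congrArg Subtype.val h) l
    rw [hG] at h1
    simp only [ZeroMemClass.coe_zero, Pi.zero_apply] at h1
    exact_mod_cast h1
  obtain ⟨c, hc⟩ := (finrank_eq_one_iff_of_nonzero' G hG0).1 hker ⟨fun y => ((x y : ℤ) : ℚ), hmem x hxv⟩
  have hval : ∀ y, c * ((g y : ℤ) : ℚ) = ((x y : ℤ) : ℚ) := by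
    intro y
    have h1 := congrFun (congrArg Subtype.val hc) y
    rw [hG] at h1
    exact h1
  have hc0 : c = 0 := by
    have h1 := hval l
    rw [hxl, Int.cast_zero, mul_eq_zero] at h1
    rcases h1 with h1 | h1
    · exact h1
    · exfalso
      exact hl (by exact_mod_cast h1)
  apply hx
  ext y
  have h1 := hval y
  rw [hc0, zero_mul] at h1
  rw [Pi.zero_apply]
  exact_mod_cast h1.symm

/-- the entries of the adjugate matrix -/
lemma adj_le (v : τ → Option τ → ℤ) (l : Option τ) (X : ℝ) (hX : 1 ≤ X) (hv : ∀ i x, |((v i x : ℤ) : ℝ)| ≤ X)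
    (i j : Option τ) : |(((sq v l).adjugate i j : ℤ) : ℝ)| ≤
      ((Fintype.card τ + 1).factorial : ℝ) * X ^ (Fintype.card τ + 1) := by
  rw [Matrix.adjugate_apply]
  have hent : ∀ a b, |(((sq v l).map (Int.castRingHom ℝ)).updateRow j (Pi.single i 1) a b)| ≤ X := by
    intro a b
    rw [Matrix.updateRow_apply]
    split_ifs
    · rw [Pi.single_apply]
      split_ifs
      · rw [abs_one]; exact hX
      · rw [abs_zero]; linarith
    · rw [Matrix.map_apply]
      cases a with
      | none =>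
        simp only [sq, Matrix.of_apply]
        split_ifs
        · simp only [eq_intCast, Int.cast_one, abs_one]; exact hX
        · simp only [eq_intCast, Int.cast_zero, abs_zero]; linarith
      | some a => exact hv a b
  have h1 := Matrix.det_le (A := ((sq v l).map (Int.castRingHom ℝ)).updateRow j (Pi.single i 1))
    (abv := AbsoluteValue.abs) (x := X) hent
  rw [Fintype.card_option, nsmul_eq_mul] at h1
  have h2 : ((((sq v l).updateRow j (Pi.single i 1)).det : ℤ) : ℝ) =
      (((sq v l).map (Int.castRingHom ℝ)).updateRow j (Pi.single i 1)).det := by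
    have h3 := (Int.castRingHom ℝ).map_det ((sq v l).updateRow j (Pi.single i 1))
    rw [eq_intCast] at h3
    rw [h3]
    congr 1
    ext a b
    simp only [RingHom.mapMatrix_apply, Matrix.map_apply, Matrix.updateRow_apply, Pi.single_apply]
    split_ifs <;> simp
  rw [h2]
  exact h1

attribute [local instance] Matrix.seminormedAddCommGroup

/-- **Near relations.** -/
theorem near (ι : Type) (f : ι → τ) (θ : ι → ℝ) (w : ℕ) (hw : 1 ≤ w) (c : ℝ) (hc : 0 < c)
    (h : ∀ (a : ι → ℤ) (q : ℕ), 0 < q → ∃ i, c / (q : ℝ) ^ w ≤ |θ i - (a i : ℝ) / q|) (hτ : 0 < Fintype.card τ) :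
    ∃ c' : ℝ, 0 < c' ∧ ∀ (y : Option τ → ℝ), y none = 1 → (∀ i, y (some (f i)) = θ i) → ∀ X : ℝ, 1 ≤ X →
      ∀ v : τ → Option τ → ℤ, LinearIndependent ℤ v → (∀ i x, |((v i x : ℤ) : ℝ)| ≤ X) →
      ∃ i, c' / X ^ ((w + 1) * Fintype.card τ + 1) ≤ |∑ x, (v i x : ℝ) * y x| := by
  obtain ⟨D, hD⟩ : ∃ D, D = Fintype.card τ := ⟨_, rfl⟩
  rw [← hD] at hτ
  rw [← hD]
  obtain ⟨B, hB⟩ : ∃ B : ℝ, B = (D + 1) * (((D + 1).factorial : ℕ) : ℝ) := ⟨_, rfl⟩
  have hB0 : 0 < B := by rw [hB]; positivity
  have hB1 : 1 ≤ B := by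
    rw [hB]
    have h1 : (1 : ℝ) ≤ (((D + 1).factorial : ℕ) : ℝ) := by exact_mod_cast Nat.succ_le_of_lt (Nat.factorial_pos _)
    have h2 : (1 : ℝ) ≤ (D : ℝ) + 1 := by linarith [(Nat.cast_nonneg D : (0 : ℝ) ≤ D)]
    nlinarith
  obtain ⟨S, hS⟩ : ∃ S : ℝ, S = ((D : ℝ) + 1) ^ D := ⟨_, rfl⟩
  have hS1 : 1 ≤ S := by
    rw [hS]
    apply one_le_pow₀
    linarith [(Nat.cast_nonneg D : (0 : ℝ) ≤ D)]
  refine ⟨min (1 / (2 * B)) (c / (4 * B * S ^ w)), by positivity, fun y hy0 hyθ X hX v hv hvX => ?_⟩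
  have hX0 : 0 < X := by linarith
  by_contra hcon
  push Not at hcon
  obtain ⟨ε, hε⟩ : ∃ ε : ℝ, ε = min (1 / (2 * B)) (c / (4 * B * S ^ w)) / X ^ ((w + 1) * D + 1) := ⟨_, rfl⟩
  rw [← hε] at hcon
  have hε0 : 0 < ε := by rw [hε]; positivity
  have hεa : ε ≤ 1 / (2 * B) / X ^ ((w + 1) * D + 1) := by
    rw [hε]
    exact div_le_div_of_nonneg_right (min_le_left _ _) (by positivity)
  have hεb : ε ≤ c / (4 * B * S ^ w) / X ^ ((w + 1) * D + 1) := by
    rw [hε]
    exact div_le_div_of_nonneg_right (min_le_right _ _) (by positivity)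
  -- Siegel's lemma
  obtain ⟨g, hg0, hgv, hgX⟩ : ∃ g : Option τ → ℤ, g ≠ 0 ∧ (∀ i, ∑ x, v i x * g x = 0) ∧
      ∀ x, |((g x : ℤ) : ℝ)| ≤ S * X ^ D := by
    obtain ⟨g, hg0, hg, hgn⟩ := Int.Matrix.exists_ne_zero_int_vec_norm_le (Matrix.of v)
      (by rw [Fintype.card_option]; omega) (by omega)
    refine ⟨g, hg0, fun i => ?_, fun x => ?_⟩
    · have h1 := congrFun hg i
      rw [Matrix.mulVec, dotProduct] at h1
      exact h1
    · have h1 : ‖g x‖ ≤ ‖g‖ := norm_le_pi_norm g x
      rw [Int.norm_eq_abs] at h1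
      refine h1.trans (hgn.trans ?_)
      rw [Fintype.card_option, ← hD]
      have h2 : (((D + 1 : ℕ) : ℝ) - D) = 1 := by push_cast; ring
      rw [h2, div_one, Real.rpow_natCast, hS, ← mul_pow]
      apply pow_le_pow_left₀ (by positivity)
      push_cast
      apply mul_le_mul_of_nonneg_left _ (by positivity)
      apply max_le hX
      rw [Matrix.norm_le_iff hX0.le]
      intro i j
      rw [Matrix.of_apply, Int.norm_eq_abs]
      exact hvX i j
  obtain ⟨l, hl⟩ := Finite.exists_max (fun x => |((g x : ℤ) : ℝ)|)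
  have hgl : g l ≠ 0 := by
    intro h0
    apply hg0
    ext x
    have h1 := hl x
    simp only [h0, Int.cast_zero, abs_zero] at h1
    have h2 : ((g x : ℤ) : ℝ) = 0 := abs_nonpos_iff.1 h1
    rw [Pi.zero_apply]
    exact_mod_cast h2
  have hgl' : 0 < |((g l : ℤ) : ℝ)| := by
    rw [abs_pos]
    exact_mod_cast hgl
  obtain ⟨η, hη⟩ : ∃ η : ℝ, η = B * X ^ (D + 1) * ε := ⟨_, rfl⟩
  have hη0 : 0 < η := by rw [hη]; positivity
  have hdet := ker_one v hv g l hgl hgv
  have hdet1 : (1 : ℝ) ≤ |(((sq v l).det : ℤ) : ℝ)| := by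
    have h1 : (1 : ℤ) ≤ |(sq v l).det| := Int.one_le_abs hdet
    have h2 : ((1 : ℤ) : ℝ) ≤ ((|(sq v l).det| : ℤ) : ℝ) := by exact_mod_cast h1
    rwa [Int.cast_one, Int.cast_abs] at h2
  obtain ⟨z, hz⟩ : ∃ z : Option τ → ℝ, z = fun x => (g l : ℝ) * y x - y l * (g x : ℝ) := ⟨_, rfl⟩
  obtain ⟨b, hb⟩ : ∃ b : Option τ → ℝ, b = fun j => match j with
    | none => 0
    | some i => (g l : ℝ) * ∑ x, (v i x : ℝ) * y x := ⟨_, rfl⟩
  have hMz : ((sq v l).map (Int.castRingHom ℝ)) *ᵥ z = b := by
    ext j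
    rw [Matrix.mulVec, dotProduct, hb, hz]
    cases j with
    | none =>
      simp only [sq, Matrix.map_apply, Matrix.of_apply, eq_intCast]
      have h1 : ∀ x, (((if x = l then (1 : ℤ) else 0 : ℤ)) : ℝ) * ((g l : ℝ) * y x - y l * (g x : ℝ)) =
          if x = l then ((g l : ℝ) * y x - y l * (g x : ℝ)) else 0 := by
        intro x
        split_ifs <;> simp
      simp only [h1, Finset.sum_ite_eq', Finset.mem_univ, if_true]
      ring
    | some i =>
      simp only [sq, Matrix.map_apply, Matrix.of_apply, eq_intCast]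
      have h1 : ∀ x, ((v i x : ℤ) : ℝ) * ((g l : ℝ) * y x - y l * (g x : ℝ)) =
          (g l : ℝ) * (((v i x : ℤ) : ℝ) * y x) - y l * (((v i x : ℤ) : ℝ) * (g x : ℝ)) := by
        intro x
        ring
      have h2 : ∑ x, ((v i x : ℤ) : ℝ) * (g x : ℝ) = 0 := by exact_mod_cast hgv i
      simp only [h1, Finset.sum_sub_distrib, ← Finset.mul_sum, h2, mul_zero, sub_zero]
  have hzb : ∀ x, |z x| ≤ |((g l : ℤ) : ℝ)| * η := by
    intro x
    have h1 : ((sq v l).map (Int.castRingHom ℝ)).adjugate *ᵥ b =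
        ((sq v l).map (Int.castRingHom ℝ)).det • z := by
      rw [← hMz, Matrix.mulVec_mulVec, Matrix.adjugate_mul, Matrix.smul_mulVec, Matrix.one_mulVec]
    have h2 := congrFun h1 x
    have h3 : ((sq v l).map (Int.castRingHom ℝ)).det = (((sq v l).det : ℤ) : ℝ) := by
      have h4 := (Int.castRingHom ℝ).map_det (sq v l)
      rw [eq_intCast] at h4
      rw [h4]
      rfl
    have h5 : ∀ j, ((sq v l).map (Int.castRingHom ℝ)).adjugate x j = (((sq v l).adjugate x j : ℤ) : ℝ) := by
      intro j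
      have h4 := (Int.castRingHom ℝ).map_adjugate (sq v l)
      have h6 := congrFun (congrFun h4 x) j
      rw [RingHom.mapMatrix_apply, RingHom.mapMatrix_apply, Matrix.map_apply, eq_intCast] at h6
      exact h6.symm
    rw [Pi.smul_apply, smul_eq_mul, h3, Matrix.mulVec, dotProduct] at h2
    have h6 : |z x| ≤ |(((sq v l).det : ℤ) : ℝ) * z x| := by
      rw [abs_mul]
      nlinarith [abs_nonneg (z x)]
    rw [← h2] at h6
    refine h6.trans ((Finset.abs_sum_le_sum_abs _ _).trans ?_)
    have h7 : ∀ j ∈ (Finset.univ : Finset (Option τ)),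
        |((sq v l).map (Int.castRingHom ℝ)).adjugate x j * b j| ≤
        (((D + 1).factorial : ℕ) : ℝ) * X ^ (D + 1) * (|((g l : ℤ) : ℝ)| * ε) := by
      intro j _
      rw [abs_mul, h5 j]
      have h8 := adj_le v l X hX hvX x j
      rw [← hD] at h8
      apply mul_le_mul h8 _ (abs_nonneg _) (by positivity)
      rw [hb]
      cases j with
      | none =>
        simp only [abs_zero]
        positivity
      | some i =>
        simp only [abs_mul]
        exact mul_le_mul_of_nonneg_left (hcon i).le hgl'.le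
    refine (Finset.sum_le_sum h7).trans ?_
    rw [Finset.sum_const, Finset.card_univ, Fintype.card_option, ← hD, nsmul_eq_mul, hη, hB]
    push_cast
    apply le_of_eq
    ring
  -- the approximations
  obtain ⟨G, hG⟩ : ∃ G : ℝ, G = |((g none : ℤ) : ℝ)| := ⟨_, rfl⟩
  have happ : ∀ i, |(g none : ℝ) * θ i - (g (some (f i)) : ℝ)| ≤
      (|((g none : ℤ) : ℝ)| + |((g (some (f i)) : ℤ) : ℝ)|) * η := by
    intro i
    have h1 := hzb none
    have h2 := hzb (some (f i))
    rw [hz] at h1 h2
    simp only [hy0, hyθ] at h1 h2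
    have h3 : (g l : ℝ) * ((g none : ℝ) * θ i - (g (some (f i)) : ℝ)) =
        (g none : ℝ) * ((g l : ℝ) * θ i - y l * (g (some (f i)) : ℝ)) -
        (g (some (f i)) : ℝ) * ((g l : ℝ) * 1 - y l * (g none : ℝ)) := by ring
    have h4 : |((g l : ℤ) : ℝ)| * |(g none : ℝ) * θ i - (g (some (f i)) : ℝ)| ≤
        |((g l : ℤ) : ℝ)| * ((|((g none : ℤ) : ℝ)| + |((g (some (f i)) : ℤ) : ℝ)|) * η) := by
      rw [← abs_mul, h3]
      refine (abs_sub _ _).trans ?_
      rw [abs_mul, abs_mul]
      nlinarith [mul_le_mul_of_nonneg_left h1 (abs_nonneg ((g (some (f i)) : ℤ) : ℝ)),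
        mul_le_mul_of_nonneg_left h2 (abs_nonneg ((g none : ℤ) : ℝ))]
    exact le_of_mul_le_mul_left h4 hgl'
  have hpow : X ^ (D + 1) ≤ X ^ ((w + 1) * D + 1) := by
    apply pow_le_pow_right₀ hX
    nlinarith
  by_cases hn : g none = 0
  · -- `g none = 0`
    have h1 := hzb none
    rw [hz] at h1
    simp only [hy0, hn, Int.cast_zero, mul_zero, sub_zero, mul_one] at h1
    have h2 : 1 ≤ η := by
      by_contra h3
      push Not at h3
      nlinarith
    have h3 : η ≤ 1 / 2 := by
      rw [hη]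
      calc B * X ^ (D + 1) * ε ≤ B * X ^ (D + 1) * (1 / (2 * B) / X ^ ((w + 1) * D + 1)) :=
            mul_le_mul_of_nonneg_left hεa (by positivity)
        _ = 1 / 2 * (X ^ (D + 1) / X ^ ((w + 1) * D + 1)) := by field_simp
        _ ≤ 1 / 2 * 1 := by
            apply mul_le_mul_of_nonneg_left _ (by norm_num)
            rw [div_le_one (by positivity)]
            exact hpow
        _ = 1 / 2 := by norm_num
    linarith
  · -- `g none ≠ 0`
    have hq0 : 0 < (g none).natAbs := Int.natAbs_pos.2 hn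
    obtain ⟨i, hi⟩ := h (fun i => (g none).sign * g (some (f i))) (g none).natAbs hq0
    have hqr : (((g none).natAbs : ℕ) : ℝ) = |((g none : ℤ) : ℝ)| := by
      rw [Nat.cast_natAbs, Int.cast_abs]
    have hqpos : 0 < |((g none : ℤ) : ℝ)| := by
      rw [← hqr]
      exact_mod_cast hq0
    rw [hqr] at hi
    have hsg : |((g none : ℤ) : ℝ)| * |θ i - (((g none).sign * g (some (f i)) : ℤ) : ℝ) / (|((g none : ℤ) : ℝ)|)| =
        |(g none : ℝ) * θ i - (g (some (f i)) : ℝ)| := by
      rcases lt_or_gt_of_ne hn with hneg | hpos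
      · have h1 : ((g none : ℤ) : ℝ) < 0 := by exact_mod_cast hneg
        rw [Int.sign_eq_neg_one_of_neg hneg, abs_of_neg h1]
        have h2 : (0 : ℝ) < -((g none : ℤ) : ℝ) := by linarith
        nth_rewrite 1 [← abs_of_pos h2]
        rw [← abs_mul]
        rw [← abs_neg]
        congr 1
        push_cast
        field_simp
      · have h1 : 0 < ((g none : ℤ) : ℝ) := by exact_mod_cast hpos
        rw [Int.sign_eq_one_of_pos hpos, abs_of_pos h1]
        nth_rewrite 1 [← abs_of_pos h1]
        rw [← abs_mul]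
        congr 1
        push_cast
        field_simp
    have h1 : c * |((g none : ℤ) : ℝ)| / |((g none : ℤ) : ℝ)| ^ w ≤ 2 * (S * X ^ D) * η := by
      have h2 := mul_le_mul_of_nonneg_left hi hqpos.le
      rw [hsg] at h2
      have h3 := happ i
      have h4 := hgX none
      have h5 := hgX (some (f i))
      calc c * |((g none : ℤ) : ℝ)| / |((g none : ℤ) : ℝ)| ^ w
          = |((g none : ℤ) : ℝ)| * (c / |((g none : ℤ) : ℝ)| ^ w) := by ring
        _ ≤ _ := h2.trans h3
        _ ≤ _ := by nlinarith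
    have h2 : c ≤ 2 * S ^ w * X ^ (D * w) * η := by
      obtain ⟨u, rfl⟩ : ∃ u, w = u + 1 := ⟨w - 1, by omega⟩
      have h3 : c * |((g none : ℤ) : ℝ)| / |((g none : ℤ) : ℝ)| ^ (u + 1) = c / |((g none : ℤ) : ℝ)| ^ u := by
        rw [pow_succ]
        field_simp
      rw [h3, div_le_iff₀ (by positivity)] at h1
      refine h1.trans ?_
      have h4 : |((g none : ℤ) : ℝ)| ^ u ≤ (S * X ^ D) ^ u := pow_le_pow_left₀ hqpos.le (hgX none) u
      calc 2 * (S * X ^ D) * η * |((g none : ℤ) : ℝ)| ^ u ≤ 2 * (S * X ^ D) * η * (S * X ^ D) ^ u :=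
            mul_le_mul_of_nonneg_left h4 (by positivity)
        _ = 2 * S ^ (u + 1) * X ^ (D * (u + 1)) * η := by
            rw [mul_pow, ← pow_mul]
            ring
    have h3 : 2 * S ^ w * X ^ (D * w) * η ≤ c / 2 := by
      rw [hη]
      calc 2 * S ^ w * X ^ (D * w) * (B * X ^ (D + 1) * ε) ≤
            2 * S ^ w * X ^ (D * w) * (B * X ^ (D + 1) * (c / (4 * B * S ^ w) / X ^ ((w + 1) * D + 1))) := by
            apply mul_le_mul_of_nonneg_left _ (by positivity)
            exact mul_le_mul_of_nonneg_left hεb (by positivity)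
        _ = c / 2 * ((X ^ (D * w) * X ^ (D + 1)) / X ^ ((w + 1) * D + 1)) := by
            field_simp
            ring
        _ = c / 2 := by
            rw [← pow_add, show D * w + (D + 1) = (w + 1) * D + 1 by ring, div_self (by positivity), mul_one]
    linarith

end

end Pool.Agent.H56Z
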