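import Pool.Agent.H56Z.Bound

/-!
# The linear form at an arbitrary rational vector as a sum over the nodes
-/

open Polynomial Pool.Agent.H337R2 Pool.Agent.N334.W Pool.Agent.TH900.OM Filter Topology

namespace Pool.Agent.H56Z

noncomputable section

/-- the coefficient of `u (i + b)`, up to a binomial -/
def rhoL (h n i : ℕ) : ℚ[X] →ₗ[ℚ] ℚ where
  toFun Q := ∑ κ ∈ sN n, pa (sN n) (mu h) (PN h n * Q.comp (xp n)) κ i
  map_add' P Q := by
    rw [← Finset.sum_add_distrib]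
    refine Finset.sum_congr rfl fun κ _ => ?_
    rw [Polynomial.add_comp, mul_add, N334.W.pa_add]
  map_smul' c P := by
    rw [RingHom.id_apply, smul_eq_mul, Finset.mul_sum]
    refine Finset.sum_congr rfl fun κ _ => ?_
    rw [Polynomial.smul_comp, mul_smul_comm, Polynomial.smul_eq_C_mul, N334.W.pa_C_mul]

lemma rhoL_apply (h n i : ℕ) (Q : ℚ[X]) :
    rhoL h n i Q = ∑ κ ∈ sN n, pa (sN n) (mu h) (PN h n * Q.comp (xp n)) κ i := rfl

lemma VV_le (h n κ : ℕ) (h1 : n ≤ κ) (h3 : κ ≤ 3 * n) :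
    NS h (VV ((sN n).erase κ) (mu h) (-(κ : ℚ))) ≤
      ((((2 * n : ℕ) : ℝ) + 1) ^ (2 * h) * 2 ^ (2 * n) / ((2 * n).factorial : ℝ)) ^ h := by
  have hks : κ ∈ sN n := by
    unfold sN
    rw [Finset.mem_Icc]
    exact ⟨h1, h3⟩
  unfold VV
  refine (NS_prod _ _ _).trans ?_
  have h1' : ∏ m ∈ (sN n).erase κ, NS h (iv (-(κ : ℚ) + m) ^ mu h m) ≤ ∏ m ∈ sN n, fk h κ m ^ h := by
    rw [← Finset.mul_prod_erase (sN n) (fun m => fk h κ m ^ h) hks]
    have hkk : fk h κ κ = 1 := by simp [fk]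
    rw [hkk, one_pow, one_mul]
    refine Finset.prod_le_prod (fun m _ => NS_nonneg _ _) fun m hm => ?_
    rw [Finset.mem_erase] at hm
    refine (NS_pow _ _ _).trans (le_of_eq ?_)
    unfold fk
    rw [if_neg hm.1]
  refine h1'.trans ?_
  rw [Finset.prod_pow]
  apply pow_le_pow_left₀ (Finset.prod_nonneg fun m _ => fk_nonneg _ _ _)
  have b := brick_le h (a := n) (b := 3 * n) (k := κ) h1 h3
  rw [show 3 * n - n = 2 * n by omega] at b
  exact b

lemma NS_PN (h n κ : ℕ) (hn : 1 ≤ n) (h3 : κ ≤ 3 * n) :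
    NS h (TS (-(κ : ℚ)) (PN h n)) ≤ ((2 * n).factorial : ℝ) ^ h * (12 * n) := by
  have hn1 : (1 : ℝ) ≤ n := by exact_mod_cast hn
  have hκ : (κ : ℝ) ≤ 3 * n := by exact_mod_cast h3
  have hκ0 : (0 : ℝ) ≤ κ := Nat.cast_nonneg κ
  unfold PN
  rw [map_mul, TS_C, map_add, map_mul, TS_X, TS_C]
  have e2 : TS (-(κ : ℚ)) (2 : ℚ[X]) = PowerSeries.C (2 : ℚ) := by
    rw [show (2 : ℚ[X]) = C (2 : ℚ) from rfl, TS_C]
  rw [e2]
  refine (NS_mul _ _ _).trans ?_
  apply mul_le_mul _ _ (NS_nonneg _ _) (by positivity)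
  · refine (NS_C _ _).trans (le_of_eq ?_)
    rw [← Rat.norm_cast_real, Real.norm_eq_abs]
    push_cast
    exact abs_of_nonneg (by positivity)
  · refine (NS_add _ _ _).trans ?_
    have g1 : NS h (PowerSeries.C (2 : ℚ) * (PowerSeries.X + PowerSeries.C (-(κ : ℚ)))) ≤ 2 * (1 + κ) := by
      refine (NS_mul _ _ _).trans ?_
      apply mul_le_mul _ _ (NS_nonneg _ _) (by norm_num)
      · refine (NS_C _ _).trans (le_of_eq ?_)
        rw [← Rat.norm_cast_real, Real.norm_eq_abs]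
        norm_num
      · refine (NS_lin _ _).trans (le_of_eq ?_)
        rw [norm_neg, ← Rat.norm_cast_real, Real.norm_eq_abs]
        push_cast
        rw [abs_of_nonneg hκ0]
    have g2 : NS h (PowerSeries.C (((4 * n : ℕ) : ℚ))) ≤ 4 * n := by
      refine (NS_C _ _).trans (le_of_eq ?_)
      rw [← Rat.norm_cast_real, Real.norm_eq_abs]
      push_cast
      exact abs_of_nonneg (by positivity)
    linarith

/-- constants -/
def CC (s h : ℕ) : ℝ := 36 * (s * 36 ^ s) * (4 ^ s * 4) ^ s * 9 ^ (h * h)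

def KK (s h : ℕ) : ℕ := 2 + 2 * s + (2 * s + 2) * s + 2 * h * h

lemma CC_nonneg (s h : ℕ) : 0 ≤ CC s h := by unfold CC; positivity

/-- the bound of the coefficient functionals at the basis polynomials -/
theorem rhoL_le (s h n i t k : ℕ) (hn : 1 ≤ n) (hi : 1 ≤ i) (ht : t < 2 * n) :
    |((rhoL h n i (hH s (2 * n) (vx n) t k) : ℚ) : ℝ)| ≤ CC s h * (n : ℝ) ^ (KK s h) * 2 ^ (8 * n * s + 2 * n * h) := by
  have hn1 : (1 : ℝ) ≤ n := by exact_mod_cast hn
  rw [rhoL_apply]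
  push_cast
  refine (Finset.abs_sum_le_sum_abs _ _).trans ?_
  obtain ⟨HB, hHB⟩ : ∃ HB : ℝ, HB = (s * (36 * (n : ℝ) ^ 2) ^ s) *
    ((((2 * n : ℕ) : ℝ) ^ (2 * s) * (4 * n ^ 2)) * 2 ^ (8 * n)) ^ s := ⟨_, rfl⟩
  have hHB0 : 0 ≤ HB := by rw [hHB]; positivity
  obtain ⟨V, hV⟩ : ∃ V : ℝ, V = ((((2 * n : ℕ) : ℝ) + 1) ^ (2 * h) * 2 ^ (2 * n) / ((2 * n).factorial : ℝ)) ^ h :=
    ⟨_, rfl⟩
  have hV0 : 0 ≤ V := by rw [hV]; positivity
  have hpa : ∀ κ ∈ sN n, |((pa (sN n) (mu h) (PN h n * (hH s (2 * n) (vx n) t k).comp (xp n)) κ i : ℚ) : ℝ)| ≤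
      (((2 * n).factorial : ℝ) ^ h * (12 * n) * HB) * V := by
    intro κ hκ
    unfold sN at hκ
    rw [Finset.mem_Icc] at hκ
    refine pa_le h (sN n) (mu h) _ κ i le_rfl hi _ _ ?_ ?_ (by positivity)
    · rw [map_mul]
      refine (NS_mul _ _ _).trans ?_
      refine mul_le_mul (NS_PN h n κ hn hκ.2) ?_ (NS_nonneg _ _) (by positivity)
      rw [hHB]
      exact NS_hH s h n κ t k hn hκ.2 ht
    · rw [hV]
      exact VV_le h n κ hκ.1 hκ.2
  refine (Finset.sum_le_sum hpa).trans ?_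
  rw [Finset.sum_const, nsmul_eq_mul]
  have hcard : (((sN n).card : ℕ) : ℝ) ≤ 3 * n := by
    unfold sN
    rw [Nat.card_Icc]
    exact_mod_cast (by omega : 3 * n + 1 - n ≤ 3 * n)
  refine (mul_le_mul_of_nonneg_right hcard (by positivity)).trans ?_
  have hf : (0 : ℝ) < ((2 * n).factorial : ℝ) := by positivity
  have e1 : ((2 * n).factorial : ℝ) ^ h * V = ((((2 * n : ℕ) : ℝ) + 1) ^ (2 * h) * 2 ^ (2 * n)) ^ h := by
    rw [hV, ← mul_pow]
    congr 1
    field_simp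
  have e2 : 3 * (n : ℝ) * (((2 * n).factorial : ℝ) ^ h * (12 * n) * HB * V) =
      36 * n ^ 2 * HB * ((((2 * n : ℕ) : ℝ) + 1) ^ (2 * h) * 2 ^ (2 * n)) ^ h := by
    rw [← e1]
    ring
  rw [e2]
  have e3 : ((((2 * n : ℕ) : ℝ) + 1) ^ (2 * h) * 2 ^ (2 * n)) ^ h ≤ ((3 * (n : ℝ)) ^ (2 * h) * 2 ^ (2 * n)) ^ h := by
    apply pow_le_pow_left₀ (by positivity)
    apply mul_le_mul_of_nonneg_right _ (by positivity)
    apply pow_le_pow_left₀ (by positivity)
    push_cast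
    linarith
  refine (mul_le_mul_of_nonneg_left e3 (by positivity)).trans (le_of_eq ?_)
  rw [hHB]
  unfold CC KK
  push_cast
  have e4 : ((3 * (n : ℝ)) ^ (2 * h) * 2 ^ (2 * n)) ^ h = 9 ^ (h * h) * (n : ℝ) ^ (2 * h * h) * 2 ^ (2 * n * h) := by
    rw [mul_pow (3 : ℝ), mul_pow, mul_pow, ← pow_mul, ← pow_mul, ← pow_mul, show (9 : ℝ) = 3 ^ 2 by norm_num,
      ← pow_mul 3 2, show 2 * h * h = 2 * (h * h) by ring]
  have e5 : ((2 * (n : ℝ)) ^ (2 * s) * (4 * (n : ℝ) ^ 2) * 2 ^ (8 * n)) ^ s =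
      (4 ^ s * 4) ^ s * (n : ℝ) ^ ((2 * s + 2) * s) * 2 ^ (8 * n * s) := by
    rw [mul_pow (2 : ℝ), pow_mul 2 2 s, show (2 : ℝ) ^ 2 = 4 by norm_num,
      show (4 : ℝ) ^ s * (n : ℝ) ^ (2 * s) * (4 * (n : ℝ) ^ 2) * 2 ^ (8 * n) =
        (4 ^ s * 4) * (n : ℝ) ^ (2 * s + 2) * 2 ^ (8 * n) by rw [pow_add]; ring, mul_pow, mul_pow, ← pow_mul, ← pow_mul]
  have e6 : (36 * (n : ℝ) ^ 2) ^ s = 36 ^ s * (n : ℝ) ^ (2 * s) := by rw [mul_pow, ← pow_mul]
  rw [e4, e5, e6, pow_add (n : ℝ), pow_add (n : ℝ), pow_add (n : ℝ), pow_add (2 : ℝ)]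
  ring

/-- a lower bound for `R(t)` -/
lemma Rt_lower (h n t : ℕ) (hn : 1 ≤ n) (ht : t < 2 * n) :
    (1 / (3 * (n : ℝ))) ^ h * (1 / 2) ^ (5 * n * h) ≤ Rt h n t := by
  have hn1 : (1 : ℝ) ≤ n := by exact_mod_cast hn
  have hf : (0 : ℝ) < ((2 * n).factorial : ℝ) := by positivity
  have e1 : ∏ k ∈ Finset.Icc n (3 * n), ((t : ℝ) + k) ≤ ((2 * n + 1).factorial : ℝ) * 2 ^ (5 * n) := by
    have h0 : Finset.Icc n (3 * n) = Finset.Ico n (3 * n + 1) := by
      ext k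
      rw [Finset.mem_Icc, Finset.mem_Ico]
      omega
    rw [h0, Finset.prod_Ico_eq_prod_range, show 3 * n + 1 - n = 2 * n + 1 by omega]
    have h1 := asc_le (t + n - 1) (2 * n + 1)
    have h2 : ∏ i ∈ Finset.range (2 * n + 1), ((t : ℝ) + ((n + i : ℕ) : ℝ)) =
        ∏ i ∈ Finset.range (2 * n + 1), (((t + n - 1 : ℕ) : ℝ) + i + 1) := by
      refine Finset.prod_congr rfl fun i _ => ?_
      rw [Nat.cast_sub (by omega)]
      push_cast
      ring
    rw [h2]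
    refine h1.trans ?_
    apply mul_le_mul_of_nonneg_left _ (by positivity)
    exact pow_le_pow_right₀ (by norm_num) (by omega)
  have e2 : ((2 * n + 1).factorial : ℝ) ≤ 3 * n * ((2 * n).factorial : ℝ) := by
    rw [Nat.factorial_succ]
    push_cast
    apply mul_le_mul_of_nonneg_right _ hf.le
    linarith
  have hprod : (0 : ℝ) < ∏ k ∈ Finset.Icc n (3 * n), ((t : ℝ) + k) := by
    apply Finset.prod_pos
    intro k hk
    rw [Finset.mem_Icc] at hk
    have : (1 : ℝ) ≤ k := by exact_mod_cast (by omega : 1 ≤ k)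
    have : (0 : ℝ) ≤ t := Nat.cast_nonneg t
    linarith
  have e3 : ∏ k ∈ Finset.Icc n (3 * n), ((t : ℝ) + k) ≤ 3 * n * 2 ^ (5 * n) * ((2 * n).factorial : ℝ) := by
    refine e1.trans ?_
    calc _ ≤ (3 * n * ((2 * n).factorial : ℝ)) * 2 ^ (5 * n) := mul_le_mul_of_nonneg_right e2 (by positivity)
      _ = _ := by ring
  unfold Rt
  rw [le_div_iff₀ (pow_pos hprod h)]
  have e4 : (1 / 2 : ℝ) ^ (5 * n * h) = ((1 / 2) ^ (5 * n)) ^ h := by rw [← pow_mul]
  rw [e4, ← mul_pow, ← mul_pow]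
  have e5 : 1 / (3 * (n : ℝ)) * (1 / 2) ^ (5 * n) * ∏ k ∈ Finset.Icc n (3 * n), ((t : ℝ) + k) ≤
      ((2 * n).factorial : ℝ) := by
    calc _ ≤ 1 / (3 * (n : ℝ)) * (1 / 2) ^ (5 * n) * (3 * n * 2 ^ (5 * n) * ((2 * n).factorial : ℝ)) :=
          mul_le_mul_of_nonneg_left e3 (by positivity)
      _ = (((1 / 2 : ℝ)) ^ (5 * n) * 2 ^ (5 * n)) * ((2 * n).factorial : ℝ) := by field_simp
      _ = _ := by rw [← mul_pow]; norm_num
  refine (pow_le_pow_left₀ (by positivity) e5 h).trans ?_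
  apply le_mul_of_one_le_right (by positivity)
  have : (0 : ℝ) ≤ t := Nat.cast_nonneg t
  linarith

/-- the error of the approximation, for the indices which matter -/
def dlt (b : ℕ) (u : ℕ → ℚ) (i : ℕ) : ℝ := by
  classical exact if Odd i ∧ 3 ≤ i then ((u (i + b) : ℚ) : ℝ) - zr (i + b) else 0

/-- the difference between the linear form at `u` and the series -/
def pert (b h n : ℕ) (u : ℕ → ℚ) (Q : ℚ[X]) : ℝ :=
  ∑ i ∈ Finset.Icc 1 h, ((Nat.choose (i - 1 + b) (i - 1) : ℕ) : ℝ) * ((rhoL h n i Q : ℚ) : ℝ) * dlt b u i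

/-- the linear form at `u` -/
theorem LFp (b h n : ℕ) (u : ℕ → ℚ) (Q : ℚ[X]) (hb : Even b) (hb2 : 2 ≤ b) (hh : Even h) (hn : 1 ≤ n)
    (hQ : 2 * Q.natDegree + 3 ≤ h * (2 * n + 1)) :
    HasSum (fun t : ℕ => ((PowerSeries.coeff b
      (RS (sN n) (mu h) (PN h n * Q.comp (xp n)) (t : ℚ)) : ℚ) : ℝ))
    (((NL b h n u Q : ℚ) : ℝ) - pert b h n u Q) := by
  set P : ℚ[X] := PN h n * Q.comp (xp n) with hP
  have hd : P.natDegree + 2 ≤ (QQ (sN n) (mu h)).natDegree := by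
    rw [QQ_natDegree, LF_sum]
    have := LF_deg h n Q
    rw [← hP] at this
    omega
  have hdeg' : P.degree < (QQ (sN n) (mu h)).degree := by
    rw [Polynomial.degree_eq_natDegree (QQ_monic _ _).ne_zero]
    exact lt_of_le_of_lt Polynomial.degree_le_natDegree (by exact_mod_cast (by omega))
  have h1 := linear_form' (sN n) (mu h) P hdeg' b 0 h (by omega)
    (fun k hk => by rw [sN, Finset.mem_Icc] at hk; omega)
    (fun k _ => le_refl _)
    (fun m hm => by rw [Finset.mem_Icc] at hm; omega)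
  convert h1 using 1
  rw [NL_apply, ← hP]
  unfold xf pert
  push_cast
  rw [← Finset.sum_sub_distrib]
  apply Finset.sum_congr rfl
  intro i hi
  rw [Finset.mem_Icc] at hi
  rw [hb.neg_one_pow, one_mul, rhoL_apply, ← hP]
  push_cast
  unfold dlt
  by_cases hodd : Odd i
  · by_cases hi1 : i = 1
    · subst hi1
      have h6 := residue_sum (sN n) (mu h) P hd
      have h4 : (∑ k ∈ sN n, ((pa (sN n) (mu h) P k 1 : ℚ) : ℝ)) = 0 := by
        have : (((∑ k ∈ sN n, pa (sN n) (mu h) P k 1 : ℚ)) : ℝ) = 0 := by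
          rw [h6]; simp
        push_cast at this
        exact this
      rw [h4]
      simp
    · have h3 : 3 ≤ i := by
        obtain ⟨j, hj⟩ := hodd
        omega
      rw [if_pos ⟨hodd, h3⟩]
      simp only [Nat.sub_zero]
      ring
  · have hodd' := Nat.not_odd_iff_even.1 hodd
    have h6 := even_vanish (sN n) (mu h) P (4 * n)
      (fun k hk => by rw [sN, Finset.mem_Icc] at hk ⊢; omega) (fun k _ => rfl)
      (by rw [hP]; exact LF_P_comp h n Q) (by rw [LF_sum]; exact hh.mul_right _) hodd' hi.1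
    have h4 : (∑ k ∈ sN n, ((pa (sN n) (mu h) P k i : ℚ) : ℝ)) = 0 := by
      have : (((∑ k ∈ sN n, pa (sN n) (mu h) P k i : ℚ)) : ℝ) = 0 := by
        rw [h6]; simp
      push_cast at this
      exact this
    rw [h4]
    simp

/-- the weights of the nodes which represent the difference -/
def pw (b h n : ℕ) (u : ℕ → ℚ) (t k : ℕ) : ℝ :=
  if t < 2 * n then pert b h n u (hH (b + 1) (2 * n) (vx n) t k) else 0

theorem pert_eq (b h n : ℕ) (u : ℕ → ℚ) (Q : ℚ[X]) (hQ : Q.natDegree < (b + 1) * (2 * n)) :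
    pert b h n u Q = ∑ t ∈ Finset.range (2 * n), ∑ k ∈ Finset.range (b + 1),
      pw b h n u t k * (((hasseDeriv k Q).eval (vx n t) : ℚ) : ℝ) := by
  have h1 : ∀ i, ((rhoL h n i Q : ℚ) : ℝ) = ∑ t ∈ Finset.range (2 * n), ∑ k ∈ Finset.range (b + 1),
      (((hasseDeriv k Q).eval (vx n t) : ℚ) : ℝ) * ((rhoL h n i (hH (b + 1) (2 * n) (vx n) t k) : ℚ) : ℝ) := by
    intro i
    have := hermite_apply (b + 1) (2 * n) (vx n) (vx_inj n _) Q hQ (rhoL h n i)
    conv_lhs => rw [this]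
    push_cast
    rfl
  unfold pert
  rw [Finset.sum_congr rfl fun i _ => by rw [h1 i]]
  have h2 : ∀ i ∈ Finset.Icc 1 h, ((Nat.choose (i - 1 + b) (i - 1) : ℕ) : ℝ) *
      (∑ t ∈ Finset.range (2 * n), ∑ k ∈ Finset.range (b + 1),
        (((hasseDeriv k Q).eval (vx n t) : ℚ) : ℝ) * ((rhoL h n i (hH (b + 1) (2 * n) (vx n) t k) : ℚ) : ℝ)) *
        dlt b u i = ∑ t ∈ Finset.range (2 * n), ∑ k ∈ Finset.range (b + 1),
        (((Nat.choose (i - 1 + b) (i - 1) : ℕ) : ℝ) * ((rhoL h n i (hH (b + 1) (2 * n) (vx n) t k) : ℚ) : ℝ) *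
          dlt b u i) * (((hasseDeriv k Q).eval (vx n t) : ℚ) : ℝ) := by
    intro i _
    rw [Finset.mul_sum, Finset.sum_mul]
    refine Finset.sum_congr rfl fun t _ => ?_
    rw [Finset.mul_sum, Finset.sum_mul]
    refine Finset.sum_congr rfl fun k _ => ?_
    ring
  rw [Finset.sum_congr rfl h2, Finset.sum_comm]
  refine Finset.sum_congr rfl fun t ht => ?_
  rw [Finset.sum_comm]
  refine Finset.sum_congr rfl fun k _ => ?_
  unfold pw
  rw [if_pos (Finset.mem_range.1 ht)]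
  unfold pert
  rw [Finset.sum_mul]

/-- the linear form at `u` as a sum over the nodes -/
theorem hasSum_u (b h n : ℕ) (u : ℕ → ℚ) (Q : ℚ[X]) (hb : Even b) (hb2 : 2 ≤ b) (hh : Even h) (hn : 1 ≤ n)
    (hQ : 2 * Q.natDegree + 3 ≤ h * (2 * n + 1)) (hQ2 : Q.natDegree < (b + 1) * (2 * n)) :
    HasSum (fun t : ℕ => ((PowerSeries.coeff b
        (RS (sN n) (mu h) (PN h n * Q.comp (xp n)) (t : ℚ)) : ℚ) : ℝ) +
        ∑ k ∈ Finset.range (b + 1), pw b h n u t k * (((hasseDeriv k Q).eval (vx n t) : ℚ) : ℝ))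
      ((NL b h n u Q : ℚ) : ℝ) := by
  have h1 := LFp b h n u Q hb hb2 hh hn hQ
  have h2 : HasSum (fun t : ℕ => ∑ k ∈ Finset.range (b + 1), pw b h n u t k *
      (((hasseDeriv k Q).eval (vx n t) : ℚ) : ℝ)) (pert b h n u Q) := by
    rw [pert_eq b h n u Q hQ2]
    apply hasSum_sum_of_ne_finset_zero
    intro t ht
    rw [Finset.mem_range] at ht
    apply Finset.sum_eq_zero
    intro k _
    unfold pw
    rw [if_neg ht, zero_mul]
  have h3 := h1.add h2
  rw [sub_add_cancel] at h3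
  exact h3

/-- the size of the weights -/
theorem pw_le (b h n : ℕ) (u : ℕ → ℚ) (δ : ℝ) (hn : 1 ≤ n) (hδ : 0 ≤ δ)
    (hu : ∀ e, Odd (e - b) → b + 3 ≤ e → e ≤ b + h → |((u e : ℚ) : ℝ) - zr e| ≤ δ) (t k : ℕ) :
    |pw b h n u t k| ≤ δ * (h * 2 ^ (h + b) * (CC (b + 1) h * (n : ℝ) ^ (KK (b + 1) h) *
      2 ^ (8 * n * (b + 1) + 2 * n * h))) := by
  have hC := CC_nonneg (b + 1) h
  unfold pw
  split_ifs with ht
  · unfold pert
    refine (Finset.abs_sum_le_sum_abs _ _).trans ?_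
    have h1 : ∀ i ∈ Finset.Icc 1 h, |((Nat.choose (i - 1 + b) (i - 1) : ℕ) : ℝ) *
        ((rhoL h n i (hH (b + 1) (2 * n) (vx n) t k) : ℚ) : ℝ) * dlt b u i| ≤
        2 ^ (h + b) * (CC (b + 1) h * (n : ℝ) ^ (KK (b + 1) h) * 2 ^ (8 * n * (b + 1) + 2 * n * h)) * δ := by
      intro i hi
      rw [Finset.mem_Icc] at hi
      rw [abs_mul, abs_mul]
      have g1 : |((Nat.choose (i - 1 + b) (i - 1) : ℕ) : ℝ)| ≤ 2 ^ (h + b) := by
        rw [Nat.abs_cast]
        have g2 : Nat.choose (i - 1 + b) (i - 1) ≤ 2 ^ (i - 1 + b) := Nat.choose_le_two_pow _ _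
        have g3 : (2 : ℕ) ^ (i - 1 + b) ≤ 2 ^ (h + b) := Nat.pow_le_pow_right (by norm_num) (by omega)
        exact_mod_cast g2.trans g3
      have g4 := rhoL_le (b + 1) h n i t k hn hi.1 ht
      have g5 : |dlt b u i| ≤ δ := by
        unfold dlt
        split_ifs with hc
        · apply hu
          · rw [Nat.add_sub_cancel]
            exact hc.1
          · omega
          · omega
        · rw [abs_zero]
          exact hδ
      apply mul_le_mul _ g5 (abs_nonneg _) (by positivity)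
      exact mul_le_mul g1 g4 (abs_nonneg _) (by positivity)
    refine (Finset.sum_le_sum h1).trans (le_of_eq ?_)
    rw [Finset.sum_const, Nat.card_Icc, nsmul_eq_mul, Nat.add_sub_cancel]
    ring
  · rw [abs_zero]
    positivity

end

end Pool.Agent.H56Z
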