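import Mathlib
import Pool.Agent.H56Z.Cen

/-!
# Regularity of the commutant, and nilpotent elements which are locally central
-/

set_option autoImplicit false

namespace Pool.Agent.H56Z

open Matrix Pool.Agent.H40ZL

section reg

variable {k : Type*} [Field k] {n : Type*} [Fintype n] [DecidableEq n]

/-- The commutant of a semisimple set of matrices is a von Neumann regular ring. -/
theorem exists_reg (A : Set (Matrix n n k)) (hA : SSimple A) (x : Matrix n n k)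
    (hx : ∀ a ∈ A, a * x = x * a) : ∃ y : Matrix n n k, (∀ a ∈ A, a * y = y * a) ∧ x * y * x = x := by
  have hK : Stable A (LinearMap.ker (Matrix.toLin' x)) := by
    intro a ha v hv
    rw [LinearMap.mem_ker, Matrix.toLin'_apply] at hv ⊢
    rw [mulVec_mulVec, ← hx a ha, ← mulVec_mulVec, hv, mulVec_zero]
  have hR : Stable A (LinearMap.range (Matrix.toLin' x)) := by
    rintro a ha _ ⟨v, rfl⟩
    refine ⟨a *ᵥ v, ?_⟩
    rw [Matrix.toLin'_apply, Matrix.toLin'_apply, mulVec_mulVec, ← hx a ha, mulVec_mulVec]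
  obtain ⟨C, hC, hKC⟩ := hA _ hK
  obtain ⟨R', hR', hRR'⟩ := hA _ hR
  obtain ⟨p, p1, p2, p3⟩ := P2.proj_of_compl hR hR' hRR'
  have hCx : ∀ c ∈ C, x *ᵥ c ∈ LinearMap.range (Matrix.toLin' x) := fun c _ => ⟨c, Matrix.toLin'_apply x c⟩
  let f : C →ₗ[k] LinearMap.range (Matrix.toLin' x) :=
    ((Matrix.toLin' x).comp C.subtype).codRestrict _ fun c => ⟨c, rfl⟩
  have hfa : ∀ c : C, ((f c : n → k)) = x *ᵥ (c : n → k) := fun c => by
    change (Matrix.toLin' x) (c : n → k) = _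
    rw [Matrix.toLin'_apply]
  have hfi : Function.Injective f := by
    rw [← LinearMap.ker_eq_bot, LinearMap.ker_eq_bot']
    intro c hc
    have h1 : x *ᵥ (c : n → k) = 0 := by rw [← hfa, hc]; rfl
    have h2 : (c : n → k) ∈ LinearMap.ker (Matrix.toLin' x) := by
      rw [LinearMap.mem_ker, Matrix.toLin'_apply, h1]
    exact Subtype.ext ((Submodule.disjoint_def.1 hKC.disjoint) _ h2 c.2)
  have hfs : Function.Surjective f := by
    rintro ⟨_, v, rfl⟩
    have hv : v ∈ LinearMap.ker (Matrix.toLin' x) ⊔ C := by rw [hKC.sup_eq_top]; trivial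
    obtain ⟨w, hw, c, hc, rfl⟩ := Submodule.mem_sup.1 hv
    refine ⟨⟨c, hc⟩, Subtype.ext ?_⟩
    rw [hfa]
    change x *ᵥ c = Matrix.toLin' x (w + c)
    rw [map_add, LinearMap.mem_ker.1 hw, zero_add, Matrix.toLin'_apply]
  let e : C ≃ₗ[k] LinearMap.range (Matrix.toLin' x) := LinearEquiv.ofBijective f ⟨hfi, hfs⟩
  have he : ∀ c : C, e c = f c := fun c => rfl
  let pr : (n → k) →ₗ[k] LinearMap.range (Matrix.toLin' x) :=
    (Matrix.toLin' p).codRestrict _ fun v => by rw [Matrix.toLin'_apply]; exact p2 v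
  have hpr : ∀ v, ((pr v : n → k)) = p *ᵥ v := fun v => by
    change (Matrix.toLin' p) v = _
    rw [Matrix.toLin'_apply]
  let g : (n → k) →ₗ[k] (n → k) := C.subtype ∘ₗ e.symm.toLinearMap ∘ₗ pr
  have hg : ∀ v, g v = ((e.symm (pr v) : C) : n → k) := fun v => rfl
  set y : Matrix n n k := LinearMap.toMatrix' g with hy
  have hya : ∀ v, y *ᵥ v = g v := fun v => by rw [hy, ← Matrix.toLin'_apply, Matrix.toLin'_toMatrix']
  have hycomm : ∀ a ∈ A, a * y = y * a := by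
    intro a ha
    apply (Matrix.toLin' (R := k) (m := n) (n := n)).injective
    refine LinearMap.ext fun v => ?_
    rw [Matrix.toLin'_apply, Matrix.toLin'_apply, ← mulVec_mulVec, ← mulVec_mulVec, hya, hya, hg, hg]
    -- both sides are in `C` with the same image
    have h1 : a *ᵥ ((e.symm (pr v) : C) : n → k) ∈ C := hC a ha _ (e.symm (pr v)).2
    have h2 : e ⟨_, h1⟩ = pr (a *ᵥ v) := by
      apply Subtype.ext
      rw [he, hfa, hpr]
      change x *ᵥ (a *ᵥ ((e.symm (pr v) : C) : n → k)) = p *ᵥ (a *ᵥ v)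
      have r1 : ∀ w, x *ᵥ (a *ᵥ w) = a *ᵥ (x *ᵥ w) := fun w => by
        rw [mulVec_mulVec, ← hx a ha, ← mulVec_mulVec]
      have r2 : p *ᵥ (a *ᵥ v) = a *ᵥ (p *ᵥ v) := by rw [mulVec_mulVec, ← p1 a ha, ← mulVec_mulVec]
      rw [r1, r2, ← hfa, ← hpr, ← he, e.apply_symm_apply]
    have h3 : (⟨_, h1⟩ : C) = e.symm (pr (a *ᵥ v)) := by rw [← h2, e.symm_apply_apply]
    exact congrArg Subtype.val h3
  refine ⟨y, hycomm, ?_⟩
  have hyx : ∀ c ∈ C, (y * x) *ᵥ c = c := by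
    intro c hc
    rw [← mulVec_mulVec, hya, hg]
    have h1 : pr (x *ᵥ c) = e ⟨c, hc⟩ := by
      apply Subtype.ext
      rw [hpr, he, hfa]
      exact p3 _ (hCx c hc)
    rw [h1, e.symm_apply_apply]
  apply (Matrix.toLin' (R := k) (m := n) (n := n)).injective
  refine LinearMap.ext fun v => ?_
  rw [Matrix.toLin'_apply, Matrix.toLin'_apply]
  have hv : v ∈ LinearMap.ker (Matrix.toLin' x) ⊔ C := by rw [hKC.sup_eq_top]; trivial
  obtain ⟨w, hw, c, hc, rfl⟩ := Submodule.mem_sup.1 hv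
  rw [LinearMap.mem_ker, Matrix.toLin'_apply] at hw
  have e1 : (x * y * x) *ᵥ w = 0 := by rw [← mulVec_mulVec, hw, mulVec_zero]
  have e2 : (x * y * x) *ᵥ c = x *ᵥ c := by rw [mul_assoc, ← mulVec_mulVec, hyx c hc]
  rw [mulVec_add, mulVec_add, e1, e2, hw]

/-- A nilpotent element of the commutant which is central on a subspace is zero there. -/
theorem nilp_kill (A : Set (Matrix n n k)) (hA : SSimple A) (ν : Matrix n n k) (hν : IsNilpotent ν)
    (hc : ∀ a ∈ A, a * ν = ν * a) (W : Submodule k (n → k))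
    (hW : ∀ y : Matrix n n k, (∀ a ∈ A, a * y = y * a) → ∀ v ∈ W, y *ᵥ v ∈ W ∧ ν *ᵥ (y *ᵥ v) = y *ᵥ (ν *ᵥ v)) :
    ∀ v ∈ W, ν *ᵥ v = 0 := by
  obtain ⟨y, hy, hyν⟩ := exists_reg A hA ν hc
  have key : ∀ m : ℕ, ∀ v ∈ W, ∃ w, ν *ᵥ v = (ν ^ (m + 1)) *ᵥ w := by
    intro m
    induction m with
    | zero =>
      intro v _
      exact ⟨v, by rw [zero_add, pow_one]⟩
    | succ m ih =>
      intro v hv
      obtain ⟨h1, h2⟩ := hW y hy v hv
      obtain ⟨w, hw⟩ := ih _ h1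
      refine ⟨w, ?_⟩
      calc ν *ᵥ v = (ν * y * ν) *ᵥ v := by rw [hyν]
        _ = ν *ᵥ (y *ᵥ (ν *ᵥ v)) := by rw [mulVec_mulVec, mulVec_mulVec, mul_assoc]
        _ = ν *ᵥ (ν *ᵥ (y *ᵥ v)) := by rw [h2]
        _ = ν *ᵥ ((ν ^ (m + 1)) *ᵥ w) := by rw [hw]
        _ = (ν ^ (m + 1 + 1)) *ᵥ w := by rw [mulVec_mulVec, ← pow_succ']
  obtain ⟨m, hm⟩ := hν
  intro v hv
  obtain ⟨w, hw⟩ := key m v hv
  rw [hw, pow_succ, hm, zero_mul, zero_mulVec]

end reg

end Pool.Agent.H56Z
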