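import Mathlib
import Pool.Agent.H56Z.Main
import Pool.Agent.H40ZL.Pole
import Pool.Agent.H40ZL.Fibre

/-!
# The semisimple twist of a representation of a compact group
-/

set_option autoImplicit false
set_option linter.unusedSectionVars false

namespace Pool.Agent.H56Z

open Matrix Pool.Agent.H40ZL

section eig

variable {k G : Type*} [Field k] [Field G] [Algebra k G] {n : Type*} [Fintype n] [DecidableEq n]

/-- The number of distinct eigenvalues is not changed by a commuting nilpotent matrix. -/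
theorem nd_eq (M M' : Matrix n n k) (hc : Commute M M') (hn : IsNilpotent (M' - M)) : nd G M = nd G M' := by
  classical
  unfold nd
  congr 1
  ext z
  have key : ∀ A B : Matrix n n G, Commute A B → IsNilpotent (B - A) →
      IsUnit (algebraMap G (Matrix n n G) z - A) → IsUnit (algebraMap G (Matrix n n G) z - B) := by
    intro A B hAB hN hu
    have e1 : algebraMap G (Matrix n n G) z - B = -(B - A) + (algebraMap G (Matrix n n G) z - A) := by abel
    rw [e1, add_comm]
    refine hN.neg.isUnit_add_left_of_commute hu ?_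
    have e2 : Commute (B - A) (algebraMap G (Matrix n n G) z - A) :=
      (show Commute (B - A) (algebraMap G (Matrix n n G) z) from (Algebra.commutes z (B - A)).symm).sub_right
        (hAB.symm.sub_left (Commute.refl A))
    exact e2.neg_left
  have hmap : ∀ A B : Matrix n n k, (A - B).map (algebraMap k G) = A.map (algebraMap k G) - B.map (algebraMap k G) :=
    fun A B => map_sub (algebraMap k G).mapMatrix A B
  have hc' : Commute (M.map (algebraMap k G)) (M'.map (algebraMap k G)) := hc.map (algebraMap k G).mapMatrix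
  have hn' : IsNilpotent (M'.map (algebraMap k G) - M.map (algebraMap k G)) := by
    rw [← hmap]
    exact hn.map (algebraMap k G).mapMatrix
  have hmem : ∀ A : Matrix n n k, z ∈ (A.charpoly.map (algebraMap k G)).roots.toFinset ↔
      ¬ IsUnit (algebraMap G (Matrix n n G) z - A.map (algebraMap k G)) := by
    intro A
    rw [Multiset.mem_toFinset, ← Matrix.charpoly_map, Polynomial.mem_roots (Matrix.charpoly_monic _).ne_zero,
      ← Matrix.mem_spectrum_iff_isRoot_charpoly, spectrum.mem_iff]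
  rw [hmem, hmem, not_iff_not]
  constructor
  · exact key _ _ hc' hn'
  · refine key _ _ hc'.symm ?_
    have h := hn'.neg
    rwa [neg_sub] at h

end eig

section exp

variable {k : Type*} [Field k] [CharZero k] {n : Type*} [Fintype n] [DecidableEq n]

theorem commute_exp {x c : Matrix n n k} (h : Commute x c) : Commute x (IsNilpotent.exp c) := by
  have e1 : IsNilpotent.exp c ∈ Algebra.adjoin k {c} := exp_mem _ (Algebra.self_mem_adjoin_singleton k c)
  exact Algebra.commute_of_mem_adjoin_singleton_of_commute e1 h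

theorem smul_nilp {ν : Matrix n n k} (hν : IsNilpotent ν) (c : k) : IsNilpotent (c • ν) := hν.smul c

/-- `exp (-(c ν))` -/
noncomputable def ee (ν : Matrix n n k) (c : k) : Matrix n n k := IsNilpotent.exp (-(c • ν))

theorem ee_add {ν : Matrix n n k} (hν : IsNilpotent ν) (c d : k) : ee ν (c + d) = ee ν c * ee ν d := by
  unfold ee
  rw [add_smul, neg_add, IsNilpotent.exp_add_of_commute _ (smul_nilp hν c).neg (smul_nilp hν d).neg]
  exact (((Commute.refl ν).smul_left c).smul_right d).neg_left.neg_right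

theorem ee_zero (ν : Matrix n n k) : ee ν 0 = 1 := by
  unfold ee
  rw [zero_smul, neg_zero, IsNilpotent.exp_zero]

theorem ee_comm {ν x : Matrix n n k} (h : Commute x ν) (c : k) : Commute x (ee ν c) := by
  unfold ee
  exact commute_exp (h.smul_right c).neg_right

theorem ee_sum {ν : Matrix n n k} {N : ℕ} (hν : ν ^ N = 0) (c : k) :
    ee ν c = ∑ i ∈ Finset.range N, (((i.factorial : ℚ)⁻¹ • (1 : k)) * (-c) ^ i) • ν ^ i := by
  have h1 : (-(c • ν)) ^ N = 0 := by
    rw [← neg_smul, smul_pow, hν, smul_zero]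
  unfold ee
  rw [IsNilpotent.exp_eq_sum h1]
  refine Finset.sum_congr rfl fun i _ => ?_
  rw [← neg_smul, smul_pow, mul_smul]
  have e1 : ∀ (r : ℚ) (b : Matrix n n k), r • b = (r • (1 : k)) • b := fun r b => by rw [smul_assoc, one_smul]
  rw [e1]

theorem ee_cont [TopologicalSpace k] [IsTopologicalRing k] {ν : Matrix n n k} (hν : IsNilpotent ν) :
    Continuous (ee ν) := by
  obtain ⟨N, hN⟩ := hν
  have h1 : ee ν = fun c => ∑ i ∈ Finset.range N, (((i.factorial : ℚ)⁻¹ • (1 : k)) * (-c) ^ i) • ν ^ i :=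
    funext fun c => ee_sum hN c
  rw [h1]
  refine continuous_finsetSum _ fun i _ => ?_
  exact ((continuous_const.mul (continuous_neg.pow i)).smul continuous_const)

end exp

section rep

variable {k : Type*} [Field k] [CharZero k] {n : Type*} [Fintype n] [DecidableEq n] {Γ : Type*} [Group Γ]

/-- the representation `ρ σ * exp (-(δ σ) ν)` -/
noncomputable def twist (ρ : Γ →* Matrix n n k) (δ : Γ → k) (hδ : ∀ σ τ, δ (σ * τ) = δ σ + δ τ) (ν : Matrix n n k)
    (hν : IsNilpotent ν) (hc : ∀ σ, Commute (ρ σ) ν) : Γ →* Matrix n n k where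
  toFun σ := ρ σ * ee ν (δ σ)
  map_one' := by
    have h1 : δ 1 = 0 := by
      have h2 := hδ 1 1
      rw [mul_one] at h2
      simpa using h2
    rw [map_one, h1, ee_zero, mul_one]
  map_mul' σ τ := by
    rw [map_mul, hδ, ee_add hν]
    calc ρ σ * ρ τ * (ee ν (δ σ) * ee ν (δ τ)) = ρ σ * (ρ τ * ee ν (δ σ)) * ee ν (δ τ) := by simp only [mul_assoc]
      _ = ρ σ * (ee ν (δ σ) * ρ τ) * ee ν (δ τ) := by rw [(ee_comm (hc τ) (δ σ)).eq]
      _ = ρ σ * ee ν (δ σ) * (ρ τ * ee ν (δ τ)) := by simp only [mul_assoc]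

theorem twist_apply (ρ : Γ →* Matrix n n k) (δ : Γ → k) (hδ : ∀ σ τ, δ (σ * τ) = δ σ + δ τ) (ν : Matrix n n k)
    (hν : IsNilpotent ν) (hc : ∀ σ, Commute (ρ σ) ν) (σ : Γ) : twist ρ δ hδ ν hν hc σ = ρ σ * ee ν (δ σ) := rfl

theorem twist_nd {G : Type*} [Field G] [Algebra k G] (ρ : Γ →* Matrix n n k) (δ : Γ → k)
    (hδ : ∀ σ τ, δ (σ * τ) = δ σ + δ τ) (ν : Matrix n n k)
    (hν : IsNilpotent ν) (hc : ∀ σ, Commute (ρ σ) ν) (σ : Γ) : nd G (twist ρ δ hδ ν hν hc σ) = nd G (ρ σ) := by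
  rw [twist_apply]
  have h1 : Commute (ρ σ) (ee ν (δ σ)) := ee_comm (hc σ) _
  have h2 : IsNilpotent (ee ν (δ σ) - 1) := IsNilpotent.isNilpotent_exp_sub_one (smul_nilp hν _).neg
  symm
  refine nd_eq _ _ ((Commute.refl _).mul_right h1) ?_
  have h3 : ρ σ * ee ν (δ σ) - ρ σ = ρ σ * (ee ν (δ σ) - 1) := by rw [mul_sub, mul_one]
  rw [h3]
  exact (h1.sub_right (Commute.one_right _)).isNilpotent_mul_left h2

/-- If one element with `δ σ ≠ 0` is semisimple, the correction is zero. -/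
theorem corr_zero (ρ : Γ →* Matrix n n k) (δ : Γ → k) (hδ : ∀ σ τ, δ (σ * τ) = δ σ + δ τ) (ν : Matrix n n k)
    (hν : IsNilpotent ν) (hc : ∀ σ, Commute (ρ σ) ν) (hss : SSimple (Set.range (twist ρ δ hδ ν hν hc))) (σ : Γ)
    (hσ : δ σ ≠ 0) (h : Module.End.IsSemisimple (Matrix.toLin' (ρ σ))) : ν = 0 := by
  refine trace_nondeg _ hss ν ?_ fun y hy => ?_
  · rintro _ ⟨τ, rfl⟩
    rw [twist_apply]
    exact ((hc τ).mul_left (ee_comm (Commute.refl ν) _).symm).eq
  · -- `y` commutes with the unipotent part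
    have hu : IsUnit (ρ σ) := ⟨⟨ρ σ, ρ σ⁻¹, by rw [← map_mul, mul_inv_cancel, map_one],
      by rw [← map_mul, inv_mul_cancel, map_one]⟩, rfl⟩
    have h1 := exp_mem_adjoin (k := k) (ρ σ) (-(δ σ • ν)) ((hc σ).smul_right _).neg_right h hu (smul_nilp hν _).neg
    have h2 : Commute y (twist ρ δ hδ ν hν hc σ) := (hy _ ⟨σ, rfl⟩).symm
    rw [twist_apply] at h2
    have h3 : Commute y (-(δ σ • ν)) := (Algebra.commute_of_mem_adjoin_singleton_of_commute h1 h2)
    have h4 : Commute y ν := by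
      have h5 := (h3.neg_right).smul_right (δ σ)⁻¹
      rwa [neg_neg, smul_smul, inv_mul_cancel₀ hσ, one_smul] at h5
    exact (Matrix.isNilpotent_trace_of_isNilpotent (h4.symm.isNilpotent_mul_right hν)).eq_zero

end rep

section top

variable {F : Type*} [Field F] [CharZero F] [TopologicalSpace F] [IsTopologicalRing F] [T1Space F]
  {Γ : Type*} [Group Γ] [TopologicalSpace Γ] [IsTopologicalGroup Γ] {n : Type*} [Fintype n] [DecidableEq n]

theorem exists_twist (ρ : Γ →* Matrix n n F) (hρ : Continuous ρ) (N : Subgroup Γ) [hN : N.Normal]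
    (hss : SSimple (ρ '' (N : Set Γ))) (σ₁ : Γ) (hgen : (N ⊔ Subgroup.zpowers σ₁).topologicalClosure = ⊤)
    (δ : Γ → F) (hδc : Continuous δ) (hδ : ∀ σ τ, δ (σ * τ) = δ σ + δ τ) (hδN : ∀ x ∈ N, δ x = 0) (hδ1 : δ σ₁ = 1) :
    ∃ (ν : Matrix n n F) (hν : IsNilpotent ν) (hc : ∀ σ, Commute (ρ σ) ν),
      SSimple (Set.range (twist ρ δ hδ ν hν hc)) := by
  have hinv : ∀ x : Γ, ρ x * ρ x⁻¹ = 1 := fun x => by rw [← map_mul, mul_inv_cancel, map_one]
  obtain ⟨ν, hν, hνN, hνσ, hins⟩ := exists_correction (ρ '' (N : Set Γ)) hss (ρ σ₁) (ρ σ₁⁻¹) (hinv σ₁) (by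
    rintro _ ⟨x, hx, rfl⟩
    exact ⟨σ₁ * x * σ₁⁻¹, hN.conj_mem x hx σ₁, by rw [map_mul, map_mul]⟩) (by
    rintro _ ⟨x, hx, rfl⟩
    refine ⟨σ₁⁻¹ * x * σ₁, ?_, by rw [map_mul, map_mul]⟩
    have := hN.conj_mem x hx σ₁⁻¹
    rwa [inv_inv] at this)
  -- `ν` commutes with everything
  have hc : ∀ σ, Commute (ρ σ) ν := by
    let Cs : Subgroup Γ :=
      { carrier := {σ | ρ σ * ν = ν * ρ σ}
        mul_mem' := by
          intro a b ha hb
          change ρ (a * b) * ν = ν * ρ (a * b)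
          rw [map_mul, mul_assoc, show ρ b * ν = ν * ρ b from hb, ← mul_assoc, show ρ a * ν = ν * ρ a from ha,
            mul_assoc]
        one_mem' := by
          change ρ 1 * ν = ν * ρ 1
          rw [map_one, one_mul, mul_one]
        inv_mem' := by
          intro a ha
          change ρ a⁻¹ * ν = ν * ρ a⁻¹
          have h1 : ρ a * ν = ν * ρ a := ha
          have h2 : ρ a⁻¹ * ρ a = 1 := by rw [← map_mul, inv_mul_cancel, map_one]
          calc ρ a⁻¹ * ν = ρ a⁻¹ * (ν * ρ a) * ρ a⁻¹ := by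
                rw [mul_assoc, mul_assoc, hinv a, mul_one]
            _ = (ρ a⁻¹ * ρ a) * ν * ρ a⁻¹ := by rw [← h1]; simp only [mul_assoc]
            _ = ν * ρ a⁻¹ := by rw [h2, one_mul] }
    have hcl : IsClosed (Cs : Set Γ) := by
      have h1 : (Cs : Set Γ) = {σ | ρ σ * ν = ν * ρ σ} := rfl
      rw [h1]
      exact isClosed_eq (hρ.matrix_mul continuous_const) (continuous_const.matrix_mul hρ)
    have hle : (N ⊔ Subgroup.zpowers σ₁).topologicalClosure ≤ Cs := by
      refine Subgroup.topologicalClosure_minimal _ (sup_le ?_ ?_) hcl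
      · intro x hx
        exact hνN _ ⟨x, hx, rfl⟩
      · rw [Subgroup.zpowers_le]
        exact hνσ
    rw [hgen] at hle
    exact fun σ => hle (Subgroup.mem_top σ)
  refine ⟨ν, hν, hc, ?_⟩
  set ρ' := twist ρ δ hδ ν hν hc with hρ'
  have hρ'c : Continuous ρ' := by
    have h1 : (ρ' : Γ → Matrix n n F) = fun σ => ρ σ * ee ν (δ σ) := rfl
    rw [h1]
    exact hρ.matrix_mul ((ee_cont hν).comp hδc)
  have hρ'N : ∀ x ∈ N, ρ' x = ρ x := by
    intro x hx
    rw [hρ', twist_apply, hδN x hx, ee_zero, mul_one]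
  have hρ'1 : ρ' σ₁ = ρ σ₁ * IsNilpotent.exp (-ν) := by
    rw [hρ', twist_apply, hδ1]
    unfold ee
    rw [one_smul]
  intro U hU
  obtain ⟨U', hU', hcp⟩ := hins U (by
    rintro x (rfl | ⟨y, hy, rfl⟩) v hv
    · rw [← hρ'1]
      exact hU _ ⟨σ₁, rfl⟩ v hv
    · rw [← hρ'N y hy]
      exact hU _ ⟨y, rfl⟩ v hv)
  refine ⟨U', ?_, hcp⟩
  have h2 : (N ⊔ Subgroup.zpowers σ₁).topologicalClosure ≤ stab ρ' U' := by
    refine Subgroup.topologicalClosure_minimal _ ?_ (stab_closed ρ' hρ'c U')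
    refine sup_le ?_ ?_
    · intro x hx
      refine ⟨fun v hv => ?_, fun v hv => ?_⟩
      · rw [hρ'N x hx]
        exact hU' _ (Set.mem_insert_of_mem _ ⟨x, hx, rfl⟩) v hv
      · rw [hρ'N _ (N.inv_mem hx)]
        exact hU' _ (Set.mem_insert_of_mem _ ⟨x⁻¹, N.inv_mem hx, rfl⟩) v hv
    · rw [Subgroup.zpowers_le]
      have h3 : ∀ v ∈ U', ρ' σ₁ *ᵥ v ∈ U' := fun v hv => by
        rw [hρ'1]
        exact hU' _ (Set.mem_insert _ _) v hv
      refine ⟨h3, P1.inv_stable (σ := ρ' σ₁) (τ := ρ' σ₁⁻¹) ?_ U' h3⟩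
      rw [← map_mul, mul_inv_cancel, map_one]
  rw [hgen] at h2
  rintro _ ⟨x, rfl⟩ v hv
  exact (h2 (Subgroup.mem_top x)).1 v hv

end top

end Pool.Agent.H56Z
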