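import Mathlib
import Pool.Agent.H56Z.Reg
import Pool.Agent.H56Z.Rep
import Pool.Agent.H40ZL.Pole

/-!
# The eigenvalue one and the correction
-/

set_option autoImplicit false
set_option linter.unusedSectionVars false

namespace Pool.Agent.H56Z

open Matrix Module Pool.Agent.H40ZL Pool.Agent.H40LT

section alg

variable {k : Type*} [Field k] {n : Type*} [Fintype n] [DecidableEq n]

theorem vec_comm {x y : Matrix n n k} (h : Commute x y) (v : n → k) : x *ᵥ (y *ᵥ v) = y *ᵥ (x *ᵥ v) := by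
  rw [mulVec_mulVec, h.eq, mulVec_mulVec]

/-- semisimple at `0`, in words of vectors -/
def SS0 (T : Matrix n n k) : Prop := ∀ (j : ℕ) (v : n → k), (T ^ j) *ᵥ v = 0 → T *ᵥ v = 0

theorem toLin_pow (T : Matrix n n k) (j : ℕ) (v : n → k) : ((Matrix.toLin' T) ^ j) v = (T ^ j) *ᵥ v := by
  rw [← Matrix.toLin'_pow, Matrix.toLin'_apply]

theorem ss0_iff (N : Matrix n n k) : nul (N - 1) = mult1 N ↔ SS0 (N - 1) := by
  have hle : LinearMap.ker (Matrix.toLin' (N - 1)) ≤ Module.End.maxGenEigenspace (Matrix.toLin' (N - 1)) 0 := by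
    intro v hv
    rw [mem_max]
    exact ⟨1, by rw [pow_one]; exact hv⟩
  have hm : finrank k (Module.End.maxGenEigenspace (Matrix.toLin' (N - 1)) 0) = mult1 N := by
    rw [mult1_eq, LinearMap.finrank_maxGenEigenspace_eq, Matrix.charpoly_toLin']
  constructor
  · intro h j v hv
    have h1 : LinearMap.ker (Matrix.toLin' (N - 1)) = Module.End.maxGenEigenspace (Matrix.toLin' (N - 1)) 0 :=
      Submodule.eq_of_le_of_finrank_eq hle (by rw [hm]; exact h)
    have h2 : v ∈ Module.End.maxGenEigenspace (Matrix.toLin' (N - 1)) 0 := by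
      rw [mem_max]
      exact ⟨j, by rw [toLin_pow]; exact hv⟩
    rw [← h1, LinearMap.mem_ker, Matrix.toLin'_apply] at h2
    exact h2
  · intro h
    apply le_antisymm
    · rw [← hm]
      exact Submodule.finrank_mono hle
    · rw [← hm]
      refine Submodule.finrank_mono ?_
      intro v hv
      rw [mem_max] at hv
      obtain ⟨j, hj⟩ := hv
      rw [toLin_pow] at hj
      rw [LinearMap.mem_ker, Matrix.toLin'_apply]
      exact h j v hj

/-- sum of a locally nilpotent and a nilpotent matrix which commute -/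
theorem sum_kill (p q : Matrix n n k) (h : Commute p q) (J J' : ℕ) (u : n → k) (hp : (p ^ J) *ᵥ u = 0)
    (hq : q ^ J' = 0) : ((p + q) ^ (J + J')) *ᵥ u = 0 := by
  rw [h.add_pow, Matrix.sum_mulVec]
  refine Finset.sum_eq_zero fun m _ => ?_
  by_cases hm : J ≤ m
  · have h1 : p ^ m * q ^ (J + J' - m) * ((J + J').choose m : Matrix n n k) =
        (((J + J').choose m : Matrix n n k) * q ^ (J + J' - m) * p ^ (m - J)) * p ^ J := by
      have e1 : Commute (p ^ m) (q ^ (J + J' - m)) := h.pow_pow _ _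
      rw [e1.eq, (Nat.cast_commute _ _).symm.eq, mul_assoc, mul_assoc, ← pow_add, Nat.sub_add_cancel hm]
    rw [h1, ← mulVec_mulVec, hp, mulVec_zero]
  · have h1 : q ^ (J + J' - m) = 0 := pow_eq_zero_of_le (by omega) hq
    rw [h1, mul_zero, zero_mul, zero_mulVec]

theorem nul_inj (T ν : Matrix n n k) (hc : Commute T ν) (hT : SS0 T) (hk : ∀ v, T *ᵥ v = 0 → ν *ᵥ v = 0) (v : n → k)
    (hv : (T * ν) *ᵥ v = 0) : ν *ᵥ v = 0 := by
  have hdis : Disjoint (LinearMap.ker (Matrix.toLin' T)) (LinearMap.range (Matrix.toLin' T)) := by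
    rw [Submodule.disjoint_def]
    rintro _ h1 ⟨w, rfl⟩
    rw [LinearMap.mem_ker, Matrix.toLin'_apply, Matrix.toLin'_apply] at h1
    rw [Matrix.toLin'_apply]
    exact hT 2 w (by rw [pow_two, ← mulVec_mulVec, h1])
  have htop := Submodule.eq_top_of_disjoint _ _ (by
    have := LinearMap.finrank_range_add_finrank_ker (Matrix.toLin' T)
    omega) hdis
  have h1 : v ∈ LinearMap.ker (Matrix.toLin' T) ⊔ LinearMap.range (Matrix.toLin' T) := by rw [htop]; trivial
  obtain ⟨a, ha, _, ⟨z, rfl⟩, rfl⟩ := Submodule.mem_sup.1 h1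
  rw [LinearMap.mem_ker, Matrix.toLin'_apply] at ha
  rw [Matrix.toLin'_apply] at hv ⊢
  rw [mulVec_add, hk a ha, zero_add, vec_comm hc.symm]
  rw [mulVec_add, ← mulVec_mulVec a, hk a ha, mulVec_zero, zero_add, ← mulVec_mulVec, vec_comm hc.symm] at hv
  exact hT 2 _ (by rw [pow_two, ← mulVec_mulVec]; exact hv)

/-- If `ρ0` is semisimple at the eigenvalue `1` then `ν` is zero on its eigenvectors. -/
theorem eig_kill [CharZero k] (A : Set (Matrix n n k)) (hA : SSimple A) (ν : Matrix n n k) (hν : IsNilpotent ν)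
    (hcA : ∀ a ∈ A, a * ν = ν * a) (ρ0 : Matrix n n k) (hc : Commute ρ0 ν) (c : k) (hc0 : c ≠ 0)
    (hmem : ρ0 * ee ν c ∈ A) (hss : SS0 (ρ0 - 1)) : ∀ v, (ρ0 - 1) *ᵥ v = 0 → ν *ᵥ v = 0 := by
  have hee : ee ν c * ee ν (-c) = 1 := by rw [← ee_add hν, add_neg_cancel, ee_zero]
  have hρe : Commute ρ0 (ee ν c) := ee_comm hc c
  have hρe' : Commute ρ0 (ee ν (-c)) := ee_comm hc (-c)
  have hfix : ∀ v, v ∈ LinearMap.ker (Matrix.toLin' (ρ0 - 1)) ↔ ρ0 *ᵥ v = v := by
    intro v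
    rw [LinearMap.mem_ker, Matrix.toLin'_apply, sub_mulVec, one_mulVec, sub_eq_zero]
  have hne : IsNilpotent (ee ν c - 1) := IsNilpotent.isNilpotent_exp_sub_one (smul_nilp hν _).neg
  have hne' : IsNilpotent (ee ν (-c) - 1) := IsNilpotent.isNilpotent_exp_sub_one (smul_nilp hν _).neg
  have hav : ∀ v, ρ0 *ᵥ v = v → (ρ0 * ee ν c) *ᵥ v = ee ν c *ᵥ v := by
    intro v hv
    rw [← mulVec_mulVec, vec_comm hρe, hv]
  have hev : ∀ v, ρ0 *ᵥ v = v → ρ0 *ᵥ (ee ν c *ᵥ v) = ee ν c *ᵥ v := by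
    intro v hv
    rw [vec_comm hρe, hv]
  have hpow : ∀ (j : ℕ) (v : n → k), ρ0 *ᵥ v = v → ((ρ0 * ee ν c - 1) ^ j) *ᵥ v = ((ee ν c - 1) ^ j) *ᵥ v := by
    intro j
    induction j with
    | zero =>
      intro v _
      rw [pow_zero, pow_zero]
    | succ j ih =>
      intro v hv
      have h1 : (ρ0 * ee ν c - 1) *ᵥ v = (ee ν c - 1) *ᵥ v := by
        rw [sub_mulVec, sub_mulVec, hav v hv]
      have h2 : ρ0 *ᵥ ((ee ν c - 1) *ᵥ v) = (ee ν c - 1) *ᵥ v := by
        rw [sub_mulVec, mulVec_sub, hev v hv, one_mulVec, hv]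
      rw [pow_succ, pow_succ, ← mulVec_mulVec, ← mulVec_mulVec, h1, ih _ h2]
  have hstab : ∀ y : Matrix n n k, (∀ a ∈ A, a * y = y * a) → ∀ v, ρ0 *ᵥ v = v → ρ0 *ᵥ (y *ᵥ v) = y *ᵥ v := by
    intro y hy v hv
    obtain ⟨J, hJ⟩ := hne
    obtain ⟨J', hJ'⟩ := hne'
    have hya : Commute (ρ0 * ee ν c - 1) y := ((show Commute (ρ0 * ee ν c) y from hy _ hmem).sub_left
      (Commute.one_left y))
    have h1 : ((ρ0 * ee ν c - 1) ^ J) *ᵥ (y *ᵥ v) = 0 := by
      rw [vec_comm (hya.pow_left J), hpow J v hv, hJ, zero_mulVec, mulVec_zero]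
    have hce : Commute (ρ0 * ee ν c) (ee ν (-c)) := by
      refine hρe'.mul_left ?_
      rw [Commute, SemiconjBy, ← ee_add hν, ← ee_add hν, add_comm]
    have h2 : Commute ((ρ0 * ee ν c - 1) * ee ν (-c)) (ee ν (-c) - 1) := by
      have h3 : Commute ((ρ0 * ee ν c - 1) * ee ν (-c)) (ee ν (-c)) :=
        (hce.sub_left (Commute.one_left _)).mul_left (Commute.refl _)
      exact h3.sub_right (Commute.one_right _)
    have h4 : (((ρ0 * ee ν c - 1) * ee ν (-c)) ^ J) *ᵥ (y *ᵥ v) = 0 := by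
      have h5 : Commute (ρ0 * ee ν c - 1) (ee ν (-c)) := hce.sub_left (Commute.one_left _)
      rw [h5.mul_pow, (h5.pow_pow J J).eq, ← mulVec_mulVec, h1, mulVec_zero]
    have h6 := sum_kill _ _ h2 J J' (y *ᵥ v) h4 hJ'
    have h7 : (ρ0 * ee ν c - 1) * ee ν (-c) + (ee ν (-c) - 1) = ρ0 - 1 := by
      rw [sub_mul, mul_assoc, hee, mul_one, one_mul]
      abel
    rw [h7] at h6
    have h8 := hss _ _ h6
    rwa [sub_mulVec, one_mulVec, sub_eq_zero] at h8
  have hcomm : ∀ y : Matrix n n k, (∀ a ∈ A, a * y = y * a) → ∀ v, ρ0 *ᵥ v = v →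
      ν *ᵥ (y *ᵥ v) = y *ᵥ (ν *ᵥ v) := by
    intro y hy v hv
    have he : ∀ v, ρ0 *ᵥ v = v → ee ν c *ᵥ (y *ᵥ v) = y *ᵥ (ee ν c *ᵥ v) := by
      intro v hv
      rw [← hav v hv, ← hav _ (hstab y hy v hv), vec_comm (show Commute (ρ0 * ee ν c) y from hy _ hmem)]
    have hadj : ∀ x ∈ Algebra.adjoin k {ee ν c}, ∀ v, ρ0 *ᵥ v = v →
        ρ0 *ᵥ (x *ᵥ v) = x *ᵥ v ∧ x *ᵥ (y *ᵥ v) = y *ᵥ (x *ᵥ v) := by
      intro x hx
      induction hx using Algebra.adjoin_induction with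
      | mem x hx =>
        rw [Set.mem_singleton_iff] at hx
        subst hx
        exact fun v hv => ⟨hev v hv, he v hv⟩
      | algebraMap r =>
        intro v hv
        have h1 : ∀ w : n → k, (algebraMap k (Matrix n n k) r) *ᵥ w = r • w := by
          intro w
          rw [Algebra.algebraMap_eq_smul_one, smul_mulVec, one_mulVec]
        rw [h1, h1, mulVec_smul, mulVec_smul, hv]
        exact ⟨rfl, rfl⟩
      | add a b _ _ ha hb =>
        intro v hv
        rw [add_mulVec, mulVec_add, mulVec_add, add_mulVec, (ha v hv).1, (hb v hv).1, (ha v hv).2, (hb v hv).2]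
        exact ⟨rfl, rfl⟩
      | mul a b _ _ ha hb =>
        intro v hv
        have h1 := hb v hv
        have h2 := ha _ h1.1
        rw [← mulVec_mulVec, ← mulVec_mulVec, h1.2]
        exact h2
    have hlog : -(c • ν) ∈ Algebra.adjoin k {ee ν c} := mem_adjoin_exp (k := k) _ (smul_nilp hν c).neg
    have h1 := (hadj _ hlog v hv).2
    rw [neg_mulVec, neg_mulVec, mulVec_neg, smul_mulVec, smul_mulVec, mulVec_smul, neg_inj] at h1
    have h2 := congrArg (fun w => c⁻¹ • w) h1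
    simp only [smul_smul, inv_mul_cancel₀ hc0, one_smul] at h2
    exact h2
  have hk := nilp_kill A hA ν hν hcA (LinearMap.ker (Matrix.toLin' (ρ0 - 1))) (by
    intro y hy v hv
    rw [hfix] at hv ⊢
    exact ⟨hstab y hy v hv, hcomm y hy v hv⟩)
  intro v hv
  refine hk v ?_
  rw [LinearMap.mem_ker, Matrix.toLin'_apply]
  exact hv

/-- If `ρx exp (-c ν)` is semisimple and `ρx - 1` is injective on the range of `ν` then `ρx` is semisimple at `1`. -/
theorem ss0_of_inj [CharZero k] (ρx ν : Matrix n n k) (hν : IsNilpotent ν) (hc : Commute ρx ν) (c : k)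
    (hs : Module.End.IsSemisimple (Matrix.toLin' (ρx * ee ν c)))
    (hinj : ∀ v, ((ρx - 1) * ν) *ᵥ v = 0 → ν *ᵥ v = 0) : SS0 (ρx - 1) := by
  intro j v hv
  have hc1 : Commute (ρx - 1) ν := hc.sub_left (Commute.one_left _)
  have hker : ∀ (j : ℕ) (v : n → k), ((ρx - 1) ^ j) *ᵥ v = 0 → ν *ᵥ v = 0 := by
    intro j
    induction j with
    | zero =>
      intro v hv
      rw [pow_zero, one_mulVec] at hv
      rw [hv, mulVec_zero]
    | succ j ih =>
      intro v hv
      rw [pow_succ, ← mulVec_mulVec] at hv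
      have h1 := ih _ hv
      refine hinj v ?_
      rw [← mulVec_mulVec, ← vec_comm hc1.symm]
      exact h1
  have hexp : ∀ v, ν *ᵥ v = 0 → ee ν c *ᵥ v = v := by
    intro v hv
    obtain ⟨N, hN⟩ := hν
    have hN' : ν ^ (N + 1) = 0 := by rw [pow_succ, hN, zero_mul]
    rw [ee_sum hN' c, Matrix.sum_mulVec, Finset.sum_eq_single 0]
    · simp
    · intro i _ hi
      obtain ⟨i, rfl⟩ := Nat.exists_eq_succ_of_ne_zero hi
      rw [smul_mulVec, pow_succ ν, ← mulVec_mulVec, hv, mulVec_zero, smul_zero]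
    · intro h
      exact absurd (Finset.mem_range.2 (Nat.succ_pos N)) h
  have hpow : ∀ (j : ℕ) (v : n → k), ν *ᵥ v = 0 → ((ρx * ee ν c - 1) ^ j) *ᵥ v = ((ρx - 1) ^ j) *ᵥ v := by
    intro j
    induction j with
    | zero =>
      intro v _
      rw [pow_zero, pow_zero]
    | succ j ih =>
      intro v hv
      have h1 : (ρx * ee ν c - 1) *ᵥ v = (ρx - 1) *ᵥ v := by
        rw [sub_mulVec, sub_mulVec, ← mulVec_mulVec, hexp v hv]
      have h2 : ν *ᵥ ((ρx - 1) *ᵥ v) = 0 := by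
        rw [vec_comm hc1.symm, hv, mulVec_zero]
      rw [pow_succ, pow_succ, ← mulVec_mulVec, ← mulVec_mulVec, h1, ih _ h2]
  have hv0 := hker j v hv
  have h1 := (ss0_iff (ρx * ee ν c)).1 (mult1_of_semisimple _ hs) j v (by rw [hpow j v hv0, hv])
  have h2 := hpow 1 v hv0
  rw [pow_one, pow_one] at h2
  rw [← h2, h1]

end alg

end Pool.Agent.H56Z
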