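import Mathlib
import Pool.Agent.H56Z.TateA

/-!
# The zero-one law at the eigenvalue one
-/

set_option autoImplicit false
set_option linter.unusedSectionVars false
set_option linter.style.haveILetI false

namespace Pool.Agent.H56Z

open Matrix MeasureTheory Module Pool.Agent.H40ZL Pool.Agent.H40GO Pool.Agent.H40LT

section Top

variable {F : Type*} [Field F] [CharZero F] [TopologicalSpace F] {G : Type*} [Field G] [Algebra F G]
  [TopologicalSpace G] [IsTopologicalRing G] [T2Space G] [IsAlgClosed G] {Γ : Type*} [Group Γ] [TopologicalSpace Γ]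
  [IsTopologicalGroup Γ] [CompactSpace Γ] [MeasurableSpace Γ] [BorelSpace Γ] {n : Type*} [Fintype n] [DecidableEq n]

theorem tate_pole (hFG : Continuous (algebraMap F G)) (μ : Measure Γ) [IsFiniteMeasure μ]
    [μ.IsMulLeftInvariant] [μ.InnerRegularCompactLTTop] [μ.IsOpenPosMeasure]
    (ρ : Γ →* Matrix n n F) (hρ : Continuous ρ) (ν : Matrix n n F) (hν : IsNilpotent ν)
    (hc : ∀ σ, Commute (ρ σ) ν) (δ : Γ → F) (hδ : ∀ σ τ, δ (σ * τ) = δ σ + δ τ)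
    (hss : SSimple (Set.range (twist ρ δ hδ ν hν hc))) :
    ∃ Δ : Subgroup Γ, Δ.Normal ∧ IsOpen (Δ : Set Γ) ∧ (Rigid (bc G ρ) ⊤ → Δ = ⊤) ∧
      ((∀ x ∈ Δ, δ x ≠ 0 → nul (ρ x - 1) ≠ mult1 (ρ x)) ∨
      ∃ m : ℕ, (∀ x ∈ Δ, m ≤ nul (ρ x - 1)) ∧
      ∃ Z : Set Γ, IsClosed Z ∧ μ Z = 0 ∧ (∀ x ∈ Z, ∀ τ, τ * x * τ⁻¹ ∈ Z) ∧
        ∀ x ∈ Δ, x ∉ Z → nul (ρ x - 1) = m ∧ mult1 (ρ x) = m) := by
  classical
  have hchar : CharZero G := charZero_of_injective_algebraMap (algebraMap F G).injective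
  have hU := bc_cont (G := G) hFG ρ hρ
  obtain ⟨Δ, hΔn, hΔo, hΔ, hΔt⟩ := exists_delta (bc G ρ) hU
  refine ⟨Δ, hΔn, hΔo, hΔt, ?_⟩
  by_cases hex : ∃ x₀ ∈ Δ, δ x₀ ≠ 0 ∧ nul (ρ x₀ - 1) = mult1 (ρ x₀)
  swap
  · left
    intro x hx hδx h
    exact hex ⟨x, hx, hδx, h⟩
  right
  obtain ⟨x₀, hx₀, hδ₀, hs₀⟩ := hex
  obtain ⟨R, hR⟩ : ∃ R, R = coefAlg (bc G ρ) 1 := ⟨_, rfl⟩
  have hopf := coefAlg_hopf (bc G ρ) 1
  rw [← hR] at hopf
  haveI : Algebra.FiniteType G R := R.fg_iff_finiteType.mp hopf.fg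
  haveI : IsNoetherianRing R := Algebra.FiniteType.isNoetherianRing G R
  have hcont : ∀ r ∈ R, Continuous r := by
    rw [hR]
    exact cont_coefAlg _ hU
  have hnull : ∀ f ∈ R, (∃ x ∈ Δ, f x ≠ 0) → μ ({x | f x = 0} ∩ Δ) = 0 := by
    intro f hf ⟨x, hx, hfx⟩
    by_contra hcon
    exact hfx (null_zero_on μ R hopf.comul hcont Δ hΔo (by rw [hR]; exact hΔ) f hf hcon x hx)
  have hcoef : ∀ B : Matrix n n F, ∀ j, ∃ f ∈ R, ∀ x, f x = algebraMap F G (((ρ x - 1) * B).charpoly.coeff j) := by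
    rw [hR]
    exact coeff_mem ρ
  have hinv : ∀ x : Γ, ρ x * ρ x⁻¹ = 1 := fun x => by rw [← map_mul, mul_inv_cancel, map_one]
  have hinv' : ∀ x : Γ, ρ x⁻¹ * ρ x = 1 := fun x => by rw [← map_mul, inv_mul_cancel, map_one]
  -- the special element
  have hinj₀ : ∀ v, ((ρ x₀ - 1) * ν) *ᵥ v = 0 → ν *ᵥ v = 0 := by
    have h1 := (ss0_iff (ρ x₀)).1 hs₀
    refine nul_inj (ρ x₀ - 1) ν ((hc x₀).sub_left (Commute.one_left _)) h1 ?_
    refine eig_kill (Set.range (twist ρ δ hδ ν hν hc)) hss ν hν ?_ (ρ x₀) (hc x₀) (δ x₀) hδ₀ ⟨x₀, rfl⟩ h1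
    rintro _ ⟨τ, rfl⟩
    rw [twist_apply]
    exact ((hc τ).mul_left (ee_comm (Commute.refl ν) _).symm).eq
  have hnul₀ : nul ((ρ x₀ - 1) * ν) ≤ nul ν := by
    unfold nul
    refine Submodule.finrank_mono ?_
    intro v hv
    rw [LinearMap.mem_ker, Matrix.toLin'_apply] at hv ⊢
    exact hinj₀ v hv
  obtain ⟨B₀, j₀, hj₀, hB₀⟩ : ∃ (B : Matrix n n F) (j : ℕ), j < nul ν + 1 ∧
      (((ρ x₀ - 1) * ν) * B).charpoly.coeff j ≠ 0 := by
    by_contra hcon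
    push Not at hcon
    have h1 := ker_of_mz (nul ν + 1) ((ρ x₀ - 1) * ν) fun B j hj => hcon B j hj
    omega
  obtain ⟨f₂, hf₂, hf₂e⟩ := hcoef (ν * B₀) j₀
  have hnf₂ := hnull f₂ hf₂ ⟨x₀, hx₀, by
    rw [hf₂e, ← mul_assoc, Ne, map_eq_zero]
    exact hB₀⟩
  have hf₂inj : ∀ x, f₂ x ≠ 0 → ∀ v, ((ρ x - 1) * ν) *ᵥ v = 0 → ν *ᵥ v = 0 := by
    intro x hx v hv
    have h1 : nul ((ρ x - 1) * ν) ≤ nul ν := by
      by_contra hcon
      apply hx
      rw [hf₂e, ← mul_assoc, mz_of_ker (nul ν + 1) ((ρ x - 1) * ν) B₀ (by omega) j₀ hj₀, map_zero]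
    have h2 : LinearMap.ker (Matrix.toLin' ν) ≤ LinearMap.ker (Matrix.toLin' ((ρ x - 1) * ν)) := by
      intro w hw
      rw [LinearMap.mem_ker, Matrix.toLin'_apply] at hw ⊢
      rw [← mulVec_mulVec, hw, mulVec_zero]
    have h3 := Submodule.eq_of_le_of_finrank_le h2 h1
    have h4 : v ∈ LinearMap.ker (Matrix.toLin' ν) := by
      rw [h3, LinearMap.mem_ker, Matrix.toLin'_apply]
      exact hv
    rw [LinearMap.mem_ker, Matrix.toLin'_apply] at h4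
    exact h4
  -- the minimal order
  obtain ⟨m, ⟨x₁, hx₁, hm⟩, hmin⟩ : ∃ m : ℕ, (∃ x ∈ Δ, mult1 (ρ x) = m) ∧ ∀ y ∈ Δ, m ≤ mult1 (ρ y) := by
    have hne : {m : ℕ | ∃ x ∈ Δ, mult1 (ρ x) = m}.Nonempty := ⟨_, 1, Δ.one_mem, rfl⟩
    exact ⟨_, Nat.sInf_mem hne, fun y hy => Nat.sInf_le ⟨y, hy, rfl⟩⟩
  have hmz : ∀ x j, MZ j (ρ x - 1) ↔ j ≤ mult1 (ρ x) := fun x j => by rw [mz_iff, mult1_eq]
  obtain ⟨f, hf, hfe⟩ := hcoef 1 m
  have hf1 : f x₁ ≠ 0 := by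
    intro h0
    rw [hfe, map_eq_zero, mul_one] at h0
    have h1 : MZ (m + 1) (ρ x₁ - 1) := by
      intro j hj
      rcases Nat.lt_succ_iff_lt_or_eq.mp hj with h | h
      · exact (hmz x₁ m).mpr hm.ge j h
      · rw [h]
        exact h0
    rw [hmz, hm] at h1
    omega
  have hnf := hnull f hf ⟨x₁, hx₁, hf1⟩
  have hfmin : ∀ x ∈ Δ, f x ≠ 0 → mult1 (ρ x) = m := by
    intro x hx hfx
    apply le_antisymm _ (hmin x hx)
    by_contra hcon
    apply hfx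
    rw [hfe, mul_one, (hmz x (m + 1)).mpr (by omega) m (Nat.lt_succ_self m), map_zero]
  obtain ⟨Z₁, hZ₁c, hZ₁μ, hZ₁conj, hZ₁⟩ := generic_of_conn (G := G) hFG μ ρ hρ Δ hΔn hΔo hΔ
  -- outside the bad sets
  have hgood : ∀ x ∈ Δ, x ∉ Z₁ → (∀ v, ((ρ x - 1) * ν) *ᵥ v = 0 → ν *ᵥ v = 0) → nul (ρ x - 1) = mult1 (ρ x) := by
    intro x hx hxZ hinj
    rw [ss0_iff]
    refine ss0_of_inj (ρ x) ν hν (hc x) (δ x) ?_ hinj
    refine semisimple_of_max (G := G) (twist ρ δ hδ ν hν hc) hss Δ (hDn := hΔn) x hx fun y hy => ?_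
    rw [twist_nd, twist_nd]
    exact hZ₁ x hx hxZ y hy
  refine ⟨m, ?_, ?_⟩
  · -- semicontinuity of the rank
    intro x hx
    apply ker_of_mz
    intro B j hj
    obtain ⟨g, hg, hge⟩ := hcoef B j
    have h1 : μ ({x | g x = 0} ∩ Δ) ≠ 0 := by
      intro h0
      have h2 : (Δ : Set Γ) ⊆ ({x | g x = 0} ∩ Δ) ∪ (({x | f x = 0} ∩ Δ) ∪ (({x | f₂ x = 0} ∩ Δ) ∪ Z₁)) := by
        intro y hy
        by_cases h3 : y ∈ ({x | f x = 0} ∩ (Δ : Set Γ)) ∪ (({x | f₂ x = 0} ∩ Δ) ∪ Z₁)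
        · exact Or.inr h3
        · left
          refine ⟨?_, hy⟩
          rw [Set.mem_union, Set.mem_union, not_or, not_or] at h3
          have h4 : f y ≠ 0 := fun h => h3.1 ⟨h, hy⟩
          have h4' : f₂ y ≠ 0 := fun h => h3.2.1 ⟨h, hy⟩
          have h5 : nul (ρ y - 1) = m := by
            rw [hgood y hy h3.2.2 (hf₂inj y h4'), hfmin y hy h4]
          change g y = 0
          rw [hge, mz_of_ker m (ρ y - 1) B h5.ge j hj, map_zero]
      have h3 : μ (Δ : Set Γ) = 0 := by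
        refine measure_mono_null h2 ?_
        rw [measure_union_null_iff, measure_union_null_iff, measure_union_null_iff]
        exact ⟨h0, hnf, hnf₂, hZ₁μ⟩
      exact (hΔo.measure_pos μ ⟨1, Δ.one_mem⟩).ne' h3
    have h2 := null_zero_on μ R hopf.comul hcont Δ hΔo (by rw [hR]; exact hΔ) g hg h1 x hx
    rw [hge, map_eq_zero] at h2
    exact h2
  · have hclosed : IsClosed (({x | f x = 0} ∩ (Δ : Set Γ)) ∪ ({x | f₂ x = 0} ∩ (Δ : Set Γ))) :=
      ((isClosed_singleton.preimage (hcont f hf)).inter (Δ.isClosed_of_isOpen hΔo)).union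
        ((isClosed_singleton.preimage (hcont f₂ hf₂)).inter (Δ.isClosed_of_isOpen hΔo))
    obtain ⟨B, hB⟩ : ∃ B : Set Γ, B = {x | x ∈ Δ ∧ (mult1 (ρ x) ≠ m ∨
      ∃ v, ((ρ x - 1) * ν) *ᵥ v = 0 ∧ ν *ᵥ v ≠ 0)} := ⟨_, rfl⟩
    have hBsub : closure B ⊆ ({x | f x = 0} ∩ (Δ : Set Γ)) ∪ ({x | f₂ x = 0} ∩ (Δ : Set Γ)) := by
      refine closure_minimal ?_ hclosed
      rw [hB]
      rintro x ⟨hx1, hx2 | ⟨v, hv1, hv2⟩⟩
      · left
        refine ⟨?_, hx1⟩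
        by_contra h
        exact hx2 (hfmin x hx1 h)
      · right
        refine ⟨?_, hx1⟩
        by_contra h
        exact hv2 (hf₂inj x h v hv1)
    have hBconj : ∀ x ∈ B, ∀ τ, τ * x * τ⁻¹ ∈ B := by
      rw [hB]
      rintro x ⟨hx1, hx2⟩ τ
      refine ⟨hΔn.conj_mem x hx1 τ, ?_⟩
      rcases hx2 with hx2 | ⟨v, hv1, hv2⟩
      · left
        have h1 : (ρ (τ * x * τ⁻¹)).charpoly = (ρ x).charpoly := by
          rw [map_mul, map_mul]
          have h4 := Matrix.charpoly_units_conj (⟨ρ τ, ρ τ⁻¹, hinv τ, hinv' τ⟩ : (Matrix n n F)ˣ) (ρ x)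
          rw [← Matrix.coe_units_inv] at h4
          exact h4
        unfold mult1 at hx2 ⊢
        rw [h1]
        exact hx2
      · right
        refine ⟨ρ τ *ᵥ v, ?_, ?_⟩
        · have h1 : (ρ (τ * x * τ⁻¹) - 1) * ν * ρ τ = ρ τ * ((ρ x - 1) * ν) := by
            rw [map_mul, map_mul, mul_assoc _ ν, ← (hc τ).eq, ← mul_assoc, sub_mul, mul_assoc _ (ρ τ⁻¹), hinv',
              mul_one, one_mul, ← mul_assoc, mul_sub, mul_one]
          rw [mulVec_mulVec, h1, ← mulVec_mulVec, hv1, mulVec_zero]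
        · intro h
          apply hv2
          rw [vec_comm (hc τ).symm] at h
          have h2 := congrArg (fun w => ρ τ⁻¹ *ᵥ w) h
          simp only [mulVec_mulVec, mulVec_zero] at h2
          rw [← mul_assoc, hinv', one_mul] at h2
          exact h2
    refine ⟨closure B ∪ Z₁, isClosed_closure.union hZ₁c, ?_, ?_, ?_⟩
    · rw [measure_union_null_iff]
      refine ⟨measure_mono_null hBsub ?_, hZ₁μ⟩
      rw [measure_union_null_iff]
      exact ⟨hnf, hnf₂⟩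
    · rintro x (hx | hx) τ
      · left
        have hc' : Continuous fun y : Γ => τ * y * τ⁻¹ := by fun_prop
        exact map_mem_closure (f := fun y : Γ => τ * y * τ⁻¹) hc' hx fun y hy => hBconj y hy τ
      · right
        exact hZ₁conj x hx τ
    · intro x hx hxZ
      rw [Set.mem_union, not_or] at hxZ
      have h1 : x ∉ B := fun h => hxZ.1 (subset_closure h)
      rw [hB] at h1
      have h2 : mult1 (ρ x) = m := by
        by_contra h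
        exact h1 ⟨hx, Or.inl h⟩
      have h3 : ∀ v, ((ρ x - 1) * ν) *ᵥ v = 0 → ν *ᵥ v = 0 := by
        intro v hv
        by_contra h
        exact h1 ⟨hx, Or.inr ⟨v, hv, h⟩⟩
      exact ⟨by rw [hgood x hx hxZ.2 h3, h2], h2⟩

end Top

end Pool.Agent.H56Z
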