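import Mathlib
import Pool.Agent.H56Z.TateA

/-!
# The Jordan type at the eigenvalue one and the correction
-/

set_option autoImplicit false
set_option linter.unusedSectionVars false

namespace Pool.Agent.H56Z

open Matrix Module Pool.Agent.H40ZL Pool.Agent.H40LT

section alg

variable {k : Type*} [Field k] {n : Type*} [Fintype n] [DecidableEq n]

theorem mem_ker' (T : Matrix n n k) (v : n → k) : v ∈ LinearMap.ker (Matrix.toLin' T) ↔ T *ᵥ v = 0 := by
  rw [LinearMap.mem_ker, Matrix.toLin'_apply]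

/-- the kernels of the powers are constant from the dimension on -/
theorem pow_stab (T : Matrix n n k) (i : ℕ) (v : n → k) (h : (T ^ i) *ᵥ v = 0) : (T ^ Fintype.card n) *ᵥ v = 0 := by
  have h1 : v ∈ Module.End.maxGenEigenspace (Matrix.toLin' T) 0 := by
    rw [mem_max]
    exact ⟨i, by rw [toLin_pow]; exact h⟩
  rw [Module.End.maxGenEigenspace_eq_genEigenspace_finrank, Module.End.mem_genEigenspace_nat, zero_smul, sub_zero,
    LinearMap.mem_ker, toLin_pow, Module.finrank_fintype_fun_eq_card] at h1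
  exact h1

theorem nul_pow_card (N : Matrix n n k) : nul ((N - 1) ^ Fintype.card n) = mult1 N := by
  have hm : finrank k (Module.End.maxGenEigenspace (Matrix.toLin' (N - 1)) 0) = mult1 N := by
    rw [mult1_eq, LinearMap.finrank_maxGenEigenspace_eq, Matrix.charpoly_toLin']
  have he : LinearMap.ker (Matrix.toLin' ((N - 1) ^ Fintype.card n)) =
      Module.End.maxGenEigenspace (Matrix.toLin' (N - 1)) 0 := by
    ext v
    rw [mem_ker', mem_max]
    constructor
    · intro h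
      exact ⟨_, by rw [toLin_pow]; exact h⟩
    · rintro ⟨j, hj⟩
      rw [toLin_pow] at hj
      exact pow_stab _ j v hj
  rw [← hm, ← he]
  rfl

theorem ker_split (S μ : Matrix n n k) (hc : Commute S μ) (hS : ∀ v, S *ᵥ (S *ᵥ v) = 0 → S *ᵥ v = 0) :
    nul (S * μ) + finrank k ((LinearMap.ker (Matrix.toLin' μ) ⊓ LinearMap.ker (Matrix.toLin' S) : Submodule k (n → k))) =
      nul μ + nul S := by
  have h1 : LinearMap.ker (Matrix.toLin' (S * μ)) = LinearMap.ker (Matrix.toLin' μ) ⊔ LinearMap.ker (Matrix.toLin' S) := by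
    apply le_antisymm
    · have hdis : Disjoint (LinearMap.ker (Matrix.toLin' S)) (LinearMap.range (Matrix.toLin' S)) := by
        rw [Submodule.disjoint_def]
        rintro _ h1 ⟨w, rfl⟩
        rw [mem_ker', Matrix.toLin'_apply] at h1
        rw [Matrix.toLin'_apply]
        exact hS w h1
      have htop := Submodule.eq_top_of_disjoint _ _ (by
        have := LinearMap.finrank_range_add_finrank_ker (Matrix.toLin' S)
        omega) hdis
      intro v hv
      rw [mem_ker'] at hv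
      have h1 : v ∈ LinearMap.ker (Matrix.toLin' S) ⊔ LinearMap.range (Matrix.toLin' S) := by rw [htop]; trivial
      obtain ⟨a, ha, _, ⟨z, rfl⟩, rfl⟩ := Submodule.mem_sup.1 h1
      rw [mem_ker'] at ha
      rw [Matrix.toLin'_apply, mulVec_add, ← mulVec_mulVec, vec_comm hc, ha, mulVec_zero, zero_add, ← mulVec_mulVec,
        vec_comm hc.symm] at hv
      rw [add_comm]
      refine Submodule.add_mem_sup ?_ ((mem_ker' _ _).2 ha)
      rw [mem_ker', Matrix.toLin'_apply, vec_comm hc.symm]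
      exact hS _ hv
    · refine sup_le ?_ ?_
      · intro v hv
        rw [mem_ker'] at hv ⊢
        rw [← mulVec_mulVec, hv, mulVec_zero]
      · intro v hv
        rw [mem_ker'] at hv ⊢
        rw [← mulVec_mulVec, vec_comm hc, hv, mulVec_zero]
  unfold nul
  rw [h1]
  exact Submodule.finrank_sup_add_finrank_inf_eq _ _

theorem exp_units [CharZero k] (ν : Matrix n n k) (hν : IsNilpotent ν) (c : k) (hc : c ≠ 0) :
    ∃ u v : Matrix n n k, (∀ z, Commute z ν → Commute z u ∧ Commute z v) ∧ u * (ee ν (-c) - 1) = ν ∧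
      v * ν = ee ν (-c) - 1 := by
  obtain ⟨x, hx⟩ : ∃ x, x = c • ν := ⟨_, rfl⟩
  have hxn : IsNilpotent x := by rw [hx]; exact smul_nilp hν c
  have hxm : x ∈ Algebra.adjoin k {x} := Algebra.self_mem_adjoin_singleton k x
  obtain ⟨T, hT, hexp⟩ := exp_eq_quad (Algebra.adjoin k {x}) hxm hxn
  have hxT : Commute x T := comm_adjoin x hxm hT
  have hu : IsUnit (1 + x * T) := (hxT.isNilpotent_mul_right hxn).isUnit_one_add
  obtain ⟨U, hU⟩ := hu
  have he : ee ν (-c) - 1 = (1 + x * T) * x := by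
    unfold ee
    rw [neg_smul, neg_neg, ← hx, hexp, add_mul, one_mul, mul_assoc, ← hxT.eq, sq, mul_assoc]
    abel
  have hz : ∀ z, Commute z ν → Commute z (1 + x * T) := by
    intro z hz
    have h1 : Commute z x := by rw [hx]; exact hz.smul_right c
    have h2 : Commute z T := Algebra.commute_of_mem_adjoin_singleton_of_commute hT h1
    exact (Commute.one_right z).add_right (h1.mul_right h2)
  refine ⟨c⁻¹ • (↑U⁻¹ : Matrix n n k), c • (1 + x * T), fun z hzν => ⟨?_, (hz z hzν).smul_right c⟩, ?_, ?_⟩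
  · refine Commute.smul_right ?_ _
    have h1 : Commute z (U : Matrix n n k) := by rw [hU]; exact hz z hzν
    exact h1.units_inv_right
  · rw [he, ← hU, smul_mul_assoc, ← mul_assoc, Units.inv_mul, one_mul, hx, smul_smul, inv_mul_cancel₀ hc, one_smul]
  · rw [he, smul_mul_assoc, ← mul_smul_comm, ← hx]

theorem pow_split (B e : Matrix n n k) (h : Commute B e) (j : ℕ) :
    ∃ G, Commute G B ∧ (B * e + (e - 1)) ^ j = (e - 1) ^ j + B * G := by
  induction j with
  | zero => exact ⟨0, Commute.zero_left _, by simp⟩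
  | succ j ih =>
    obtain ⟨G, hG, hj⟩ := ih
    have hBe : Commute B (e - 1) := h.sub_right (Commute.one_right _)
    have hBX : Commute B (B * e + (e - 1)) := ((Commute.refl B).mul_right h).add_right hBe
    refine ⟨(e - 1) ^ j * e + G * (B * e + (e - 1)), ?_, ?_⟩
    · exact (((hBe.pow_right j).mul_right h).add_right (hG.symm.mul_right hBX)).symm
    · rw [pow_succ, hj, add_mul, mul_add, ← pow_succ, ← mul_assoc, ← (hBe.pow_right j).eq]
      noncomm_ring

/-- the setting: `ρ0` commutes with `ν`; `B = ρ0 exp (-c ν) - 1` -/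
theorem rho_split [CharZero k] (ν : Matrix n n k) (hν : IsNilpotent ν) (ρ0 : Matrix n n k) (c : k) :
    (ρ0 * ee ν c - 1) * ee ν (-c) + (ee ν (-c) - 1) = ρ0 - 1 := by
  have hee : ee ν c * ee ν (-c) = 1 := by rw [← ee_add hν, add_neg_cancel, ee_zero]
  rw [sub_mul, mul_assoc, hee, mul_one, one_mul]
  abel

theorem ker_bound [CharZero k] (A : Set (Matrix n n k)) (hA : SSimple A) (ν : Matrix n n k) (hν : IsNilpotent ν)
    (hcA : ∀ a ∈ A, a * ν = ν * a) (ρ0 : Matrix n n k) (hc : Commute ρ0 ν) (c : k) (hc0 : c ≠ 0)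
    (hmem : ρ0 * ee ν c ∈ A) (j : ℕ) :
    nul ((ρ0 - 1) ^ j) + nul ((ρ0 - 1) ^ Fintype.card n * ν ^ j) ≤ nul (ν ^ j) + mult1 ρ0 := by
  obtain ⟨u, v, huv, hu, hv⟩ := exp_units ν hν c hc0
  have hνe : Commute ν (ee ν c) := ee_comm (Commute.refl ν) c
  have hνe' : Commute ν (ee ν (-c)) := ee_comm (Commute.refl ν) (-c)
  have hρe : Commute ρ0 (ee ν c) := ee_comm hc c
  have hρe' : Commute ρ0 (ee ν (-c)) := ee_comm hc (-c)
  have hee' : Commute (ee ν c) (ee ν (-c)) := by
    rw [Commute, SemiconjBy, ← ee_add hν, ← ee_add hν, add_comm]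
  obtain ⟨B, hB⟩ : ∃ B, B = ρ0 * ee ν c - 1 := ⟨_, rfl⟩
  have hBν : Commute B ν := by
    rw [hB]
    exact (hc.mul_left hνe.symm).sub_left (Commute.one_left _)
  have hBe' : Commute B (ee ν (-c)) := by
    rw [hB]
    exact (hρe'.mul_left hee').sub_left (Commute.one_left _)
  have hT : B * ee ν (-c) + (ee ν (-c) - 1) = ρ0 - 1 := by rw [hB]; exact rho_split ν hν ρ0 c
  have hBu : Commute B u := (huv B hBν).1
  obtain ⟨G, hG, hGj⟩ := pow_split B (ee ν (-c)) hBe' j
  rw [hT] at hGj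
  obtain ⟨y, hyA, hy⟩ := exists_reg A hA (ν ^ j) (fun a ha => by
    have h1 : Commute a ν := hcA a ha
    exact (h1.pow_right j).eq)
  have hBy : Commute B y := by
    rw [hB]
    exact (show Commute (ρ0 * ee ν c) y from hyA _ hmem).sub_left (Commute.one_left y)
  have huj : u ^ j * (ee ν (-c) - 1) ^ j = ν ^ j := by
    have h1 : Commute u (ee ν (-c) - 1) := by
      have h2 : Commute (ee ν (-c)) u := (huv _ hνe'.symm).1
      exact (h2.symm).sub_right (Commute.one_right _)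
    rw [← h1.mul_pow, hu]
  let W : ℕ → Submodule k (n → k) := fun i => LinearMap.ker (Matrix.toLin' (B ^ i))
  have hW : ∀ i w, w ∈ W i ↔ (B ^ i) *ᵥ w = 0 := fun i w => mem_ker' _ _
  have hWmono : ∀ i, W i ≤ W (i + 1) := by
    intro i w hw
    rw [hW] at hw ⊢
    rw [pow_succ', ← mulVec_mulVec, hw, mulVec_zero]
  have hWst : ∀ i (z : Matrix n n k), Commute B z → ∀ w ∈ W i, z *ᵥ w ∈ W i := by
    intro i z hz w hw
    rw [hW] at hw ⊢
    rw [vec_comm (hz.pow_left i), hw, mulVec_zero]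
  let P : ℕ → Submodule k (n → k) := fun i => LinearMap.ker (Matrix.toLin' ((ρ0 - 1) ^ j)) ⊓ W i
  let Q : ℕ → Submodule k (n → k) := fun i => LinearMap.ker (Matrix.toLin' (ν ^ j)) ⊓ W i
  have hstep : ∀ i, P (i + 1) ≤ Q (i + 1) ⊔ W i := by
    rintro i w ⟨h1, h2⟩
    rw [SetLike.mem_coe, mem_ker'] at h1
    have h2' : w ∈ W (i + 1) := h2
    have h3 : (ee ν (-c) - 1) ^ j *ᵥ w ∈ W i := by
      rw [hGj, add_mulVec] at h1
      have h4 : (ee ν (-c) - 1) ^ j *ᵥ w = -((B * G) *ᵥ w) := eq_neg_of_add_eq_zero_left h1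
      rw [h4]
      refine (W i).neg_mem ?_
      rw [hW, mulVec_mulVec, ← mul_assoc, ← pow_succ, ← mulVec_mulVec]
      exact (hW _ _).1 (hWst (i + 1) G hG.symm w h2')
    have h4 : ν ^ j *ᵥ w ∈ W i := by
      rw [← huj, ← mulVec_mulVec]
      exact hWst i _ (hBu.pow_right j) _ h3
    have h5 : y *ᵥ (ν ^ j *ᵥ w) ∈ W i := hWst i y hBy _ h4
    have h6 : w - y *ᵥ (ν ^ j *ᵥ w) ∈ Q (i + 1) := by
      refine ⟨?_, (W (i + 1)).sub_mem h2' (hWmono i h5)⟩
      rw [SetLike.mem_coe, mem_ker', mulVec_sub, mulVec_mulVec, mulVec_mulVec, hy, sub_self]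
    have h7 : w = (w - y *ᵥ (ν ^ j *ᵥ w)) + y *ᵥ (ν ^ j *ᵥ w) := by abel
    rw [h7]
    exact Submodule.add_mem_sup h6 h5
  have hPQ : ∀ i, finrank k (P i) ≤ finrank k (Q i) := by
    intro i
    induction i with
    | zero =>
      have h1 : P 0 = ⊥ := by
        rw [eq_bot_iff]
        rintro w ⟨-, h2⟩
        have h3 : w ∈ W 0 := h2
        rw [hW, pow_zero, one_mulVec] at h3
        rw [h3]
        exact Submodule.zero_mem _
      rw [h1, finrank_bot]
      exact Nat.zero_le _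
    | succ i ih =>
      have e1 := Submodule.finrank_sup_add_finrank_inf_eq (P (i + 1)) (W i)
      have e2 := Submodule.finrank_sup_add_finrank_inf_eq (Q (i + 1)) (W i)
      have e3 : P (i + 1) ⊓ W i = P i := by
        change (_ ⊓ W (i + 1)) ⊓ W i = _ ⊓ W i
        rw [inf_assoc, inf_eq_right.2 (hWmono i)]
      have e4 : Q (i + 1) ⊓ W i = Q i := by
        change (_ ⊓ W (i + 1)) ⊓ W i = _ ⊓ W i
        rw [inf_assoc, inf_eq_right.2 (hWmono i)]
      have e5 : finrank k (P (i + 1) ⊔ W i : Submodule k (n → k)) ≤ finrank k (Q (i + 1) ⊔ W i : Submodule k (n → k)) :=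
        Submodule.finrank_mono (sup_le (hstep i) le_sup_right)
      rw [e3] at e1
      rw [e4] at e2
      omega
  obtain ⟨J, hJ⟩ : IsNilpotent (ee ν c - 1) := IsNilpotent.isNilpotent_exp_sub_one (smul_nilp hν _).neg
  obtain ⟨J', hJ'⟩ : IsNilpotent (ee ν (-c) - 1) := IsNilpotent.isNilpotent_exp_sub_one (smul_nilp hν _).neg
  have hPI : P (j + J) = LinearMap.ker (Matrix.toLin' ((ρ0 - 1) ^ j)) := by
    refine inf_eq_left.2 ?_
    intro w hw
    rw [mem_ker'] at hw
    rw [hW]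
    have h1 : B = (ρ0 - 1) * ee ν c + (ee ν c - 1) := by
      rw [hB, sub_mul, one_mul]
      abel
    have h2 : Commute (ρ0 - 1) (ee ν c) := hρe.sub_left (Commute.one_left _)
    have h3 : ((((ρ0 - 1) * ee ν c) ^ j) *ᵥ w) = 0 := by
      rw [h2.mul_pow, (h2.pow_pow j j).eq, ← mulVec_mulVec, hw, mulVec_zero]
    rw [h1]
    exact sum_kill _ _ ((h2.mul_left (Commute.refl _)).sub_right (Commute.one_right _)) j J w h3 hJ
  have hQI : Q (j + J) ≤ LinearMap.ker (Matrix.toLin' (ν ^ j)) ⊓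
      LinearMap.ker (Matrix.toLin' ((ρ0 - 1) ^ Fintype.card n)) := by
    refine inf_le_inf_left _ ?_
    intro w hw
    rw [hW] at hw
    rw [mem_ker']
    have h3 : ((B * ee ν (-c)) ^ (j + J)) *ᵥ w = 0 := by
      rw [hBe'.mul_pow, (hBe'.pow_pow _ _).eq, ← mulVec_mulVec, hw, mulVec_zero]
    have h4 := sum_kill _ _ ((hBe'.mul_left (Commute.refl _)).sub_right (Commute.one_right _)) (j + J) J' w h3 hJ'
    rw [hT] at h4
    exact pow_stab _ _ w h4
  have hcν : Commute (ρ0 - 1) ν := hc.sub_left (Commute.one_left _)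
  have hsp := ker_split ((ρ0 - 1) ^ Fintype.card n) (ν ^ j) (hcν.pow_pow _ _) (by
    intro w hw
    rw [mulVec_mulVec, ← pow_add] at hw
    exact pow_stab _ _ w hw)
  rw [nul_pow_card] at hsp
  have h1 := hPQ (j + J)
  rw [hPI] at h1
  have h2 := h1.trans (Submodule.finrank_mono hQI)
  have h3 : finrank k (LinearMap.ker (Matrix.toLin' ((ρ0 - 1) ^ j))) = nul ((ρ0 - 1) ^ j) := rfl
  omega

/-- equality in `ker_bound` if `ρ0 exp (-c ν)` is semisimple -/
theorem ker_eq [CharZero k] (ν : Matrix n n k) (hν : IsNilpotent ν)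
    (ρ0 : Matrix n n k) (hc : Commute ρ0 ν) (c : k) (hc0 : c ≠ 0)
    (hs : Module.End.IsSemisimple (Matrix.toLin' (ρ0 * ee ν c))) (j : ℕ) :
    nul (ν ^ j) + mult1 ρ0 ≤ nul ((ρ0 - 1) ^ j) + nul ((ρ0 - 1) ^ Fintype.card n * ν ^ j) := by
  obtain ⟨u, v, huv, hu, hv⟩ := exp_units ν hν c hc0
  have hνe : Commute ν (ee ν c) := ee_comm (Commute.refl ν) c
  have hνe' : Commute ν (ee ν (-c)) := ee_comm (Commute.refl ν) (-c)
  have hρe : Commute ρ0 (ee ν c) := ee_comm hc c
  have hρe' : Commute ρ0 (ee ν (-c)) := ee_comm hc (-c)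
  have hee' : Commute (ee ν c) (ee ν (-c)) := by
    rw [Commute, SemiconjBy, ← ee_add hν, ← ee_add hν, add_comm]
  obtain ⟨B, hB⟩ : ∃ B, B = ρ0 * ee ν c - 1 := ⟨_, rfl⟩
  have hBe' : Commute B (ee ν (-c)) := by
    rw [hB]
    exact (hρe'.mul_left hee').sub_left (Commute.one_left _)
  have hT : B * ee ν (-c) + (ee ν (-c) - 1) = ρ0 - 1 := by rw [hB]; exact rho_split ν hν ρ0 c
  obtain ⟨G, hG, hGj⟩ := pow_split B (ee ν (-c)) hBe' j
  rw [hT] at hGj
  obtain ⟨J, hJ⟩ : IsNilpotent (ee ν c - 1) := IsNilpotent.isNilpotent_exp_sub_one (smul_nilp hν _).neg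
  have hss : SS0 B := by
    rw [hB]
    exact (ss0_iff _).1 (mult1_of_semisimple _ hs)
  have hle : LinearMap.ker (Matrix.toLin' (ν ^ j)) ⊓ LinearMap.ker (Matrix.toLin' ((ρ0 - 1) ^ Fintype.card n)) ≤
      LinearMap.ker (Matrix.toLin' ((ρ0 - 1) ^ j)) := by
    rintro w ⟨hw1, hw2⟩
    rw [SetLike.mem_coe, mem_ker'] at hw1 hw2
    rw [mem_ker']
    have h1 : B = (ρ0 - 1) * ee ν c + (ee ν c - 1) := by
      rw [hB, sub_mul, one_mul]
      abel
    have h2 : Commute (ρ0 - 1) (ee ν c) := hρe.sub_left (Commute.one_left _)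
    have h3 : ((((ρ0 - 1) * ee ν c) ^ Fintype.card n) *ᵥ w) = 0 := by
      rw [h2.mul_pow, (h2.pow_pow _ _).eq, ← mulVec_mulVec, hw2, mulVec_zero]
    have h4 := sum_kill _ _ ((h2.mul_left (Commute.refl _)).sub_right (Commute.one_right _)) _ J w h3 hJ
    rw [← h1] at h4
    have h5 : B *ᵥ w = 0 := hss _ w h4
    have h6 : (ee ν (-c) - 1) ^ j *ᵥ w = 0 := by
      have h7 : Commute v ν := ((huv ν (Commute.refl ν)).2).symm
      rw [← hv, h7.mul_pow, ← mulVec_mulVec, hw1, mulVec_zero]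
    rw [hGj, add_mulVec, h6, zero_add, ← mulVec_mulVec, vec_comm hG.symm, h5, mulVec_zero]
  have hcν : Commute (ρ0 - 1) ν := hc.sub_left (Commute.one_left _)
  have hsp := ker_split ((ρ0 - 1) ^ Fintype.card n) (ν ^ j) (hcν.pow_pow _ _) (by
    intro w hw
    rw [mulVec_mulVec, ← pow_add] at hw
    exact pow_stab _ _ w hw)
  rw [nul_pow_card] at hsp
  have h2 := Submodule.finrank_mono hle
  have h3 : finrank k (LinearMap.ker (Matrix.toLin' ((ρ0 - 1) ^ j))) = nul ((ρ0 - 1) ^ j) := rfl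
  omega

end alg

end Pool.Agent.H56Z
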