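import Mathlib
import Pool.Agent.H56Z.TateC

/-!
# The generic Jordan type at the eigenvalue one
-/

set_option autoImplicit false
set_option linter.unusedSectionVars false
set_option linter.style.haveILetI false

namespace Pool.Agent.H56Z

open Matrix MeasureTheory Module Pool.Agent.H40ZL Pool.Agent.H40GO Pool.Agent.H40LT

section Top

theorem null_ker {F : Type*} [Field F] [CharZero F] [TopologicalSpace F] [T1Space F] {Γ : Type*} [Group Γ]
    [TopologicalSpace Γ] [IsTopologicalGroup Γ] [MeasurableSpace Γ] [BorelSpace Γ] (μ : Measure Γ)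
    [IsFiniteMeasure μ] [μ.IsMulLeftInvariant] (δ : Γ → F) (hδc : Continuous δ)
    (hδ : ∀ σ τ, δ (σ * τ) = δ σ + δ τ) (σ₁ : Γ) (hδ1 : δ σ₁ = 1) : μ {x | δ x = 0} = 0 := by
  by_contra hne
  have hcl : IsClosed {x | δ x = 0} := isClosed_singleton.preimage hδc
  have h1 : δ 1 = 0 := by
    have h2 := hδ 1 1
    rw [mul_one] at h2
    simpa using h2
  have hpow : ∀ i : ℕ, δ (σ₁ ^ i) = i := by
    intro i
    induction i with
    | zero => rw [pow_zero, h1, Nat.cast_zero]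
    | succ i ih => rw [pow_succ, hδ, ih, hδ1, Nat.cast_succ]
  let As : ℕ → Set Γ := fun i => (fun x => σ₁ ^ i * x) ⁻¹' {x | δ x = 0}
  have hAs : ∀ i x, x ∈ As i ↔ (i : F) + δ x = 0 := by
    intro i x
    change δ (σ₁ ^ i * x) = 0 ↔ _
    rw [hδ, hpow]
  have hm : ∀ i, MeasurableSet (As i) := fun i => (hcl.preimage (continuous_const_mul _)).measurableSet
  have hμ : ∀ i, μ (As i) = μ {x | δ x = 0} := fun i => measure_preimage_mul μ _ _
  have hd : Pairwise (Function.onFun Disjoint As) := by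
    intro i j hij
    rw [Function.onFun, Set.disjoint_left]
    intro x hi hj
    rw [hAs] at hi hj
    apply hij
    have h3 : (i : F) = j := by
      have := hi.trans hj.symm
      exact add_right_cancel this
    exact_mod_cast h3
  have hfin := Measure.finite_const_le_meas_of_disjoint_iUnion μ (pos_iff_ne_zero.2 hne) hm hd (measure_ne_top μ _)
  have h2 : {i | μ {x | δ x = 0} ≤ μ (As i)} = Set.univ := by
    ext i
    simp [hμ]
  rw [h2] at hfin
  exact Set.infinite_univ hfin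

variable {F : Type*} [Field F] [CharZero F] [TopologicalSpace F] {G : Type*} [Field G] [Algebra F G]
  [TopologicalSpace G] [IsTopologicalRing G] [T2Space G] [IsAlgClosed G] {Γ : Type*} [Group Γ] [TopologicalSpace Γ]
  [IsTopologicalGroup Γ] [CompactSpace Γ] [MeasurableSpace Γ] [BorelSpace Γ] {n : Type*} [Fintype n] [DecidableEq n]

/-- the coefficients of the characteristic polynomial of `(ρ x - 1) ^ i B` are representative functions -/
theorem coeff_mem_pow (ρ : Γ →* Matrix n n F) (i : ℕ) (B : Matrix n n F) (j : ℕ) :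
    ∃ f ∈ coefAlg (bc G ρ) 1, ∀ x, f x = algebraMap F G (((ρ x - 1) ^ i * B).charpoly.coeff j) := by
  obtain ⟨R, hR⟩ : ∃ R, R = coefAlg (bc G ρ) 1 := ⟨_, rfl⟩
  have hmem : ∀ i j, (fun x => bc G ρ x i j) ∈ R := by
    intro i j
    rw [hR]
    exact mem1 (bc G ρ) 1 i j
  rw [← hR]
  refine ⟨((((matA R (bc G ρ) hmem - 1) ^ i * B.map (algebraMap F R)).charpoly.coeff j : R) : Γ → G),
    Subtype.property _, fun x => ?_⟩
  have h1 : ((ev R x : R →ₐ[G] G) : R →+* G).mapMatrix ((matA R (bc G ρ) hmem - 1) ^ i * B.map (algebraMap F R)) =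
      ((ρ x - 1) ^ i * B).map (algebraMap F G) := by
    rw [map_mul, map_pow, map_sub, matA_ev, map_one]
    have h2 : ((ev R x : R →ₐ[G] G) : R →+* G).mapMatrix (B.map (algebraMap F R)) = B.map (algebraMap F G) := by
      ext a c
      rfl
    have h3 : ((ρ x - 1) ^ i).map (algebraMap F G) = ((ρ x).map (algebraMap F G) - 1) ^ i := by
      have h4 := map_pow (algebraMap F G).mapMatrix (ρ x - 1) i
      rw [map_sub, map_one] at h4
      exact h4
    rw [h2, Matrix.map_mul, h3]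
    rfl
  have h3 := Matrix.charpoly_map ((matA R (bc G ρ) hmem - 1) ^ i * B.map (algebraMap F R))
    ((ev R x : R →ₐ[G] G) : R →+* G)
  have h4 := Matrix.charpoly_map ((ρ x - 1) ^ i * B) (algebraMap F G)
  have h5 : (((matA R (bc G ρ) hmem - 1) ^ i * B.map (algebraMap F R)).map ((ev R x : R →ₐ[G] G) : R →+* G)) =
      ((ρ x - 1) ^ i * B).map (algebraMap F G) := h1
  rw [h5, h4] at h3
  have h6 := congrArg (fun p => p.coeff j) h3
  simp only [Polynomial.coeff_map] at h6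
  exact h6.symm

theorem jordan (hFG : Continuous (algebraMap F G)) [T1Space F] (μ : Measure Γ) [IsFiniteMeasure μ]
    [μ.IsMulLeftInvariant] [μ.InnerRegularCompactLTTop] [μ.IsOpenPosMeasure]
    (ρ : Γ →* Matrix n n F) (hρ : Continuous ρ) (ν : Matrix n n F) (hν : IsNilpotent ν)
    (hc : ∀ σ, Commute (ρ σ) ν) (δ : Γ → F) (hδc : Continuous δ) (hδ : ∀ σ τ, δ (σ * τ) = δ σ + δ τ)
    (σ₁ : Γ) (hδ1 : δ σ₁ = 1)
    (hss : SSimple (Set.range (twist ρ δ hδ ν hν hc))) :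
    ∃ Δ : Subgroup Γ, Δ.Normal ∧ IsOpen (Δ : Set Γ) ∧ (Rigid (bc G ρ) ⊤ → Δ = ⊤) ∧
      ∃ (m : ℕ) (d : ℕ → ℕ), (∀ x ∈ Δ, m ≤ mult1 (ρ x) ∧ ∀ j, m ≤ nul ((ρ x - 1) ^ j) + d j ∧
        (δ x ≠ 0 → nul ((ρ x - 1) ^ j) + d j ≤ mult1 (ρ x))) ∧
      ∃ Z : Set Γ, IsClosed Z ∧ μ Z = 0 ∧ (∀ x ∈ Z, ∀ τ, τ * x * τ⁻¹ ∈ Z) ∧
        ∀ x ∈ Δ, x ∉ Z → δ x ≠ 0 ∧ mult1 (ρ x) = m ∧ ∀ j, nul ((ρ x - 1) ^ j) + d j = m := by
  classical
  have hchar : CharZero G := charZero_of_injective_algebraMap (algebraMap F G).injective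
  have hU := bc_cont (G := G) hFG ρ hρ
  obtain ⟨Δ, hΔn, hΔo, hΔ, hΔt⟩ := exists_delta (bc G ρ) hU
  refine ⟨Δ, hΔn, hΔo, hΔt, ?_⟩
  obtain ⟨R, hR⟩ : ∃ R, R = coefAlg (bc G ρ) 1 := ⟨_, rfl⟩
  have hopf := coefAlg_hopf (bc G ρ) 1
  rw [← hR] at hopf
  haveI : Algebra.FiniteType G R := R.fg_iff_finiteType.mp hopf.fg
  haveI : IsNoetherianRing R := Algebra.FiniteType.isNoetherianRing G R
  have hcont : ∀ r ∈ R, Continuous r := by
    rw [hR]
    exact cont_coefAlg _ hU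
  have hnull : ∀ f ∈ R, (∃ x ∈ Δ, f x ≠ 0) → μ ({x | f x = 0} ∩ Δ) = 0 := by
    intro f hf ⟨x, hx, hfx⟩
    by_contra hcon
    exact hfx (null_zero_on μ R hopf.comul hcont Δ hΔo (by rw [hR]; exact hΔ) f hf hcon x hx)
  have hcoef : ∀ i (B : Matrix n n F) j, ∃ f ∈ R, ∀ x,
      f x = algebraMap F G (((ρ x - 1) ^ i * B).charpoly.coeff j) := by
    rw [hR]
    exact coeff_mem_pow ρ
  have hinv : ∀ x : Γ, ρ x * ρ x⁻¹ = 1 := fun x => by rw [← map_mul, mul_inv_cancel, map_one]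
  have hinv' : ∀ x : Γ, ρ x⁻¹ * ρ x = 1 := fun x => by rw [← map_mul, inv_mul_cancel, map_one]
  obtain ⟨M, hM⟩ : ∃ M, M = Fintype.card n := ⟨_, rfl⟩
  obtain ⟨E, hE⟩ : ∃ E : ℕ → Γ → ℕ, ∀ j x, E j x = nul ((ρ x - 1) ^ M * ν ^ j) := ⟨_, fun _ _ => rfl⟩
  have hνM : ∀ j, M ≤ j → ν ^ j = 0 := by
    intro j hj
    have h1 : ν ^ M = 0 := by
      obtain ⟨J, hJ⟩ := hν
      apply Matrix.toLin'.injective
      refine LinearMap.ext fun v => ?_
      rw [Matrix.toLin'_apply, map_zero, LinearMap.zero_apply, hM]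
      exact pow_stab ν J v (by rw [hJ, zero_mulVec])
    exact pow_eq_zero_of_le hj h1
  -- the minimum of `E j`
  have hEmin : ∀ j, ∃ e : ℕ, (∃ x ∈ Δ, E j x = e) ∧ ∀ y ∈ Δ, e ≤ E j y := by
    intro j
    have hne : {m : ℕ | ∃ x ∈ Δ, E j x = m}.Nonempty := ⟨_, 1, Δ.one_mem, rfl⟩
    exact ⟨_, Nat.sInf_mem hne, fun y hy => Nat.sInf_le ⟨y, hy, rfl⟩⟩
  choose e he hemin using hEmin
  have hEfun : ∀ j, ∃ f ∈ R, μ ({x | f x = 0} ∩ Δ) = 0 ∧ ∀ x, f x ≠ 0 → E j x ≤ e j := by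
    intro j
    obtain ⟨x₀, hx₀, hx₀e⟩ := he j
    obtain ⟨B₀, j₀, hj₀, hB₀⟩ : ∃ (B : Matrix n n F) (i : ℕ), i < e j + 1 ∧
        (((ρ x₀ - 1) ^ M * ν ^ j) * B).charpoly.coeff i ≠ 0 := by
      by_contra hcon
      push Not at hcon
      have h1 := ker_of_mz (e j + 1) ((ρ x₀ - 1) ^ M * ν ^ j) fun B i hi => hcon B i hi
      rw [← hE, hx₀e] at h1
      omega
    obtain ⟨f, hf, hfe⟩ := hcoef M (ν ^ j * B₀) j₀
    refine ⟨f, hf, hnull f hf ⟨x₀, hx₀, ?_⟩, ?_⟩
    · rw [hfe, ← mul_assoc, Ne, map_eq_zero]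
      exact hB₀
    · intro x hx
      by_contra hcon
      apply hx
      rw [hE] at hcon
      rw [hfe, ← mul_assoc, mz_of_ker (e j + 1) ((ρ x - 1) ^ M * ν ^ j) B₀ (by omega) j₀ hj₀, map_zero]
  choose f₂ hf₂ hnf₂ hf₂E using hEfun
  have hee : ∀ j, nul (ν ^ j) ≤ e j := by
    intro j
    obtain ⟨x₀, hx₀, hx₀e⟩ := he j
    rw [← hx₀e, hE]
    unfold nul
    refine Submodule.finrank_mono ?_
    intro w hw
    rw [mem_ker'] at hw ⊢
    rw [← mulVec_mulVec, hw, mulVec_zero]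
  -- the minimal order
  obtain ⟨m, ⟨x₁, hx₁, hm⟩, hmin⟩ : ∃ m : ℕ, (∃ x ∈ Δ, mult1 (ρ x) = m) ∧ ∀ y ∈ Δ, m ≤ mult1 (ρ y) := by
    have hne : {m : ℕ | ∃ x ∈ Δ, mult1 (ρ x) = m}.Nonempty := ⟨_, 1, Δ.one_mem, rfl⟩
    exact ⟨_, Nat.sInf_mem hne, fun y hy => Nat.sInf_le ⟨y, hy, rfl⟩⟩
  have hmz : ∀ x j, MZ j (ρ x - 1) ↔ j ≤ mult1 (ρ x) := fun x j => by rw [mz_iff, mult1_eq]
  obtain ⟨f, hf, hfe⟩ := hcoef 1 1 m
  simp only [pow_one, mul_one] at hfe
  have hf1 : f x₁ ≠ 0 := by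
    intro h0
    rw [hfe, map_eq_zero] at h0
    have h1 : MZ (m + 1) (ρ x₁ - 1) := by
      intro j hj
      rcases Nat.lt_succ_iff_lt_or_eq.mp hj with h | h
      · exact (hmz x₁ m).mpr hm.ge j h
      · rw [h]
        exact h0
    rw [hmz, hm] at h1
    omega
  have hnf := hnull f hf ⟨x₁, hx₁, hf1⟩
  have hfmin : ∀ x ∈ Δ, f x ≠ 0 → mult1 (ρ x) = m := by
    intro x hx hfx
    apply le_antisymm _ (hmin x hx)
    by_contra hcon
    apply hfx
    rw [hfe, (hmz x (m + 1)).mpr (by omega) m (Nat.lt_succ_self m), map_zero]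
  obtain ⟨Z₁, hZ₁c, hZ₁μ, hZ₁conj, hZ₁⟩ := generic_of_conn (G := G) hFG μ ρ hρ Δ hΔn hΔo hΔ
  -- the bad set
  obtain ⟨B, hB⟩ : ∃ B : Set Γ, B = {x | x ∈ Δ ∧ (mult1 (ρ x) ≠ m ∨ ∃ j ∈ Finset.range M, E j x ≠ e j)} := ⟨_, rfl⟩
  have hBsub : closure B ⊆ ({x | f x = 0} ∩ (Δ : Set Γ)) ∪
      ⋃ j ∈ Finset.range M, ({x | f₂ j x = 0} ∩ (Δ : Set Γ)) := by
    refine closure_minimal ?_ ?_
    · rw [hB]
      rintro x ⟨hx1, hx2 | ⟨j, hj, hx2⟩⟩
      · left
        refine ⟨?_, hx1⟩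
        by_contra h
        exact hx2 (hfmin x hx1 h)
      · right
        rw [Set.mem_iUnion₂]
        refine ⟨j, hj, ?_, hx1⟩
        by_contra h
        exact hx2 (le_antisymm (hf₂E j x h) (hemin j x hx1))
    · refine ((isClosed_singleton.preimage (hcont f hf)).inter (Δ.isClosed_of_isOpen hΔo)).union ?_
      exact isClosed_biUnion_finset fun j _ =>
        (isClosed_singleton.preimage (hcont _ (hf₂ j))).inter (Δ.isClosed_of_isOpen hΔo)
  have hBμ : μ (closure B) = 0 := by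
    refine measure_mono_null hBsub ?_
    rw [measure_union_null_iff]
    refine ⟨hnf, ?_⟩
    exact (measure_biUnion_null_iff (Finset.range M).countable_toSet).2 fun j _ => hnf₂ j
  have hBconj : ∀ x ∈ B, ∀ τ, τ * x * τ⁻¹ ∈ B := by
    rw [hB]
    rintro x ⟨hx1, hx2⟩ τ
    refine ⟨hΔn.conj_mem x hx1 τ, ?_⟩
    rcases hx2 with hx2 | ⟨j, hj, hx2⟩
    · left
      have h1 : (ρ (τ * x * τ⁻¹)).charpoly = (ρ x).charpoly := by
        rw [map_mul, map_mul]
        have h4 := Matrix.charpoly_units_conj (⟨ρ τ, ρ τ⁻¹, hinv τ, hinv' τ⟩ : (Matrix n n F)ˣ) (ρ x)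
        rw [← Matrix.coe_units_inv] at h4
        exact h4
      unfold mult1 at hx2 ⊢
      rw [h1]
      exact hx2
    · right
      refine ⟨j, hj, ?_⟩
      have h0 : ∀ y τ, E j (τ * y * τ⁻¹) ≤ E j y := by
        intro y τ
        rw [hE, hE]
        unfold nul
        have hpw : ∀ i : ℕ, (ρ (τ * y * τ⁻¹) - 1) ^ i * ρ τ = ρ τ * (ρ y - 1) ^ i := by
          intro i
          have h2 : (ρ (τ * y * τ⁻¹) - 1) * ρ τ = ρ τ * (ρ y - 1) := by
            rw [map_mul, map_mul, sub_mul, mul_assoc _ (ρ τ⁻¹), hinv', mul_one, one_mul, mul_sub, mul_one]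
          induction i with
          | zero => rw [pow_zero, pow_zero, one_mul, mul_one]
          | succ i ih => rw [pow_succ, pow_succ, mul_assoc, h2, ← mul_assoc, ih, mul_assoc]
        have h1 : (ρ (τ * y * τ⁻¹) - 1) ^ M * ν ^ j * ρ τ = ρ τ * ((ρ y - 1) ^ M * ν ^ j) := by
          rw [mul_assoc, ← ((hc τ).pow_right j).eq, ← mul_assoc, hpw, mul_assoc]
        refine LinearMap.finrank_le_finrank_of_injective
          (f := ((Matrix.toLin' (ρ τ⁻¹)).restrict (p := LinearMap.ker (Matrix.toLin'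
            ((ρ (τ * y * τ⁻¹) - 1) ^ M * ν ^ j))) (q := LinearMap.ker (Matrix.toLin' ((ρ y - 1) ^ M * ν ^ j))) ?_)) ?_
        · intro w hw
          rw [mem_ker'] at hw ⊢
          rw [Matrix.toLin'_apply]
          have h2 : ρ τ *ᵥ (((ρ y - 1) ^ M * ν ^ j) *ᵥ (ρ τ⁻¹ *ᵥ w)) = 0 := by
            rw [mulVec_mulVec, ← h1, mulVec_mulVec, mul_assoc, hinv, mul_one, hw]
          have h3 := congrArg (fun z => ρ τ⁻¹ *ᵥ z) h2
          simp only [mulVec_mulVec, mulVec_zero] at h3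
          rw [← mul_assoc, ← mul_assoc, hinv', one_mul] at h3
          rw [mulVec_mulVec]
          exact h3
        · intro a b hab
          have h2 : ρ τ⁻¹ *ᵥ (a : n → F) = ρ τ⁻¹ *ᵥ (b : n → F) := by
            have h3 := congrArg Subtype.val hab
            rw [LinearMap.coe_restrict_apply, LinearMap.coe_restrict_apply, Matrix.toLin'_apply,
              Matrix.toLin'_apply] at h3
            exact h3
          have h3 := congrArg (fun z => ρ τ *ᵥ z) h2
          simp only [mulVec_mulVec, hinv, one_mulVec] at h3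
          exact Subtype.ext h3
      have h1 : E j (τ * x * τ⁻¹) = E j x := by
        apply le_antisymm (h0 x τ)
        have h2 := h0 (τ * x * τ⁻¹) τ⁻¹
        have h3 : τ⁻¹ * (τ * x * τ⁻¹) * τ⁻¹⁻¹ = x := by group
        rwa [h3] at h2
      rw [h1]
      exact hx2
  have hδconj : ∀ x τ, δ (τ * x * τ⁻¹) = δ x := by
    intro x τ
    have h1 : δ 1 = 0 := by
      have h2 := hδ 1 1
      rw [mul_one] at h2
      simpa using h2
    have h2 : δ τ + δ τ⁻¹ = 0 := by rw [← hδ, mul_inv_cancel, h1]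
    rw [hδ, hδ]
    linear_combination h2
  obtain ⟨Z, hZ⟩ : ∃ Z : Set Γ, Z = closure B ∪ (Z₁ ∪ {x | δ x = 0}) := ⟨_, rfl⟩
  have hZμ : μ Z = 0 := by
    rw [hZ, measure_union_null_iff, measure_union_null_iff]
    exact ⟨hBμ, hZ₁μ, null_ker μ δ hδc hδ σ₁ hδ1⟩
  have hgen : ∀ x ∈ Δ, x ∉ Z → δ x ≠ 0 ∧ mult1 (ρ x) = m ∧ ∀ j, nul ((ρ x - 1) ^ j) + (e j - nul (ν ^ j)) = m := by
    intro x hx hxZ
    rw [hZ, Set.mem_union, Set.mem_union, not_or, not_or] at hxZ
    obtain ⟨hx1, hx2, hx3⟩ := hxZ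
    have h1 : x ∉ B := fun h => hx1 (subset_closure h)
    rw [hB] at h1
    have h2 : mult1 (ρ x) = m := by
      by_contra h
      exact h1 ⟨hx, Or.inl h⟩
    have h3 : ∀ j, E j x = e j := by
      intro j
      by_cases hj : j < M
      · by_contra h
        exact h1 ⟨hx, Or.inr ⟨j, Finset.mem_range.2 hj, h⟩⟩
      · obtain ⟨x₀, -, hx₀e⟩ := he j
        rw [← hx₀e, hE, hE, hνM j (not_lt.1 hj), mul_zero, mul_zero]
    refine ⟨hx3, h2, fun j => ?_⟩
    have hsemi : Module.End.IsSemisimple (Matrix.toLin' (ρ x * ee ν (δ x))) := by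
      have := semisimple_of_max (G := G) (twist ρ δ hδ ν hν hc) hss Δ (hDn := hΔn) x hx fun y hy => by
        rw [twist_nd, twist_nd]
        exact hZ₁ x hx hx2 y hy
      rwa [twist_apply] at this
    have h4 := ker_eq ν hν (ρ x) (hc x) (δ x) hx3 hsemi j
    have h5 := ker_bound (Set.range (twist ρ δ hδ ν hν hc)) hss ν hν (by
      rintro _ ⟨τ, rfl⟩
      rw [twist_apply]
      exact ((hc τ).mul_left (ee_comm (Commute.refl ν) _).symm).eq) (ρ x) (hc x) (δ x) hx3 ⟨x, rfl⟩ j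
    rw [← hM, ← hE, h3 j, h2] at h4 h5
    have h6 := hee j
    omega
  refine ⟨m, fun j => e j - nul (ν ^ j), ?_, Z, ?_, hZμ, ?_, hgen⟩
  · intro x hx
    refine ⟨hmin x hx, fun j => ⟨?_, fun hδx => ?_⟩⟩
    · -- semicontinuity of the rank
      have h0 : m - (e j - nul (ν ^ j)) ≤ nul ((ρ x - 1) ^ j) := by
        apply ker_of_mz
        intro B i hi
        obtain ⟨g, hg, hge⟩ := hcoef j B i
        have h1 : μ ({x | g x = 0} ∩ Δ) ≠ 0 := by
          intro h0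
          have h2 : (Δ : Set Γ) ⊆ ({x | g x = 0} ∩ Δ) ∪ Z := by
            intro y hy
            by_cases h3 : y ∈ Z
            · exact Or.inr h3
            · left
              refine ⟨?_, hy⟩
              have h5 := (hgen y hy h3).2.2 j
              change g y = 0
              rw [hge, mz_of_ker (m - (e j - nul (ν ^ j))) ((ρ y - 1) ^ j) B (by omega) i hi, map_zero]
          have h3 : μ (Δ : Set Γ) = 0 := by
            refine measure_mono_null h2 ?_
            rw [measure_union_null_iff]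
            exact ⟨h0, hZμ⟩
          exact (hΔo.measure_pos μ ⟨1, Δ.one_mem⟩).ne' h3
        have h2 := null_zero_on μ R hopf.comul hcont Δ hΔo (by rw [hR]; exact hΔ) g hg h1 x hx
        rw [hge, map_eq_zero] at h2
        exact h2
      change m ≤ nul ((ρ x - 1) ^ j) + (e j - nul (ν ^ j))
      omega
    · have h5 := ker_bound (Set.range (twist ρ δ hδ ν hν hc)) hss ν hν (by
        rintro _ ⟨τ, rfl⟩
        rw [twist_apply]
        exact ((hc τ).mul_left (ee_comm (Commute.refl ν) _).symm).eq) (ρ x) (hc x) (δ x) hδx ⟨x, rfl⟩ j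
      rw [← hM, ← hE] at h5
      have h6 := hee j
      have h7 := hemin j x hx
      change nul ((ρ x - 1) ^ j) + (e j - nul (ν ^ j)) ≤ mult1 (ρ x)
      omega
  · rw [hZ]
    exact isClosed_closure.union (hZ₁c.union (isClosed_singleton.preimage hδc))
  · rw [hZ]
    rintro x (hx | hx | hx) τ
    · left
      have hc' : Continuous fun y : Γ => τ * y * τ⁻¹ := by fun_prop
      exact map_mem_closure (f := fun y : Γ => τ * y * τ⁻¹) hc' hx fun y hy => hBconj y hy τ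
    · right
      left
      exact hZ₁conj x hx τ
    · right
      right
      change δ (τ * x * τ⁻¹) = 0
      rw [hδconj]
      exact hx

end Top

end Pool.Agent.H56Z
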